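import Mathlib

/-!
# Isolated left orders: definitions

`Cone E Q` : `Q` is the positive cone of a left order on the subgroup `E`.
`Isol E P F` : the left order `P` on `E` is the only one in which all elements of the finite set `F`
are positive.
`Cvx P E H` : `H` is a convex subgroup of `E` for the order `P`.
`TarSer P j Cs` : `Cs 0 < Cs 1 < ... < Cs j` is a Tararin series compatible with `P`.
-/

set_option autoImplicit false

namespace Pool.Agent.IsoOrd

variable {G : Type*} [Group G]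

/-- positive cone of a left order on the subgroup `E` (a set of elements of the ambient group) -/
structure Cone (E : Subgroup G) (Q : Set G) : Prop where
  sub : ∀ x ∈ Q, x ∈ E
  mul : ∀ x ∈ Q, ∀ y ∈ Q, x * y ∈ Q
  one : (1 : G) ∉ Q
  tot : ∀ x ∈ E, x ≠ 1 → x ∈ Q ∨ x⁻¹ ∈ Q

/-- `P` is an isolated left order on `E`, determined by the finite set `F` of positive elements -/
structure Isol (E : Subgroup G) (P F : Set G) : Prop where
  cone : Cone E P
  fin : F.Finite
  sub : F ⊆ P
  uniq : ∀ Q, Cone E Q → F ⊆ Q → Q = P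

/-- `H` is a convex subgroup of `E` with respect to `P` -/
structure Cvx (P : Set G) (E H : Subgroup G) : Prop where
  le : H ≤ E
  cvx : ∀ x ∈ H, ∀ y ∈ P, y⁻¹ * x ∈ P → y ∈ H

/-- a Tararin series of length `j`: the jumps are rank one (embedded in the rationals by an order
preserving map) and for any two consecutive jumps some element of the upper group reverses the
lower jump. -/
structure TarSer (P : Set G) (j : ℕ) (Cs : ℕ → Subgroup G) : Prop where
  zero : Cs 0 = ⊥
  lt : ∀ m < j, Cs m < Cs (m + 1)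
  hom : ∀ m < j, ∃ ψ : G → ℚ,
    (∀ x ∈ Cs (m + 1), ∀ y ∈ Cs (m + 1), ψ (x * y) = ψ x + ψ y) ∧
    (∀ x ∈ Cs m, ψ x = 0) ∧
    (∀ x ∈ Cs (m + 1), x ∉ Cs m → x ∈ P → 0 < ψ x)
  neg : ∀ m, m + 1 < j → ∃ e ∈ Cs (m + 2), ∃ h ∈ Cs (m + 1), h ∉ Cs m ∧ h ∈ P ∧
    e * h * e⁻¹ ∉ Cs m ∧ (e * h * e⁻¹)⁻¹ ∈ P

/-- value of a word in two letters -/
def ev (a b : G) (w : List Bool) : G := (w.map (fun i => cond i a b)).prod

/-- `N/K` contains no free subsemigroup of rank two -/
def RelNFS (N K : Subgroup G) : Prop :=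
  ∀ a ∈ N, ∀ b ∈ N, ∃ w₁ w₂ : List Bool, w₁ ≠ w₂ ∧ (ev a b w₁)⁻¹ * ev a b w₂ ∈ K

/-- every non-trivial quotient of `G` has a non-trivial normal subgroup without free subsemigroups
of rank two -/
def HNFS (G : Type*) [Group G] : Prop :=
  ∀ K : Subgroup G, K.Normal → K ≠ ⊤ → ∃ N : Subgroup G, N.Normal ∧ K < N ∧ RelNFS N K

/-- output of the Tararin theory used in the dynamics, 1: finitely many elements of `C` move any
left order of `C` with positive top sign to `P` by conjugation -/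
def TopAlt (P : Set G) (C : Subgroup G) : Prop :=
  ∃ R : Finset G, (∀ r ∈ R, r ∈ C) ∧ ∃ c ∈ C, ∀ Q, Cone C Q →
    (∃ r ∈ R, ∀ f ∈ P, f ∈ C → r⁻¹ * f * r ∈ Q) ∨ (c ∈ P ∧ c⁻¹ ∈ Q)

/-- output of the Tararin theory used in the dynamics, 2: there are boundedly many levels, the same
for all left orders of `C`, and two elements of the same level are Archimedean equivalent -/
def LevBound (C : Subgroup G) : Prop :=
  ∃ (j : ℕ) (lev : G → ℕ), (∀ x ∈ C, lev x ≤ j) ∧ (∀ x ∈ C, lev x⁻¹ = lev x) ∧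
    ∀ Q, Cone C Q → ∀ a ∈ Q, ∀ b ∈ Q, lev a = lev b → ∀ m : ℕ, ∃ n : ℕ,
      (a ^ m)⁻¹ * b ^ n ∈ Q ∧ b ^ n * (a ^ m)⁻¹ ∈ Q

/-! ### actions on linear orders -/

section Act

variable {Ω : Type*} [LinearOrder Ω] [MulAction G Ω]

/-- the convex hull of the orbit of `x` under the powers of `a` -/
def comp (a : G) (x : Ω) : Set Ω := {z | (∃ m : ℤ, a ^ m • x ≤ z) ∧ ∃ n : ℤ, z ≤ a ^ n • x}

end Act

/-- the action is order preserving -/
def Mono (G Ω : Type*) [Group G] [LinearOrder Ω] [MulAction G Ω] : Prop :=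
  ∀ (g : G) (x y : Ω), x < y → g • x < g • y

/-- there is no non-trivial invariant convex equivalence relation -/
def Prim (G Ω : Type*) [Group G] [LinearOrder Ω] [MulAction G Ω] : Prop :=
  ∀ J : Ω → Set Ω, (∀ x, x ∈ J x) → (∀ x y, y ∈ J x → J y = J x) →
    (∀ x y z w, y ∈ J x → w ∈ J x → y ≤ z → z ≤ w → z ∈ J x) →
    (∀ (g : G) (x y : Ω), y ∈ J x → g • y ∈ J (g • x)) →
    (∀ x, J x = {x}) ∨ (∀ x, J x = Set.univ)

/-- the dynamical situation: a transitive, order preserving, primitive action whose point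
stabiliser at `o` is `C`, and positive elements outside `C` move `o` upwards -/
structure Dyn (G Ω : Type*) [Group G] [LinearOrder Ω] [MulAction G Ω] (P : Set G)
    (C : Subgroup G) (o : Ω) : Prop where
  mono : Mono G Ω
  trans : ∀ x : Ω, ∃ g : G, g • o = x
  prim : Prim G Ω
  stab : ∀ g : G, g • o = o ↔ g ∈ C
  pos : ∀ g ∈ P, g ∉ C → o < g • o

end Pool.Agent.IsoOrd
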