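import Pool.Agent.IsoOrd.Short

/-!
# Elements with a fixed cut form a subgroup

* `mul_short`: it is enough to find a lower set `S ≠ ∅, univ` fixed by `a` and `b`. Let
  `A = comp a x₀`, `S_A = {z | ∃ y ∈ A, z ≤ y}`, fixed by `a`, proper by `short`. If `b` fixes it, done.
  Otherwise there is `y ∈ S_A` with `b^(±1) y` above all of `A`; `B = comp b y` contains `y` and
  `b^(±1) y`, meets or contains `A`, so by `cross` `A ⊆ B`. `S_B = {z | ∃ y ∈ B, z ≤ y}` is fixed by `b`, proper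
  by `short`. If `a` did not fix it, similarly there is `y''` with `B ⊆ comp a y''`, so
  `comp a y''` meets `A = comp a x₀`, hence they are equal (`comp_eq_of_mem`) and `B ⊆ A`: contradiction.
* `dichotomy`: `n` or its inverse moves all points up (a point with `n y ≤ y` would give a bounded orbit).
  Suppose `a ∈ N` with `comp a x₀ ≠ univ`. `N₀ = {b ∈ N | comp b x₀ ≠ univ}` is closed under products
  (`mul_short`), inverses and conjugation by `G` (`comp b x ≠ univ` for one `x` iff for all `x`).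
  `J x = {z | ∃ b c ∈ N₀, b x ≤ z ≤ c x}` is an invariant convex partition and `n x ∉ J x` by `short`; so
  `J x = {x}` by primitivity, `a x = x`.
-/

set_option autoImplicit false

universe u

namespace Pool.Agent.IsoOrd

variable {G : Type*} [Group G]

section Act

variable {Ω : Type*} [LinearOrder Ω] [MulAction G Ω]

private theorem dich_le (hm : Mono G Ω) (g : G) {x y : Ω} (h : x ≤ y) : g • x ≤ g • y := by
  rcases h.lt_or_eq with h | h
  · exact (hm g x y h).le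
  · rw [h]

private theorem dich_self (a : G) (x : Ω) : x ∈ comp a x :=
  ⟨⟨0, by simp⟩, ⟨0, by simp⟩⟩

private theorem dich_smul_mem (hm : Mono G Ω) {a : G} {x z : Ω} (hz : z ∈ comp a x) :
    a • z ∈ comp a x := by
  obtain ⟨⟨m, h1⟩, ⟨k, h2⟩⟩ := hz
  refine ⟨⟨1 + m, ?_⟩, ⟨1 + k, ?_⟩⟩
  · rw [zpow_add, zpow_one, mul_smul]; exact dich_le hm a h1
  · rw [zpow_add, zpow_one, mul_smul]; exact dich_le hm a h2

private theorem dich_inv_smul_mem (hm : Mono G Ω) {a : G} {x z : Ω} (hz : z ∈ comp a x) :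
    a⁻¹ • z ∈ comp a x := by
  obtain ⟨⟨m, h1⟩, ⟨k, h2⟩⟩ := hz
  refine ⟨⟨-1 + m, ?_⟩, ⟨-1 + k, ?_⟩⟩
  · rw [zpow_add, zpow_neg_one, mul_smul]; exact dich_le hm a⁻¹ h1
  · rw [zpow_add, zpow_neg_one, mul_smul]; exact dich_le hm a⁻¹ h2

private theorem dich_inv (a : G) (x : Ω) : comp a⁻¹ x = comp a x := by
  ext z
  constructor
  · rintro ⟨⟨m, h1⟩, ⟨k, h2⟩⟩
    refine ⟨⟨-m, ?_⟩, ⟨-k, ?_⟩⟩
    · rw [inv_zpow] at h1; rwa [zpow_neg]
    · rw [inv_zpow] at h2; rwa [zpow_neg]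
  · rintro ⟨⟨m, h1⟩, ⟨k, h2⟩⟩
    refine ⟨⟨-m, ?_⟩, ⟨-k, ?_⟩⟩
    · rw [inv_zpow, zpow_neg, inv_inv]; exact h1
    · rw [inv_zpow, zpow_neg, inv_inv]; exact h2

/-- a set fixed by `a` and `b` which is a proper lower set -/
private theorem dich_of_set {a b : G} {S : Set Ω} (hlow : ∀ z ∈ S, ∀ y, y ≤ z → y ∈ S)
    (hne : S.Nonempty) (hpr : ∃ z, z ∉ S) (ha : ∀ z ∈ S, a • z ∈ S) (ha' : ∀ z ∈ S, a⁻¹ • z ∈ S)
    (hb : ∀ z ∈ S, b • z ∈ S) (hb' : ∀ z ∈ S, b⁻¹ • z ∈ S) (x₀ : Ω) :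
    comp (a * b) x₀ ≠ Set.univ := by
  have h1 : ∀ z ∈ S, (a * b) • z ∈ S := fun z hz => by
    rw [mul_smul]; exact ha _ (hb _ hz)
  have h2 : ∀ z ∈ S, (a * b)⁻¹ • z ∈ S := fun z hz => by
    rw [mul_inv_rev, mul_smul]; exact hb' _ (ha' _ hz)
  have h3 : ∀ (m : ℕ), ∀ z ∈ S, (a * b) ^ m • z ∈ S := by
    intro m
    induction m with
    | zero => intro z hz; simpa using hz
    | succ m ih => intro z hz; rw [pow_succ, mul_smul]; exact ih _ (h1 z hz)
  have h4 : ∀ (m : ℕ), ∀ z ∈ S, ((a * b)⁻¹) ^ m • z ∈ S := by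
    intro m
    induction m with
    | zero => intro z hz; simpa using hz
    | succ m ih => intro z hz; rw [pow_succ, mul_smul]; exact ih _ (h2 z hz)
  have h5 : ∀ (m : ℤ), ∀ z ∈ S, (a * b) ^ m • z ∈ S := by
    intro m z hz
    rcases Int.le_total 0 m with hm | hm
    · obtain ⟨k, rfl⟩ := Int.eq_ofNat_of_zero_le hm
      have := h3 k z hz
      rwa [← zpow_natCast] at this
    · obtain ⟨k, hk⟩ := Int.eq_ofNat_of_zero_le (neg_nonneg.2 hm)
      have h6 : m = -(k : ℤ) := by rw [← hk, neg_neg]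
      have := h4 k z hz
      rw [inv_pow, ← zpow_natCast, ← zpow_neg] at this
      rwa [h6]
  intro huniv
  by_cases hx : x₀ ∈ S
  · obtain ⟨z, hz⟩ := hpr
    have h6 : z ∈ comp (a * b) x₀ := by rw [huniv]; exact Set.mem_univ z
    obtain ⟨-, k, hk⟩ := h6
    exact hz (hlow _ (h5 k x₀ hx) z hk)
  · obtain ⟨z, hz⟩ := hne
    have h6 : z ∈ comp (a * b) x₀ := by rw [huniv]; exact Set.mem_univ z
    obtain ⟨⟨k, hk⟩, -⟩ := h6
    apply hx
    have h7 := h5 (-k) _ (hlow z hz _ hk)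
    rwa [smul_smul, ← zpow_add, neg_add_cancel, zpow_zero, one_smul] at h7

/-- if the lower hull of `comp a x` is not fixed by `b` then `comp a x` is properly contained in some
`comp b y` -/
private theorem dich_step (hm : Mono G Ω) {N K : Subgroup G} (hN : RelNFS N K)
    (hK : ∀ k ∈ K, ∀ x : Ω, k • x = x) {a b : G} (ha : a ∈ N) (hb : b ∈ N) (x : Ω)
    (h : ¬ ∀ z, (∃ y ∈ comp a x, z ≤ y) → (∃ y ∈ comp a x, b • z ≤ y) ∧
      ∃ y ∈ comp a x, b⁻¹ • z ≤ y) :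
    ∃ y, comp a x ⊆ comp b y ∧ ∃ w ∈ comp b y, w ∉ comp a x := by
  push Not at h
  obtain ⟨z, ⟨y, hy, hzy⟩, h⟩ := h
  have key : ∀ w ∈ comp b z, (∀ y ∈ comp a x, y < w) →
      comp a x ⊆ comp b z ∧ ∃ w ∈ comp b z, w ∉ comp a x := by
    intro w hw hlt
    have h1 : w ∉ comp a x := fun h => lt_irrefl _ (hlt w h)
    have h2 : y ∈ comp b z := by
      obtain ⟨-, k, hk⟩ := hw
      exact ⟨⟨0, by simpa using hzy⟩, ⟨k, (hlt y hy).le.trans hk⟩⟩
    rcases cross hm hN hK ha hb x z ⟨y, hy, h2⟩ with h3 | h3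
    · exact ⟨h3, w, hw, h1⟩
    · exact absurd (h3 hw) h1
  by_cases h3 : ∃ y ∈ comp a x, b • z ≤ y
  · refine ⟨z, key (b⁻¹ • z) (dich_inv_smul_mem hm (dich_self b z)) ?_⟩
    intro y' hy'
    exact h h3 y' hy'
  · push Not at h3
    exact ⟨z, key (b • z) (dich_smul_mem hm (dich_self b z)) h3⟩

/-- products of non-cofinal elements are non-cofinal -/
theorem mul_short (hm : Mono G Ω) {N K : Subgroup G} (hN : RelNFS N K)
    (hK : ∀ k ∈ K, ∀ x : Ω, k • x = x) {a b n : G} (ha : a ∈ N) (hb : b ∈ N) (hn : n ∈ N)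
    (hnp : ∀ x : Ω, x < n • x) (hcof : ∀ x : Ω, comp n x = Set.univ) (x₀ : Ω)
    (hx₀ : comp a x₀ ≠ Set.univ) (hy₀ : comp b x₀ ≠ Set.univ) :
    comp (a * b) x₀ ≠ Set.univ := by
  have hsa := short hm hN hK ha hn hnp hcof x₀ hx₀
  have hsb := short hm hN hK hb hn hnp hcof x₀ hy₀
  by_cases h1 : ∀ z, (∃ y ∈ comp a x₀, z ≤ y) → (∃ y ∈ comp a x₀, b • z ≤ y) ∧
      ∃ y ∈ comp a x₀, b⁻¹ • z ≤ y
  · refine dich_of_set (S := {z | ∃ y ∈ comp a x₀, z ≤ y}) ?_ ⟨x₀, x₀, dich_self a x₀, le_rfl⟩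
      ⟨n • x₀, ?_⟩ ?_ ?_ (fun z hz => (h1 z hz).1) (fun z hz => (h1 z hz).2) x₀
    · rintro z ⟨y, hy, hzy⟩ y' hy'
      exact ⟨y, hy, hy'.trans hzy⟩
    · rintro ⟨y, hy, hny⟩
      exact absurd (hsa x₀ y hy).1 (not_lt.2 hny)
    · rintro z ⟨y, hy, hzy⟩
      exact ⟨a • y, dich_smul_mem hm hy, dich_le hm a hzy⟩
    · rintro z ⟨y, hy, hzy⟩
      exact ⟨a⁻¹ • y, dich_inv_smul_mem hm hy, dich_le hm a⁻¹ hzy⟩
  · obtain ⟨y, hAB, w, hw, hwA⟩ := dich_step hm hN hK ha hb x₀ h1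
    by_cases h2 : ∀ z, (∃ y' ∈ comp b y, z ≤ y') → (∃ y' ∈ comp b y, a • z ≤ y') ∧
        ∃ y' ∈ comp b y, a⁻¹ • z ≤ y'
    · refine dich_of_set (S := {z | ∃ y' ∈ comp b y, z ≤ y'}) ?_ ⟨y, y, dich_self b y, le_rfl⟩
        ⟨n • y, ?_⟩ (fun z hz => (h2 z hz).1) (fun z hz => (h2 z hz).2) ?_ ?_ x₀
      · rintro z ⟨y', hy', hzy⟩ y'' hy''
        exact ⟨y', hy', hy''.trans hzy⟩
      · rintro ⟨y', hy', hny⟩
        exact absurd (hsb y y' hy').1 (not_lt.2 hny)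
      · rintro z ⟨y', hy', hzy⟩
        exact ⟨b • y', dich_smul_mem hm hy', dich_le hm b hzy⟩
      · rintro z ⟨y', hy', hzy⟩
        exact ⟨b⁻¹ • y', dich_inv_smul_mem hm hy', dich_le hm b⁻¹ hzy⟩
    · obtain ⟨y2, hBA, -⟩ := dich_step hm hN hK hb ha y h2
      exfalso
      have h3 : x₀ ∈ comp a y2 := hBA (hAB (dich_self a x₀))
      have h4 := comp_eq_of_mem hm h3
      apply hwA
      rw [h4]
      exact hBA hw

private theorem dich_univ (hm : Mono G Ω) {a : G} {x y : Ω} (h : comp a x = Set.univ) :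
    comp a y = Set.univ := by
  have h1 : y ∈ comp a x := by rw [h]; exact Set.mem_univ y
  rw [comp_eq_of_mem hm h1, h]

/-- a cofinal element or its inverse moves all points up -/
private theorem dich_up (hm : Mono G Ω) {n : G} (x₀ : Ω) (hcof : ∀ x : Ω, comp n x = Set.univ)
    (hx₀ : x₀ < n • x₀) : ∀ x : Ω, x < n • x := by
  intro y
  by_contra hy
  rw [not_lt] at hy
  have h1 : ∀ j : ℕ, n ^ j • y ≤ y := by
    intro j
    induction j with
    | zero => simp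
    | succ j ih => rw [pow_succ, mul_smul]; exact (dich_le hm _ hy).trans ih
  have h2 : ∀ j : ℕ, x₀ ≤ n ^ j • x₀ := by
    intro j
    induction j with
    | zero => simp
    | succ j ih => rw [pow_succ, mul_smul]; exact ih.trans (dich_le hm _ hx₀.le)
  have h3 : y ∈ comp n x₀ := by rw [hcof]; exact Set.mem_univ y
  obtain ⟨⟨m, hm1⟩, -⟩ := h3
  have h4 : ∀ k : ℤ, n ^ k • x₀ ≤ y := by
    intro k
    rcases Int.le_total m k with hk | hk
    · obtain ⟨j, hj⟩ := Int.eq_ofNat_of_zero_le (sub_nonneg.2 hk)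
      have h5 : k = (j : ℤ) + m := by omega
      rw [h5, zpow_add, mul_smul, zpow_natCast]
      exact (dich_le hm _ hm1).trans (h1 j)
    · obtain ⟨j, hj⟩ := Int.eq_ofNat_of_zero_le (sub_nonneg.2 hk)
      have h5 : m = k + (j : ℤ) := by omega
      rw [h5, zpow_add, mul_smul, zpow_natCast] at hm1
      exact (dich_le hm _ (h2 j)).trans hm1
  -- `y` is the maximum
  have h5 : ∀ z : Ω, z ≤ y := by
    intro z
    have h6 : z ∈ comp n x₀ := by rw [hcof]; exact Set.mem_univ z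
    obtain ⟨-, k, hk⟩ := h6
    exact hk.trans (h4 k)
  -- every power fixes `y`
  have h6 : n • y = y := by
    apply le_antisymm hy
    have h7 := dich_le hm n (h5 (n⁻¹ • y))
    rwa [smul_inv_smul] at h7
  have h7 : x₀ ∈ comp n y := by rw [hcof]; exact Set.mem_univ x₀
  obtain ⟨⟨k, hk⟩, -⟩ := h7
  have h8 : ∀ k : ℤ, n ^ k • y = y := by
    intro k
    have h9 : n ∈ MulAction.stabilizer G y := h6
    exact (MulAction.stabilizer G y).zpow_mem h9 k
  rw [h8] at hk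
  have h9 : x₀ = y := le_antisymm (h5 x₀) hk
  rw [h9, h6] at hx₀
  exact lt_irrefl _ hx₀

/-- the main case of the dichotomy -/
private theorem dich_main (hm : Mono G Ω) (hprim : Prim G Ω) {N K : Subgroup G}
    (hNn : N.Normal) (hN : RelNFS N K) (hK : ∀ k ∈ K, ∀ x : Ω, k • x = x) {n : G} (hn : n ∈ N)
    (x₀ : Ω) (hcof : ∀ x : Ω, comp n x = Set.univ) (hup : ∀ x : Ω, x < n • x) {a : G}
    (ha : a ∈ N) (hna : comp a x₀ ≠ Set.univ) (x : Ω) : a • x = x := by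
  have hone : comp (1 : G) x₀ ≠ Set.univ := by
    intro h
    have h1 : n • x₀ ∈ comp (1 : G) x₀ := by rw [h]; exact Set.mem_univ _
    obtain ⟨-, k, hk⟩ := h1
    rw [one_zpow, one_smul] at hk
    exact absurd (hup x₀) (not_lt.2 hk)
  have hmul : ∀ b ∈ N, comp b x₀ ≠ Set.univ → ∀ c ∈ N, comp c x₀ ≠ Set.univ →
      comp (b * c) x₀ ≠ Set.univ := fun b hb hb' c hc hc' =>
    mul_short hm hN hK hb hc hn hup hcof x₀ hb' hc'
  have hconj : ∀ (g : G) (b : G), comp b x₀ ≠ Set.univ → comp (g * b * g⁻¹) x₀ ≠ Set.univ := by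
    intro g b hb h
    apply hb
    apply dich_univ hm (x := g⁻¹ • x₀)
    rw [Set.eq_univ_iff_forall]
    intro z
    have h1 : g • z ∈ comp (g * b * g⁻¹) x₀ := by rw [h]; exact Set.mem_univ _
    obtain ⟨⟨m, h2⟩, ⟨k, h3⟩⟩ := h1
    refine ⟨⟨m, ?_⟩, ⟨k, ?_⟩⟩
    · have h4 := dich_le hm g⁻¹ h2
      rw [inv_smul_smul, conj_zpow, ← mul_smul] at h4
      rw [← mul_smul]
      have h5 : g⁻¹ * (g * b ^ m * g⁻¹) = b ^ m * g⁻¹ := by group
      rwa [h5] at h4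
    · have h4 := dich_le hm g⁻¹ h3
      rw [inv_smul_smul, conj_zpow, ← mul_smul] at h4
      rw [← mul_smul]
      have h5 : g⁻¹ * (g * b ^ k * g⁻¹) = b ^ k * g⁻¹ := by group
      rwa [h5] at h4
  let J : Ω → Set Ω := fun x => {z | (∃ b ∈ N, comp b x₀ ≠ Set.univ ∧ b • x ≤ z) ∧
    ∃ c ∈ N, comp c x₀ ≠ Set.univ ∧ z ≤ c • x}
  have hsub : ∀ x y, y ∈ J x → J y ⊆ J x := by
    rintro x y ⟨⟨b, hb, hb', hby⟩, ⟨c, hc, hc', hcy⟩⟩ z ⟨⟨d, hd, hd', hdz⟩, ⟨e, he, he', hez⟩⟩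
    refine ⟨⟨d * b, N.mul_mem hd hb, hmul d hd hd' b hb hb', ?_⟩,
      ⟨e * c, N.mul_mem he hc, hmul e he he' c hc hc', ?_⟩⟩
    · rw [mul_smul]; exact (dich_le hm d hby).trans hdz
    · rw [mul_smul]; exact hez.trans (dich_le hm e hcy)
  have hsymm : ∀ x y, y ∈ J x → x ∈ J y := by
    rintro x y ⟨⟨b, hb, hb', hby⟩, ⟨c, hc, hc', hcy⟩⟩
    refine ⟨⟨c⁻¹, N.inv_mem hc, by rwa [dich_inv], ?_⟩, ⟨b⁻¹, N.inv_mem hb, by rwa [dich_inv], ?_⟩⟩
    · have := dich_le hm c⁻¹ hcy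
      rwa [inv_smul_smul] at this
    · have := dich_le hm b⁻¹ hby
      rwa [inv_smul_smul] at this
  have hJ := hprim J
    (fun x => ⟨⟨1, N.one_mem, hone, by rw [one_smul]⟩, ⟨1, N.one_mem, hone, by rw [one_smul]⟩⟩)
    (fun x y hy => Set.Subset.antisymm (hsub x y hy) (hsub y x (hsymm x y hy)))
    (fun x y z w hy hw hyz hzw => ⟨by
      obtain ⟨⟨b, hb, hb', hby⟩, -⟩ := hy
      exact ⟨b, hb, hb', hby.trans hyz⟩, by
      obtain ⟨-, ⟨c, hc, hc', hcw⟩⟩ := hw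
      exact ⟨c, hc, hc', hzw.trans hcw⟩⟩)
    (fun g x y hy => by
      obtain ⟨⟨b, hb, hb', hby⟩, ⟨c, hc, hc', hcy⟩⟩ := hy
      refine ⟨⟨g * b * g⁻¹, hNn.conj_mem b hb g, hconj g b hb', ?_⟩,
        ⟨g * c * g⁻¹, hNn.conj_mem c hc g, hconj g c hc', ?_⟩⟩
      · have h1 : (g * b * g⁻¹) • g • x = g • b • x := by
          simp only [← mul_smul]; congr 1; group
        rw [h1]; exact dich_le hm g hby
      · have h1 : (g * c * g⁻¹) • g • x = g • c • x := by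
          simp only [← mul_smul]; congr 1; group
        rw [h1]; exact dich_le hm g hcy)
  rcases hJ with hJ | hJ
  · have h1 : a • x ∈ J x := ⟨⟨a, ha, hna, le_rfl⟩, ⟨a, ha, hna, le_rfl⟩⟩
    rw [hJ x] at h1
    exact h1
  · exfalso
    have h1 : n • x₀ ∈ J x₀ := by rw [hJ]; exact Set.mem_univ _
    obtain ⟨-, ⟨c, hc, hc', hcx⟩⟩ := h1
    have h2 := (short hm hN hK hc hn hup hcof x₀ hc' x₀ (c • x₀)
      (dich_smul_mem hm (dich_self c x₀))).1
    exact absurd h2 (not_lt.2 hcx)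

/-- cofinal case: every element of `N` acts trivially or is cofinal -/
theorem dichotomy (hm : Mono G Ω) (hprim : Prim G Ω) {N K : Subgroup G} (hNn : N.Normal)
    (hN : RelNFS N K) (hK : ∀ k ∈ K, ∀ x : Ω, k • x = x) {n : G} (hn : n ∈ N)
    (x₀ : Ω) (hcof : comp n x₀ = Set.univ) :
    ∀ a ∈ N, (∀ x : Ω, a • x = x) ∨ (∀ x : Ω, comp a x = Set.univ) := by
  intro a ha
  by_cases hna : comp a x₀ = Set.univ
  · exact Or.inr (fun x => dich_univ hm hna)
  · left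
    have hcof' : ∀ x : Ω, comp n x = Set.univ := fun x => dich_univ hm hcof
    have hcof'' : ∀ x : Ω, comp n⁻¹ x = Set.univ := fun x => by rw [dich_inv]; exact hcof' x
    rcases lt_trichotomy x₀ (n • x₀) with h | h | h
    · exact dich_main hm hprim hNn hN hK hn x₀ hcof' (dich_up hm x₀ hcof' h) ha hna
    · -- one point
      intro x
      have h1 : ∀ k : ℤ, n ^ k • x₀ = x₀ := by
        intro k
        have h9 : n ∈ MulAction.stabilizer G x₀ := h.symm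
        exact (MulAction.stabilizer G x₀).zpow_mem h9 k
      have h2 : ∀ z : Ω, z = x₀ := by
        intro z
        have h3 : z ∈ comp n x₀ := by rw [hcof]; exact Set.mem_univ z
        obtain ⟨⟨m, h4⟩, ⟨k, h5⟩⟩ := h3
        rw [h1] at h4 h5
        exact le_antisymm h5 h4
      rw [h2 (a • x), h2 x]
    · have h1 : x₀ < n⁻¹ • x₀ := by
        have := hm n⁻¹ _ _ h
        rwa [inv_smul_smul] at this
      exact dich_main hm hprim hNn hN hK (N.inv_mem hn) x₀ hcof''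
        (dich_up hm x₀ hcof'' h1) ha hna

end Act

end Pool.Agent.IsoOrd
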