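import Pool.Agent.IsoOrd.Defs

/-!
# Hoelder's theorem

* `holder`: a conjugation invariant Archimedean total preorder on a group `N` is given by a
  homomorphism to the reals. Proof (no commutativity needed first): fix `c > 1` and let `v x` be the
  largest integer with `c ^ (v x) ≤ x`. If `x y ≤ y x` then `x ^ n y ^ n ≤ (x y) ^ n` and
  `(y x) ^ n ≤ y ^ n x ^ n`, so `v ((x y) ^ n)` differs by at most one from `v (x ^ n) + v (y ^ n)`; hence
  `t x = sup v (x ^ n) / n` is additive.
* `hom_unique`: if no `b ∈ N` has `0 < t b` take `l = 1` (both vanish). Otherwise fix `b` with `0 < t b`,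
  so `0 < s b`; for `a ∈ N` and integers `p, q > 0`: `p t b < q t a ↔ 0 < t (b^(-p) a^q) ↔ ... ↔ p s b < q s a`.
-/

set_option autoImplicit false

universe u

namespace Pool.Agent.IsoOrd

variable {G : Type*} [Group G]

section Pre

variable {H : Type*} [Group H] [Preorder H] [MulLeftMono H] [MulRightMono H]
  [MulLeftStrictMono H] [MulRightStrictMono H]

omit [MulLeftStrictMono H] [MulRightStrictMono H] in
private theorem holder_pow_mul_le {a b : H} (h : a * b ≤ b * a) (n : ℕ) :
    a ^ n * b ≤ b * a ^ n := by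
  induction n with
  | zero => simp
  | succ n ih =>
    calc a ^ (n + 1) * b = a ^ n * (a * b) := by rw [pow_succ, mul_assoc]
      _ ≤ a ^ n * (b * a) := by gcongr
      _ = (a ^ n * b) * a := by rw [mul_assoc]
      _ ≤ (b * a ^ n) * a := by gcongr
      _ = b * a ^ (n + 1) := by rw [pow_succ, mul_assoc]

omit [MulLeftStrictMono H] [MulRightStrictMono H] in
private theorem holder_mul_pow_le {a b : H} (h : a * b ≤ b * a) (n : ℕ) :
    a * b ^ n ≤ b ^ n * a := by
  induction n with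
  | zero => simp
  | succ n ih =>
    calc a * b ^ (n + 1) = (a * b ^ n) * b := by rw [pow_succ, mul_assoc]
      _ ≤ (b ^ n * a) * b := by gcongr
      _ = b ^ n * (a * b) := by rw [mul_assoc]
      _ ≤ b ^ n * (b * a) := by gcongr
      _ = b ^ (n + 1) * a := by rw [pow_succ, mul_assoc]

omit [MulLeftStrictMono H] [MulRightStrictMono H] in
private theorem holder_pow_le {a b : H} (h : a * b ≤ b * a) (n : ℕ) :
    a ^ n * b ^ n ≤ (a * b) ^ n := by
  induction n with
  | zero => simp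
  | succ n ih =>
    calc a ^ (n + 1) * b ^ (n + 1) = a * ((a ^ n * b) * b ^ n) := by
          rw [pow_succ', pow_succ']; simp only [mul_assoc]
      _ ≤ a * ((b * a ^ n) * b ^ n) :=
          mul_le_mul' le_rfl (mul_le_mul' (holder_pow_mul_le h n) le_rfl)
      _ = (a * b) * (a ^ n * b ^ n) := by simp only [mul_assoc]
      _ ≤ (a * b) * (a * b) ^ n := by gcongr
      _ = (a * b) ^ (n + 1) := by rw [pow_succ']

omit [MulLeftStrictMono H] [MulRightStrictMono H] in
private theorem holder_le_pow {a b : H} (h : a * b ≤ b * a) (n : ℕ) :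
    (b * a) ^ n ≤ b ^ n * a ^ n := by
  induction n with
  | zero => simp
  | succ n ih =>
    calc (b * a) ^ (n + 1) = (b * a) * (b * a) ^ n := by rw [pow_succ']
      _ ≤ (b * a) * (b ^ n * a ^ n) := by gcongr
      _ = b * ((a * b ^ n) * a ^ n) := by simp only [mul_assoc]
      _ ≤ b * ((b ^ n * a) * a ^ n) :=
          mul_le_mul' le_rfl (mul_le_mul' (holder_mul_pow_le h n) le_rfl)
      _ = b ^ (n + 1) * a ^ (n + 1) := by
          rw [pow_succ', pow_succ']; simp only [mul_assoc]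

private theorem holder_zpow_lt {c : H} (hc : 1 < c) {i j : ℤ} (hij : i < j) : c ^ i < c ^ j := by
  obtain ⟨n, hn⟩ := Int.le.dest hij.le
  have hn0 : n ≠ 0 := by rintro rfl; simp at hn; omega
  have h1 : (1 : H) < c ^ n := one_lt_pow' hc hn0
  calc c ^ i = c ^ i * 1 := (mul_one _).symm
    _ < c ^ i * c ^ n := by gcongr
    _ = c ^ j := by rw [← hn, zpow_add, zpow_natCast]

private theorem holder_zpow_le {c : H} (hc : 1 < c) {i j : ℤ} (hij : i ≤ j) : c ^ i ≤ c ^ j := by
  rcases hij.eq_or_lt with rfl | h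
  · exact le_refl _
  · exact (holder_zpow_lt hc h).le

private theorem holder_pre (htot : ∀ a b : H, a ≤ b ∨ b ≤ a)
    (harch : ∀ a b : H, 1 < a → 1 < b → ∃ n : ℕ, a < b ^ n) :
    ∃ t : H → ℝ, (∀ a b, t (a * b) = t a + t b) ∧ ∀ a, (0 < t a ↔ 1 < a) := by
  by_cases hc : ∃ c : H, 1 < c
  swap
  · refine ⟨fun _ => 0, fun _ _ => by simp, fun a => ?_⟩
    simp only [lt_irrefl, false_iff]
    exact fun h => hc ⟨a, h⟩
  obtain ⟨c, hc⟩ := hc
  have hnle : ∀ {a b : H}, ¬ a ≤ b → b < a := by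
    intro a b h
    rcases htot a b with h1 | h1
    · exact absurd h1 h
    · exact lt_iff_le_not_ge.mpr ⟨h1, h⟩
  -- upper bounds
  have hup : ∀ x : H, ∃ k : ℤ, x < c ^ k := by
    intro x
    by_cases hx : 1 < x
    · obtain ⟨n, hn⟩ := harch x c hx hc
      exact ⟨n, by rwa [zpow_natCast]⟩
    · have hx1 : x ≤ 1 := by
        by_contra h
        exact hx (hnle h)
      exact ⟨1, by rw [zpow_one]; exact lt_of_le_of_lt hx1 hc⟩
  have hdown : ∀ x : H, ∃ k : ℤ, c ^ k ≤ x := by
    intro x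
    obtain ⟨k, hk⟩ := hup x⁻¹
    refine ⟨-k, ?_⟩
    have h1 : x⁻¹ ≤ c ^ k := hk.le
    have h2 : c ^ (-k) * x⁻¹ ≤ c ^ (-k) * c ^ k := by gcongr
    have h3 : c ^ (-k) * x⁻¹ ≤ 1 := by
      rwa [← zpow_add, neg_add_cancel, zpow_zero] at h2
    have h4 : c ^ (-k) * x⁻¹ * x ≤ 1 * x := by gcongr
    simpa using h4
  have hv : ∀ x : H, ∃ p : ℤ, c ^ p ≤ x ∧ x < c ^ (p + 1) := by
    intro x
    obtain ⟨k, hk⟩ := hup x
    obtain ⟨p, hp1, hp2⟩ := Int.exists_greatest_of_bdd (P := fun z : ℤ => c ^ z ≤ x)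
      ⟨k, fun z hz => by
        by_contra hcon
        have h1 : c ^ k ≤ c ^ z := holder_zpow_le hc (by omega)
        exact absurd (lt_of_lt_of_le hk (h1.trans hz)) (lt_irrefl _)⟩ (hdown x)
    refine ⟨p, hp1, hnle ?_⟩
    intro h
    have := hp2 _ h
    omega
  choose v hv1 hv2 using hv
  have hvle : ∀ (x : H) (p : ℤ), c ^ p ≤ x → p ≤ v x := by
    intro x p hp
    by_contra hcon
    have h1 : c ^ (v x + 1) ≤ c ^ p := holder_zpow_le hc (by omega)
    exact absurd (lt_of_lt_of_le (hv2 x) (h1.trans hp)) (lt_irrefl _)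
  have hvlt : ∀ (x : H) (p : ℤ), x < c ^ p → v x < p := by
    intro x p hp
    by_contra hcon
    have h1 : c ^ p ≤ c ^ (v x) := holder_zpow_le hc (by omega)
    exact absurd (lt_of_lt_of_le hp (h1.trans (hv1 x))) (lt_irrefl _)
  -- behaviour under powers
  have hpow1 : ∀ (x : H) (n : ℕ), (n : ℤ) * v x ≤ v (x ^ n) := by
    intro x n
    apply hvle
    have h1 : (c ^ (v x)) ^ n ≤ x ^ n := pow_le_pow_left' (hv1 x) n
    rwa [← zpow_natCast, ← zpow_mul, mul_comm] at h1
  have hpow2 : ∀ (x : H) (n : ℕ), n ≠ 0 → v (x ^ n) < (n : ℤ) * (v x + 1) := by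
    intro x n hn
    apply hvlt
    have h1 : x ^ n < (c ^ (v x + 1)) ^ n := pow_lt_pow_left' hn (hv2 x)
    rwa [← zpow_natCast (c ^ (v x + 1)), ← zpow_mul, mul_comm (v x + 1)] at h1
  -- the basic inequality
  have hkey : ∀ (x : H) (n m : ℕ), 0 < n → 0 < m →
      (v (x ^ n) : ℝ) / n ≤ ((v (x ^ m) : ℝ) + 1) / m := by
    intro x n m hn hm
    have h1 : (m : ℤ) * v (x ^ n) ≤ v (x ^ (n * m)) := by
      have := hpow1 (x ^ n) m
      rwa [← pow_mul] at this
    have h2 : v (x ^ (n * m)) < (n : ℤ) * (v (x ^ m) + 1) := by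
      have := hpow2 (x ^ m) n (by omega)
      rwa [← pow_mul, mul_comm m n] at this
    have h3 : (m : ℤ) * v (x ^ n) ≤ (n : ℤ) * (v (x ^ m) + 1) := (h1.trans h2.le)
    have h4 : (m : ℝ) * v (x ^ n) ≤ (n : ℝ) * (v (x ^ m) + 1) := by exact_mod_cast h3
    have hn' : (0 : ℝ) < n := by exact_mod_cast hn
    have hm' : (0 : ℝ) < m := by exact_mod_cast hm
    rw [div_le_div_iff₀ hn' hm']
    linarith
  let t : H → ℝ := fun x => ⨆ n : ℕ, (v (x ^ (n + 1)) : ℝ) / ((n + 1 : ℕ) : ℝ)
  have hbdd : ∀ x : H, BddAbove (Set.range fun n : ℕ =>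
      (v (x ^ (n + 1)) : ℝ) / ((n + 1 : ℕ) : ℝ)) := by
    intro x
    refine ⟨((v (x ^ 1) : ℝ) + 1) / (1 : ℕ), ?_⟩
    rintro _ ⟨n, rfl⟩
    exact hkey x (n + 1) 1 (by omega) (by omega)
  have ht1 : ∀ (x : H) (n : ℕ), 0 < n → (v (x ^ n) : ℝ) / n ≤ t x := by
    intro x n hn
    obtain ⟨m, rfl⟩ := Nat.exists_eq_succ_of_ne_zero hn.ne'
    exact le_ciSup (hbdd x) m
  have ht2 : ∀ (x : H) (n : ℕ), 0 < n → t x ≤ ((v (x ^ n) : ℝ) + 1) / n := by
    intro x n hn
    exact ciSup_le fun m => hkey x (m + 1) n (by omega) hn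
  have ht1' : ∀ (x : H) (n : ℕ), 0 < n → (v (x ^ n) : ℝ) ≤ n * t x := by
    intro x n hn
    have hn' : (0 : ℝ) < n := by exact_mod_cast hn
    have := ht1 x n hn
    rw [div_le_iff₀ hn'] at this
    linarith
  have ht2' : ∀ (x : H) (n : ℕ), 0 < n → n * t x ≤ (v (x ^ n) : ℝ) + 1 := by
    intro x n hn
    have hn' : (0 : ℝ) < n := by exact_mod_cast hn
    have := ht2 x n hn
    rw [le_div_iff₀ hn'] at this
    linarith
  -- `v` on powers of products
  have hlow : ∀ (x y : H) (z : H), x * y ≤ z → v x + v y ≤ v z := by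
    intro x y z h
    apply hvle
    rw [zpow_add]
    exact (mul_le_mul' (hv1 x) (hv1 y)).trans h
  have hhigh : ∀ (x y : H) (z : H), z ≤ x * y → v z ≤ v x + v y + 1 := by
    intro x y z h
    have h1 : v z < (v x + 1) + (v y + 1) := by
      apply hvlt
      rw [zpow_add]
      exact lt_of_le_of_lt h (mul_lt_mul_of_lt_of_lt (hv2 x) (hv2 y))
    omega
  have hprod : ∀ (x y : H) (n : ℕ), v (x ^ n) + v (y ^ n) ≤ v ((x * y) ^ n) ∧
      v ((x * y) ^ n) ≤ v (x ^ n) + v (y ^ n) + 1 := by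
    intro x y n
    rcases htot (x * y) (y * x) with h | h
    · constructor
      · exact hlow _ _ _ (holder_pow_le h n)
      · have h1 : (x * y) ^ n ≤ y ^ n * x ^ n :=
          (pow_le_pow_left' h n).trans (holder_le_pow h n)
        have := hhigh _ _ _ h1
        omega
    · constructor
      · have h1 : y ^ n * x ^ n ≤ (x * y) ^ n :=
          (holder_pow_le h n).trans (pow_le_pow_left' h n)
        have := hlow _ _ _ h1
        omega
      · exact hhigh _ _ _ (holder_le_pow h n)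
  refine ⟨t, ?_, ?_⟩
  · intro a b
    have hb : ∀ n : ℕ, 0 < n → (n : ℝ) * |t (a * b) - (t a + t b)| ≤ 4 := by
      intro n hn
      obtain ⟨h1, h2⟩ := hprod a b n
      have h1' : (v (a ^ n) : ℝ) + v (b ^ n) ≤ v ((a * b) ^ n) := by exact_mod_cast h1
      have h2' : (v ((a * b) ^ n) : ℝ) ≤ v (a ^ n) + v (b ^ n) + 1 := by exact_mod_cast h2
      have e1 := ht1' a n hn
      have e2 := ht2' a n hn
      have e3 := ht1' b n hn
      have e4 := ht2' b n hn
      have e5 := ht1' (a * b) n hn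
      have e6 := ht2' (a * b) n hn
      have hn' : (0 : ℝ) < n := by exact_mod_cast hn
      have habs : (n : ℝ) * |t (a * b) - (t a + t b)| =
          |(n : ℝ) * (t (a * b) - (t a + t b))| := by
        rw [abs_mul, abs_of_pos hn']
      rw [habs, abs_le]
      constructor <;> nlinarith
    by_contra hne
    have hpos : 0 < |t (a * b) - (t a + t b)| := abs_pos.mpr (sub_ne_zero.mpr hne)
    obtain ⟨n, hn⟩ := exists_nat_gt (4 / |t (a * b) - (t a + t b)|)
    have hn0 : 0 < n := by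
      have : (0 : ℝ) < n := lt_of_le_of_lt (by positivity) hn
      exact_mod_cast this
    have := hb n hn0
    rw [div_lt_iff₀ hpos] at hn
    linarith
  · intro a
    constructor
    · intro h
      by_contra hcon
      have ha1 : a ≤ 1 := by
        by_contra h'
        exact hcon (hnle h')
      have : t a ≤ 0 := by
        refine ciSup_le fun n => ?_
        have h1 : a ^ (n + 1) ≤ 1 := by
          have := pow_le_pow_left' ha1 (n + 1)
          rwa [one_pow] at this
        have h2 : v (a ^ (n + 1)) < 1 := by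
          apply hvlt
          rw [zpow_one]
          exact lt_of_le_of_lt h1 hc
        have h3 : (v (a ^ (n + 1)) : ℝ) ≤ 0 := by
          exact_mod_cast (by omega : v (a ^ (n + 1)) ≤ 0)
        exact div_nonpos_of_nonpos_of_nonneg h3 (by positivity)
      linarith
    · intro h
      obtain ⟨n, hn⟩ := harch c a hc h
      have hn0 : 0 < n := by
        rcases Nat.eq_zero_or_pos n with h0 | h0
        · subst h0
          rw [pow_zero] at hn
          exact absurd (hc.trans hn) (lt_irrefl _)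
        · exact h0
      have h1 : 1 ≤ v (a ^ n) := by
        apply hvle
        rw [zpow_one]
        exact hn.le
      have h2 : (1 : ℝ) ≤ v (a ^ n) := by exact_mod_cast h1
      have h3 := ht1 a n hn0
      have hn' : (0 : ℝ) < n := by exact_mod_cast hn0
      have h4 : 0 < (v (a ^ n) : ℝ) / n := by positivity
      linarith

end Pre

/-- Hoelder's theorem: a conjugation invariant Archimedean order is given by a homomorphism to the
reals -/
theorem holder (N : Subgroup G) (T : Set G) (hT : ∀ a ∈ T, a ∈ N)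
    (hmul : ∀ a ∈ T, ∀ b ∈ T, a * b ∈ T) (hinv : ∀ a ∈ T, a⁻¹ ∉ T)
    (hconj : ∀ a ∈ T, ∀ b ∈ N, b * a * b⁻¹ ∈ T)
    (hker : ∀ a ∈ N, a ∉ T → a⁻¹ ∉ T → ∀ b ∈ T, a * b ∈ T)
    (harch : ∀ a ∈ T, ∀ b ∈ T, ∃ n : ℕ, a⁻¹ * b ^ n ∈ T) :
    ∃ t : G → ℝ, (∀ a ∈ N, ∀ b ∈ N, t (a * b) = t a + t b) ∧ ∀ a ∈ N, (0 < t a ↔ a ∈ T) := by
  classical
  have h1T : (1 : G) ∉ T := fun h => hinv 1 h (by rwa [inv_one])
  -- the preorder on `N`
  have hconj' : ∀ a, a ∉ T → ∀ b ∈ N, b * a * b⁻¹ ∉ T := by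
    intro a ha b hb h
    apply ha
    have := hconj _ h b⁻¹ (N.inv_mem hb)
    simpa [mul_assoc] using this
  have hker' : ∀ a ∈ N, a ∉ T → a⁻¹ ∉ T → ∀ b ∈ T, b * a ∈ T := by
    intro a ha h1 h2 b hb
    have h3 : b * a * b⁻¹ ∉ T := hconj' a h1 b (hT b hb)
    have h4 : (b * a * b⁻¹)⁻¹ ∉ T := by
      have : (b * a * b⁻¹)⁻¹ = b * a⁻¹ * b⁻¹ := by group
      rw [this]
      exact hconj' _ h2 b (hT b hb)
    have h5 := hker (b * a * b⁻¹) (N.mul_mem (N.mul_mem (hT b hb) ha) (N.inv_mem (hT b hb))) h3 h4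
      b hb
    have : b * a * b⁻¹ * b = b * a := by group
    rwa [this] at h5
  -- `a ≤ b` iff `b⁻¹ a ∉ T`
  have hle_trans : ∀ a b c : G, a ∈ N → b ∈ N → c ∈ N → b⁻¹ * a ∉ T → c⁻¹ * b ∉ T →
      c⁻¹ * a ∉ T := by
    intro a b c ha hb hc h1 h2 h3
    -- `c < a`; `a ≤ b`; so `c < b`
    have hk : a⁻¹ * b ∈ N := N.mul_mem (N.inv_mem ha) hb
    have e : (a⁻¹ * b)⁻¹ = b⁻¹ * a := by group
    have e2 : c⁻¹ * a * (a⁻¹ * b) = c⁻¹ * b := by group
    apply h2
    rw [← e2]
    by_cases h4 : a⁻¹ * b ∈ T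
    · exact hmul _ h3 _ h4
    · exact hker' _ hk h4 (by rwa [e]) _ h3
  let preo : Preorder N :=
    { le := fun a b => (b : G)⁻¹ * (a : G) ∉ T
      lt := fun a b => (a : G)⁻¹ * (b : G) ∈ T
      le_refl := fun a => by simpa using h1T
      le_trans := fun a b c h1 h2 => hle_trans a b c a.2 b.2 c.2 h1 h2
      lt_iff_le_not_ge := fun a b => by
        constructor
        · intro h
          refine ⟨?_, ?_⟩
          · have := hinv _ h
            have e : ((a : G)⁻¹ * (b : G))⁻¹ = (b : G)⁻¹ * (a : G) := by group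
            rwa [e] at this
          · intro h'
            exact h' h
        · rintro ⟨_, h2⟩
          exact not_not.mp h2 }
  let _ : Preorder N := preo
  have hltdef : ∀ a b : N, a < b ↔ (a : G)⁻¹ * (b : G) ∈ T := fun a b => Iff.rfl
  have hledef : ∀ a b : N, a ≤ b ↔ (b : G)⁻¹ * (a : G) ∉ T := fun a b => Iff.rfl
  have hlm : ∀ a b c : N, a ≤ b → c * a ≤ c * b := by
    intro a b c h
    rw [hledef] at h ⊢
    have e : ((c * b : N) : G)⁻¹ * ((c * a : N) : G) = (b : G)⁻¹ * (a : G) := by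
      push_cast; group
    rwa [e]
  have hrm : ∀ a b c : N, a ≤ b → a * c ≤ b * c := by
    intro a b c h
    rw [hledef] at h ⊢
    have e : ((b * c : N) : G)⁻¹ * ((a * c : N) : G) = (c : G)⁻¹ * ((b : G)⁻¹ * (a : G)) *
        ((c : G)⁻¹)⁻¹ := by
      push_cast; group
    rw [e]
    exact hconj' _ h _ (N.inv_mem c.2)
  have hlms : ∀ a b c : N, a < b → c * a < c * b := by
    intro a b c h
    rw [hltdef] at h ⊢
    have e : ((c * a : N) : G)⁻¹ * ((c * b : N) : G) = (a : G)⁻¹ * (b : G) := by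
      push_cast; group
    rwa [e]
  have hrms : ∀ a b c : N, a < b → a * c < b * c := by
    intro a b c h
    rw [hltdef] at h ⊢
    have e : ((a * c : N) : G)⁻¹ * ((b * c : N) : G) = (c : G)⁻¹ * ((a : G)⁻¹ * (b : G)) *
        ((c : G)⁻¹)⁻¹ := by
      push_cast; group
    rw [e]
    exact hconj _ h _ (N.inv_mem c.2)
  have : MulLeftMono N := ⟨fun c a b h => hlm a b c h⟩
  have : MulRightMono N := ⟨fun c a b h => hrm a b c h⟩
  have : MulLeftStrictMono N := ⟨fun c a b h => hlms a b c h⟩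
  have : MulRightStrictMono N := ⟨fun c a b h => hrms a b c h⟩
  have htot : ∀ a b : N, a ≤ b ∨ b ≤ a := by
    intro a b
    by_contra hcon
    push Not at hcon
    obtain ⟨h1, h2⟩ := hcon
    rw [hledef, not_not] at h1 h2
    have := hinv _ h1
    have e : ((b : G)⁻¹ * (a : G))⁻¹ = (a : G)⁻¹ * (b : G) := by group
    rw [e] at this
    exact this h2
  have hone : ∀ a : N, 1 < a ↔ (a : G) ∈ T := by
    intro a
    rw [hltdef]
    simp
  have harch' : ∀ a b : N, 1 < a → 1 < b → ∃ n : ℕ, a < b ^ n := by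
    intro a b ha hb
    obtain ⟨n, hn⟩ := harch a ((hone a).mp ha) b ((hone b).mp hb)
    exact ⟨n, by rw [hltdef]; simpa using hn⟩
  obtain ⟨t, ht1, ht2⟩ := holder_pre htot harch'
  refine ⟨fun g => if h : g ∈ N then t ⟨g, h⟩ else 0, ?_, ?_⟩
  · intro a ha b hb
    simp only [ha, hb, N.mul_mem ha hb, dif_pos]
    have := ht1 ⟨a, ha⟩ ⟨b, hb⟩
    simpa using this
  · intro a ha
    simp only [ha, dif_pos]
    rw [ht2, hone]

/-- two homomorphisms to the reals with the same positive elements are proportional -/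
theorem hom_unique (N : Subgroup G) (t s : G → ℝ) (ht : ∀ a ∈ N, ∀ b ∈ N, t (a * b) = t a + t b)
    (hs : ∀ a ∈ N, ∀ b ∈ N, s (a * b) = s a + s b) (h : ∀ a ∈ N, (0 < t a ↔ 0 < s a)) :
    ∃ l : ℝ, 0 < l ∧ ∀ a ∈ N, s a = l * t a := by
  let tt : Additive N →+ ℝ := AddMonoidHom.mk' (fun a => t ((Additive.toMul a : N) : G))
    (fun a b => ht _ (Additive.toMul a).2 _ (Additive.toMul b).2)
  let ss : Additive N →+ ℝ := AddMonoidHom.mk' (fun a => s ((Additive.toMul a : N) : G))
    (fun a b => hs _ (Additive.toMul a).2 _ (Additive.toMul b).2)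
  have key : ∀ x : Additive N, 0 < tt x ↔ 0 < ss x := fun x => h _ (Additive.toMul x).2
  suffices hsuff : ∃ l : ℝ, 0 < l ∧ ∀ x : Additive N, ss x = l * tt x by
    obtain ⟨l, hl, hl'⟩ := hsuff
    exact ⟨l, hl, fun a ha => hl' (Additive.ofMul ⟨a, ha⟩)⟩
  by_cases hb : ∃ b : Additive N, 0 < tt b
  · obtain ⟨b, hb⟩ := hb
    have hb' : 0 < ss b := (key b).mp hb
    refine ⟨ss b / tt b, by positivity, ?_⟩
    -- comparison of the slopes
    have hslope : ∀ (a : Additive N) (p q : ℤ), (0 < (q : ℝ) * tt a - p * tt b ↔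
        0 < (q : ℝ) * ss a - p * ss b) := by
      intro a p q
      have h1 := key (q • a - p • b)
      rw [map_sub, map_sub, map_zsmul, map_zsmul, map_zsmul, map_zsmul] at h1
      simpa [zsmul_eq_mul] using h1
    intro a
    by_contra hne
    have hne' : tt a / tt b ≠ ss a / ss b := by
      intro h'
      apply hne
      rw [div_eq_div_iff hb.ne' hb'.ne'] at h'
      field_simp
      linarith
    rcases lt_or_gt_of_ne hne' with hlt | hlt
    · obtain ⟨r, hr1, hr2⟩ := exists_rat_btwn hlt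
      have hq : (0 : ℝ) < r.den := by exact_mod_cast r.den_pos
      have hr : (r : ℝ) = (r.num : ℝ) / (r.den : ℝ) := by
        exact_mod_cast (Rat.num_div_den r).symm
      rw [hr, div_lt_div_iff₀ hb hq] at hr1
      rw [hr, div_lt_div_iff₀ hq hb'] at hr2
      have h1 := hslope a r.num (r.den : ℤ)
      push_cast at h1
      have h2 : 0 < (r.den : ℝ) * ss a - r.num * ss b := by linarith
      have h3 := h1.mpr h2
      linarith
    · obtain ⟨r, hr1, hr2⟩ := exists_rat_btwn hlt
      have hq : (0 : ℝ) < r.den := by exact_mod_cast r.den_pos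
      have hr : (r : ℝ) = (r.num : ℝ) / (r.den : ℝ) := by
        exact_mod_cast (Rat.num_div_den r).symm
      rw [hr, div_lt_div_iff₀ hb' hq] at hr1
      rw [hr, div_lt_div_iff₀ hq hb] at hr2
      have h1 := hslope a r.num (r.den : ℤ)
      push_cast at h1
      have h2 : 0 < (r.den : ℝ) * tt a - r.num * tt b := by linarith
      have h3 := h1.mp h2
      linarith
  · push Not at hb
    have h0 : ∀ x, tt x = 0 := by
      intro x
      have h1 := hb x
      have h2 := hb (-x)
      rw [map_neg] at h2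
      linarith
    have h0' : ∀ x, ss x = 0 := by
      intro x
      have h1 : ¬ 0 < ss x := fun h' => by
        have := (key x).mpr h'
        rw [h0] at this
        exact lt_irrefl _ this
      have h2 : ¬ 0 < ss (-x) := fun h' => by
        have := (key (-x)).mpr h'
        rw [h0] at this
        exact lt_irrefl _ this
      rw [map_neg] at h2
      push Not at h1 h2
      linarith
    exact ⟨1, one_pos, fun x => by rw [h0, h0', mul_zero]⟩

end Pool.Agent.IsoOrd
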