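import Pool.Agent.IsoOrd.Cross
import Pool.Agent.IsoOrd.Holder

/-!
# Cofinal case: the translation homomorphism

* `exists_trans_hom`: `T = {a ∈ N | o < a o}`. If `comp a x = univ` for all `x` and `o < a o` then
  `x < a x` for all `x` (if `a x ≤ x` then `a^k x ≤ x` for all `k ≥ 0`, non increasing and unbounded below,
  while `a^k o ≥ o`; take `m` with `o ≤ a^m x`). Apply `holder` with this `T`.
* `discrete_or_dense`: `AddSubgroup.dense_or_cyclic` for the range of `t` on `N`.
* `central_ext`: let `w₁ ≠ w₂` be words with `(ev w₁)⁻¹ (ev w₂) ∈ N`. For a letter `i` let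
  `u = w₁ ++ [i]`, `v = w₂ ++ [i]`. Modulo `K` `ev v = ev u * z` with `z ∈ N` central, so
  `ev (u ++ v) = ev (v ++ u)` modulo `K`. It remains to find a letter with `u ++ v ≠ v ++ u`: if
  `w₁, w₂` have the same length any letter works; if `w₁` is shorter, `u ++ v = v ++ u` gives
  `w₂ = w₁ ++ w₃` and the first letter of `w₃` is `i`, which can not hold for both letters.
-/

set_option autoImplicit false

universe u

namespace Pool.Agent.IsoOrd

variable {G : Type*} [Group G]

/-- discrete or dense -/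
theorem discrete_or_dense {N : Subgroup G} (t : G → ℝ)
    (ht : ∀ a ∈ N, ∀ b ∈ N, t (a * b) = t a + t b) :
    (∃ n ∈ N, ∀ a ∈ N, ∃ k : ℤ, t a = k * t n) ∨ ∀ r s : ℝ, r < s → ∃ a ∈ N, r < t a ∧ t a < s := by
  have h1 : t 1 = 0 := by
    have h := ht 1 N.one_mem 1 N.one_mem
    rw [one_mul] at h
    linarith
  have hinv : ∀ a ∈ N, t a⁻¹ = - t a := by
    intro a ha
    have h := ht a ha a⁻¹ (N.inv_mem ha)
    rw [mul_inv_cancel, h1] at h
    linarith
  let H : AddSubgroup ℝ :=
    { carrier := {r | ∃ a ∈ N, t a = r}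
      add_mem' := by
        rintro r s ⟨a, ha, rfl⟩ ⟨b, hb, rfl⟩
        exact ⟨a * b, N.mul_mem ha hb, ht a ha b hb⟩
      zero_mem' := ⟨1, N.one_mem, h1⟩
      neg_mem' := by
        rintro r ⟨a, ha, rfl⟩
        exact ⟨a⁻¹, N.inv_mem ha, hinv a ha⟩ }
  have hmem : ∀ r : ℝ, r ∈ H ↔ ∃ a ∈ N, t a = r := fun r => Iff.rfl
  rcases AddSubgroup.dense_or_cyclic H with hd | ⟨c, hc⟩
  · right
    intro r s hrs
    obtain ⟨x, hx, hx1⟩ := hd.exists_between hrs
    obtain ⟨a, ha, hax⟩ := (hmem x).1 hx
    exact ⟨a, ha, by rw [hax]; exact hx1.1, by rw [hax]; exact hx1.2⟩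
  · left
    have hcH : c ∈ H := by
      rw [hc]
      exact AddSubgroup.mem_closure_singleton_self c
    obtain ⟨n, hn, hnc⟩ := (hmem c).1 hcH
    refine ⟨n, hn, fun a ha => ?_⟩
    have haH : t a ∈ H := (hmem _).2 ⟨a, ha, rfl⟩
    rw [hc, AddSubgroup.mem_closure_singleton] at haH
    obtain ⟨k, hk⟩ := haH
    refine ⟨k, ?_⟩
    rw [hnc, ← hk, zsmul_eq_mul]

private theorem transHom_word {w₁ w₂ : List Bool} (hw : w₁ ≠ w₂) :
    ∃ i : Bool, (w₁ ++ [i]) ++ (w₂ ++ [i]) ≠ (w₂ ++ [i]) ++ (w₁ ++ [i]) := by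
  by_contra hcon
  push Not at hcon
  rcases lt_trichotomy w₁.length w₂.length with hl | hl | hl
  · have key : ∀ i : Bool, w₂[w₁.length]? = some i := by
      intro i
      have h := congrArg (fun l : List Bool => l[w₁.length]?) (hcon i)
      simp only [List.append_assoc] at h
      rw [List.getElem?_append_right (le_refl _), List.getElem?_append_left hl] at h
      simpa using h.symm
    have h1 := key true
    rw [key false] at h1
    simp at h1
  · have h := List.append_inj (hcon true) (by simp [hl])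
    exact hw (List.append_cancel_right h.1)
  · have key : ∀ i : Bool, w₁[w₂.length]? = some i := by
      intro i
      have h := congrArg (fun l : List Bool => l[w₂.length]?) (hcon i).symm
      simp only [List.append_assoc] at h
      rw [List.getElem?_append_right (le_refl _), List.getElem?_append_left hl] at h
      simpa using h.symm
    have h1 := key true
    rw [key false] at h1
    simp at h1

/-- central extensions: if `N/K` is central in `G/K` and `N₂/N` has no free subsemigroup, neither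
has `N₂/K` -/
theorem central_ext {N K N₂ : Subgroup G} (hK : K.Normal)
    (hcent : ∀ g : G, ∀ n ∈ N, g * n * g⁻¹ * n⁻¹ ∈ K) (h : RelNFS N₂ N) : RelNFS N₂ K := by
  intro a ha b hb
  obtain ⟨w₁, w₂, hw, hz⟩ := h a ha b hb
  obtain ⟨i, hi⟩ := transHom_word hw
  refine ⟨_, _, hi, ?_⟩
  have hev : ∀ u v : List Bool, ev a b (u ++ v) = ev a b u * ev a b v := by
    intro u v
    simp [ev]
  set e₁ : G := ev a b w₁ with he₁
  set z : G := e₁⁻¹ * ev a b w₂ with hzdef
  have he₂ : ev a b w₂ = e₁ * z := by rw [hzdef, mul_inv_cancel_left]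
  set c : G := ev a b [i] with hcdef
  simp only [hev]
  rw [← he₁, he₂, ← hcdef]
  have := hK
  have hcomm : ∀ g : G, (QuotientGroup.mk' K g) * (QuotientGroup.mk' K z) =
      (QuotientGroup.mk' K z) * (QuotientGroup.mk' K g) := by
    intro g
    have h1 := hcent g z hz
    have h2 : QuotientGroup.mk' K (g * z * g⁻¹ * z⁻¹) = 1 := by
      rw [← MonoidHom.mem_ker, QuotientGroup.ker_mk']
      exact h1
    rw [map_mul, map_mul, map_mul, map_inv, map_inv, mul_inv_eq_one, mul_inv_eq_iff_eq_mul] at h2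
    exact h2
  have hfin : QuotientGroup.mk' K ((e₁ * c * (e₁ * z * c))⁻¹ * (e₁ * z * c * (e₁ * c))) = 1 := by
    rw [map_mul, map_inv, inv_mul_eq_one]
    simp only [map_mul]
    have h1 := hcomm e₁
    have h2 := hcomm c
    generalize QuotientGroup.mk' K e₁ = E at *
    generalize QuotientGroup.mk' K c = C at *
    generalize QuotientGroup.mk' K z = Z at *
    calc E * C * (E * Z * C) = E * C * ((E * Z) * C) := by rw []
      _ = E * C * ((Z * E) * C) := by rw [h1]
      _ = E * (C * Z) * (E * C) := by simp only [mul_assoc]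
      _ = E * (Z * C) * (E * C) := by rw [h2]
      _ = E * Z * C * (E * C) := by simp only [mul_assoc]
  rw [← MonoidHom.mem_ker, QuotientGroup.ker_mk'] at hfin
  exact hfin

section Act

variable {Ω : Type*} [LinearOrder Ω] [MulAction G Ω]

private theorem transHom_le (hm : Mono G Ω) (g : G) {x y : Ω} (h : x ≤ y) : g • x ≤ g • y := by
  rcases h.lt_or_eq with h | h
  · exact (hm g x y h).le
  · rw [h]

private theorem transHom_nonincr (hm : Mono G Ω) {a : G} {x : Ω} (h : a • x ≤ x) (k : ℕ) (m : ℤ) :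
    a ^ (m + k) • x ≤ a ^ m • x := by
  induction k with
  | zero => simp
  | succ k ih =>
    refine le_trans ?_ ih
    have h1 : a ^ (m + ((k + 1 : ℕ) : ℤ)) • x = a ^ (m + (k : ℤ)) • (a • x) := by
      rw [← mul_smul, ← zpow_add_one]
      congr 2
      push_cast
      ring
    rw [h1]
    exact transHom_le hm _ h

private theorem transHom_nondecr (hm : Mono G Ω) {a : G} {x : Ω} (h : x ≤ a • x) (k : ℕ) (m : ℤ) :
    a ^ m • x ≤ a ^ (m + k) • x := by
  induction k with
  | zero => simp
  | succ k ih =>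
    refine le_trans ih ?_
    have h1 : a ^ (m + ((k + 1 : ℕ) : ℤ)) • x = a ^ (m + (k : ℤ)) • (a • x) := by
      rw [← mul_smul, ← zpow_add_one]
      congr 2
      push_cast
      ring
    rw [h1]
    exact transHom_le hm _ h

private theorem transHom_all (hm : Mono G Ω) {a : G}
    (hd : (∀ x : Ω, a • x = x) ∨ (∀ x : Ω, comp a x = Set.univ)) {o : Ω} (ho : o < a • o) (x : Ω) :
    x < a • x := by
  rcases hd with hd | hd
  · rw [hd o] at ho
    exact absurd ho (lt_irrefl _)
  · by_contra hcon
    push Not at hcon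
    have h1 : o ∈ comp a x := by rw [hd]; trivial
    have h2 : a⁻¹ • o ∈ comp a x := by rw [hd]; trivial
    obtain ⟨m, hm1⟩ := h1.2
    obtain ⟨p, hp⟩ := h2.1
    have h3 : a⁻¹ • o < o := by
      have := hm a⁻¹ _ _ ho
      rwa [← mul_smul, inv_mul_cancel, one_smul] at this
    -- a natural number `k` with `p ≤ m + k`
    obtain ⟨k, hk⟩ : ∃ k : ℕ, p ≤ m + k := ⟨(p - m).toNat, by
      have := Int.self_le_toNat (p - m)
      linarith⟩
    have h4 : o ≤ a ^ (k : ℤ) • o := by
      have := transHom_nondecr hm ho.le k 0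
      rwa [zpow_zero, one_smul, zero_add] at this
    have h5 : a ^ (k : ℤ) • o ≤ a ^ (m + (k : ℤ)) • x := by
      have := transHom_le hm (a ^ (k : ℤ)) hm1
      rwa [← mul_smul, ← zpow_add, add_comm (k : ℤ) m] at this
    have h6 : a ^ (m + (k : ℤ)) • x ≤ a ^ p • x := by
      obtain ⟨j, hj⟩ := Int.eq_ofNat_of_zero_le (sub_nonneg.2 hk)
      have := transHom_nonincr hm hcon j p
      have h7 : p + (j : ℤ) = m + (k : ℤ) := by
        rw [← hj]
        ring
      rwa [h7] at this
    exact absurd (h4.trans (h5.trans (h6.trans hp))) (not_le.2 h3)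

/-- the translation homomorphism -/
theorem exists_trans_hom (hm : Mono G Ω) {N : Subgroup G} (o : Ω)
    (hdich : ∀ a ∈ N, (∀ x : Ω, a • x = x) ∨ (∀ x : Ω, comp a x = Set.univ)) :
    ∃ t : G → ℝ, (∀ a ∈ N, ∀ b ∈ N, t (a * b) = t a + t b) ∧
      ∀ a ∈ N, ∀ x : Ω, (0 < t a ↔ x < a • x) := by
  have hinvlt : ∀ a : G, o < a • o → a⁻¹ • o < o := by
    intro a ha
    have := hm a⁻¹ _ _ ha
    rwa [← mul_smul, inv_mul_cancel, one_smul] at this
  obtain ⟨t, ht, hpos⟩ := holder N {a | a ∈ N ∧ o < a • o} (fun a ha => ha.1)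
    (fun a ha b hb => ⟨N.mul_mem ha.1 hb.1, by
      rw [mul_smul]
      exact hb.2.trans (transHom_all hm (hdich a ha.1) ha.2 _)⟩)
    (fun a ha hcon => absurd (hinvlt a ha.2) (not_lt.2 hcon.2.le))
    (fun a ha b hb => ⟨N.mul_mem (N.mul_mem hb ha.1) (N.inv_mem hb), by
      have h1 := hm b _ _ (transHom_all hm (hdich a ha.1) ha.2 (b⁻¹ • o))
      rwa [← mul_smul, mul_inv_cancel, one_smul, ← mul_smul, ← mul_smul] at h1⟩)
    (fun a ha hn1 hn2 b hb => ⟨N.mul_mem ha hb.1, by
      have h1 : a • o = o := by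
        rcases lt_trichotomy o (a • o) with h | h | h
        · exact absurd ⟨ha, h⟩ hn1
        · exact h.symm
        · exfalso
          refine hn2 ⟨N.inv_mem ha, ?_⟩
          have := hm a⁻¹ _ _ h
          rwa [← mul_smul, inv_mul_cancel, one_smul] at this
      rcases hdich a ha with h2 | h2
      · rw [mul_smul, h2]
        exact hb.2
      · exfalso
        have h3 : b • o ∈ comp a o := by rw [h2]; trivial
        obtain ⟨n, hn⟩ := h3.2
        have h4 : a ^ n • o = o := by
          have h5 : a ∈ MulAction.stabilizer G o := h1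
          exact (MulAction.stabilizer G o).zpow_mem h5 n
        rw [h4] at hn
        exact absurd hb.2 (not_lt.2 hn)⟩)
    (fun a ha b hb => by
      have h1 : a • o ∈ comp b o := by
        rcases hdich b hb.1 with h2 | h2
        · exact absurd hb.2 (by rw [h2]; exact lt_irrefl _)
        · rw [h2]; trivial
      obtain ⟨n, hn⟩ := h1.2
      refine ⟨n.toNat + 1, N.mul_mem (N.inv_mem ha.1) (N.pow_mem hb.1 _), ?_⟩
      have h2 : b ^ n • o ≤ b ^ (n.toNat : ℤ) • o := by
        obtain ⟨j, hj⟩ := Int.eq_ofNat_of_zero_le (sub_nonneg.2 (Int.self_le_toNat n))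
        have := transHom_nondecr hm hb.2.le j n
        have h7 : n + (j : ℤ) = (n.toNat : ℤ) := by
          rw [← hj]
          ring
        rwa [h7] at this
      have h3 : b ^ (n.toNat : ℤ) • o < b ^ (n.toNat + 1) • o := by
        rw [pow_succ, mul_smul, zpow_natCast]
        exact hm _ _ _ hb.2
      have h4 := hm a⁻¹ _ _ (hn.trans_lt (h2.trans_lt h3))
      rwa [← mul_smul, inv_mul_cancel, one_smul, ← mul_smul] at h4)
  refine ⟨t, ht, fun a ha x => ?_⟩
  rw [hpos a ha]
  constructor
  · intro h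
    exact transHom_all hm (hdich a ha) h.2 x
  · intro h
    exact ⟨ha, transHom_all hm (hdich a ha) h o⟩

end Act

end Pool.Agent.IsoOrd
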