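import Pool.Agent.IsoOrd.Defs

/-!
# Orders from cuts

For a lower set `S` put `Q = {g | S ⊆ g S and (g S ⊆ S → g ∈ P)}`, where `S ⊆ g S` is written
`∀ x ∈ S, g⁻¹ • x ∈ S` and `g S ⊆ S` is written `∀ x ∈ S, g • x ∈ S`. Lower sets of a linear order are
comparable, so `Q` is a cone (`cone_of_cut`, intersected with `C`).
* `perturb`: `F ⊆ Q`, so `Q = P` by isolation. If `x ∈ H`, `y ∈ P`, `y⁻¹ * x ∈ P` then `S ⊆ y S` and
  `S ⊆ y⁻¹ x S = y⁻¹ S`, so `y ∈ H`.
-/

set_option autoImplicit false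

universe u

namespace Pool.Agent.IsoOrd

variable {G : Type*} [Group G]

/-- Lower sets are comparable. -/
private theorem comparable {Ω : Type*} [LinearOrder Ω] [MulAction G Ω]
    (hm : Mono G Ω) (S : Set Ω) (hS : IsLowerSet S) (g : G) :
    (∀ x ∈ S, g⁻¹ • x ∈ S) ∨ ∀ x ∈ S, g • x ∈ S := by
  by_cases h : ∀ x ∈ S, g⁻¹ • x ∈ S
  · exact Or.inl h
  · refine Or.inr fun t ht => ?_
    push Not at h
    obtain ⟨s, hs, hs'⟩ := h
    have h1 : t < g⁻¹ • s := by
      by_contra hlt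
      exact hs' (hS (not_lt.1 hlt) ht)
    have h2 := hm g _ _ h1
    rw [smul_inv_smul] at h2
    exact hS h2.le hs

/-- the order on `C` from a cut -/
theorem cone_of_cut {P : Set G} (hP : Cone ⊤ P) {Ω : Type*} [LinearOrder Ω] [MulAction G Ω]
    (hm : Mono G Ω) (S : Set Ω) (hS : IsLowerSet S) (C : Subgroup G) :
    Cone C {g | g ∈ C ∧ (∀ x ∈ S, g⁻¹ • x ∈ S) ∧ ((∀ x ∈ S, g • x ∈ S) → g ∈ P)} := by
  refine ⟨fun x hx => hx.1, ?_, ?_, ?_⟩
  · rintro x ⟨hxC, hx1, hx2⟩ y ⟨hyC, hy1, hy2⟩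
    refine ⟨C.mul_mem hxC hyC, fun s hs => ?_, fun h => ?_⟩
    · rw [mul_inv_rev, mul_smul]
      exact hy1 _ (hx1 _ hs)
    · have hx : x ∈ P := hx2 fun s hs => by
        have h1 := h _ (hy1 s hs)
        rwa [mul_smul, smul_inv_smul] at h1
      have hy : y ∈ P := hy2 fun s hs => by
        have h1 := hx1 _ (h s hs)
        rwa [mul_smul, inv_smul_smul] at h1
      exact hP.mul x hx y hy
  · rintro ⟨-, -, h⟩
    refine hP.one (h fun s hs => ?_)
    rwa [one_smul]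
  · intro x hx hx1
    by_cases h1 : ∀ s ∈ S, x⁻¹ • s ∈ S
    · by_cases h2 : ∀ s ∈ S, x • s ∈ S
      · rcases hP.tot x (Subgroup.mem_top x) hx1 with h | h
        · exact Or.inl ⟨hx, h1, fun _ => h⟩
        · refine Or.inr ⟨C.inv_mem hx, fun s hs => ?_, fun _ => h⟩
          rw [inv_inv]
          exact h2 s hs
      · exact Or.inl ⟨hx, h1, fun h => absurd h h2⟩
    · have h2 := (comparable hm S hS x).resolve_left h1
      refine Or.inr ⟨C.inv_mem hx, fun s hs => ?_, fun h => absurd h h1⟩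
      rw [inv_inv]
      exact h2 s hs

/-- isolation passes to the sign change: if `F` determines `P` then a subgroup `H` such that the
order obtained from an action at a cut `S` has `F` positive is the same order; consequences. -/
theorem perturb {P F : Set G} (h : Isol ⊤ P F) {Ω : Type*} [LinearOrder Ω] [MulAction G Ω]
    (hm : Mono G Ω) (S : Set Ω) (hS : IsLowerSet S) (hF : ∀ f ∈ F, ∀ x ∈ S, f⁻¹ • x ∈ S)
    (H : Subgroup G) (hH : ∀ g, g ∈ H ↔ ∀ x, g • x ∈ S ↔ x ∈ S) : Cvx P ⊤ H := by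
  have hQ := h.uniq _ (cone_of_cut h.cone hm S hS ⊤) fun f hf =>
    ⟨Subgroup.mem_top f, hF f hf, fun _ => h.sub hf⟩
  have hmem : ∀ g ∈ P, ∀ x ∈ S, g⁻¹ • x ∈ S := by
    intro g hg
    rw [← hQ] at hg
    exact hg.2.1
  refine ⟨le_top, fun x hx y hy hyx => ?_⟩
  rw [hH] at hx ⊢
  intro z
  constructor
  · intro hz
    have h1 := hmem y hy _ hz
    rwa [inv_smul_smul] at h1
  · intro hz
    have h1 := hmem _ hyx z hz
    rw [mul_inv_rev, inv_inv, mul_smul] at h1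
    have h2 := (hx _).2 h1
    rwa [smul_inv_smul] at h2

end Pool.Agent.IsoOrd
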