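import Pool.Agent.IsoOrd.Basic
import Pool.Agent.IsoOrd.Perturb

/-!
# Dense case: the affine representation is by translations

Suppose `lam g₀ ≠ 1`. `G` acts on `ℝ` by `ρ(g) s = lam g * s + τ g` (build the `MulAction` instance locally).
Let `Q_z` be the cone on `C` of the cut `Iio z` (`cone_of_cut`), for `z = 1` and `z = -1`. If `TopAlt` gives
the first alternative for `z = 1` then `lam f ≥ 1` for all `f ∈ P ∩ C` (as `τ = 0` on `C`), if it gives it
for `z = -1` then `lam f ≤ 1` for all `f ∈ P ∩ C`; if it gives the second alternative for both then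
`lam c = 1`, so `c⁻¹` fixes the cut and `c⁻¹ ∈ P`, contradiction with `c ∈ P`. In the first case take base
points `z > 0` small, in the second case `z < 0` small: then `ρ(f) z ≥ z` for all `f ∈ F` (`f ∉ C`: `τ f > 0`,
finitely many). The fixed point `τ g₀ / (1 - lam g₀)` of `g₀` can be moved by some `a ∈ N` to such a `z`;
`g' = a g₀ a⁻¹` fixes `z ≠ 0` and `lam g' ≠ 1`. By `perturb` (`S = Iio z`) the stabiliser of `z` is convex.
If it is `≤ C` then `g' ∈ C`, `τ g' = 0`, contradiction; otherwise `C ≤` it, so it is `C` (same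
contradiction) or `⊤` (then `t a = 0` for all `a ∈ N`, contradiction to density). `Cvx.total`.
-/

set_option autoImplicit false

universe u

namespace Pool.Agent.IsoOrd

variable {G : Type*} [Group G]

/-- dense case: the affine representation is by translations -/
theorem affine_end {P F : Set G} (h : Isol ⊤ P F) {C : Subgroup G} (hC : Cvx P ⊤ C)
    (hne : C ≠ ⊤) (hmax : ∀ H, Cvx P ⊤ H → C ≤ H → H = C ∨ H = ⊤) (htop : TopAlt P C)
    (N : Subgroup G) (t : G → ℝ) (hdense : ∀ r s : ℝ, r < s → ∃ a ∈ N, r < t a ∧ t a < s)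
    (lam τ : G → ℝ) (hl : ∀ g, 0 < lam g) (hlm : ∀ g h, lam (g * h) = lam g * lam h)
    (hτ : ∀ g h, τ (g * h) = τ g + lam g * τ h) (hτp : ∀ g ∈ P, g ∉ C → 0 < τ g)
    (hτ0 : ∀ g ∈ C, τ g = 0) (hτN : ∀ a ∈ N, lam a = 1 ∧ τ a = t a) : ∀ g, lam g = 1 := by
  by_contra hcon
  push Not at hcon
  obtain ⟨g₀, hg₀⟩ := hcon
  have hl1 : lam 1 = 1 := by
    have h1 := hlm 1 1
    rw [mul_one] at h1
    have h2 := (hl 1).ne'
    have h3 : lam 1 * (lam 1 - 1) = 0 := by linear_combination -h1
    rcases mul_eq_zero.1 h3 with h4 | h4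
    · exact absurd h4 h2
    · linarith
  have hτ1 : τ 1 = 0 := hτ0 1 C.one_mem
  have hli : ∀ g, lam g * lam g⁻¹ = 1 := fun g => by rw [← hlm, mul_inv_cancel, hl1]
  letI act : MulAction G ℝ :=
    { smul := fun g s => lam g * s + τ g
      one_smul := fun s => by
        change lam 1 * s + τ 1 = s
        rw [hl1, hτ1, one_mul, add_zero]
      mul_smul := fun g k s => by
        change lam (g * k) * s + τ (g * k) = lam g * (lam k * s + τ k) + τ g
        rw [hlm, hτ]
        ring }
  have hact : ∀ (g : G) (s : ℝ), g • s = lam g * s + τ g := fun g s => rfl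
  have hmono : Mono G ℝ := by
    intro g x y hxy
    rw [hact, hact]
    have := mul_lt_mul_of_pos_left hxy (hl g)
    linarith
  have hmono' : ∀ (g : G) (x y : ℝ), x ≤ y → g • x ≤ g • y := by
    intro g x y hxy
    rw [hact, hact]
    have := mul_le_mul_of_nonneg_left hxy (hl g).le
    linarith
  -- the cone of the cut at `z`
  have hcut : ∀ z : ℝ, ∀ g ∈ C, (∀ x ∈ Set.Iio z, g⁻¹ • x ∈ Set.Iio z) → lam g⁻¹ * z ≤ z := by
    intro z g hg hx
    by_contra hlt
    push Not at hlt
    -- take `x` slightly below `z`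
    have hpos := hl g⁻¹
    obtain ⟨x, hx1, hx2⟩ : ∃ x, x < z ∧ z < lam g⁻¹ * x := by
      refine ⟨(z + lam g * z) / 2, ?_, ?_⟩
      · have h1 : lam g * z < z := by
          have h2 := mul_lt_mul_of_pos_left hlt (hl g)
          rw [← mul_assoc, hli, one_mul] at h2
          exact h2
        linarith
      · have h2 : lam g⁻¹ * ((z + lam g * z) / 2) = (lam g⁻¹ * z + (lam g * lam g⁻¹) * z) / 2 := by
          ring
        rw [h2, hli]
        linarith
    have h3 := hx x hx1
    rw [Set.mem_Iio, hact, hτ0 _ (C.inv_mem hg)] at h3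
    linarith
  have hconj : ∀ r f, lam (r⁻¹ * f * r) = lam f := by
    intro r f
    rw [hlm, hlm]
    linear_combination lam f * hli r
  -- the dichotomy
  have hdich : (∀ f ∈ P, f ∈ C → 1 ≤ lam f) ∨ ∀ f ∈ P, f ∈ C → lam f ≤ 1 := by
    obtain ⟨R, hR, c, hc, halt⟩ := htop
    have hcone : ∀ z : ℝ, Cone C {g | g ∈ C ∧ (∀ x ∈ Set.Iio z, g⁻¹ • x ∈ Set.Iio z) ∧
        ((∀ x ∈ Set.Iio z, g • x ∈ Set.Iio z) → g ∈ P)} :=
      fun z => cone_of_cut h.cone hmono (Set.Iio z) (isLowerSet_Iio z) C
    have hle : ∀ g, lam g⁻¹ ≤ 1 → 1 ≤ lam g := by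
      intro g hg
      have h1 := mul_le_mul_of_nonneg_left hg (hl g).le
      rw [hli, mul_one] at h1
      exact h1
    have hge : ∀ g, 1 ≤ lam g⁻¹ → lam g ≤ 1 := by
      intro g hg
      have h1 := mul_le_mul_of_nonneg_left hg (hl g).le
      rw [hli, mul_one] at h1
      exact h1
    have h1 : ∀ g ∈ C, (∀ x ∈ Set.Iio (1 : ℝ), g⁻¹ • x ∈ Set.Iio (1 : ℝ)) → 1 ≤ lam g := by
      intro g hg hx
      have h2 := hcut 1 g hg hx
      exact hle g (by linarith)
    have h2 : ∀ g ∈ C, (∀ x ∈ Set.Iio (-1 : ℝ), g⁻¹ • x ∈ Set.Iio (-1 : ℝ)) → lam g ≤ 1 := by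
      intro g hg hx
      have h2 := hcut (-1) g hg hx
      exact hge g (by linarith)
    rcases halt _ (hcone 1) with ⟨r, hr, h3⟩ | ⟨hcP, hc1⟩
    · left
      intro f hf hfC
      have h4 := h3 f hf hfC
      have h5 := h1 _ h4.1 h4.2.1
      rwa [hconj] at h5
    · rcases halt _ (hcone (-1)) with ⟨r, hr, h3⟩ | ⟨-, hc2⟩
      · right
        intro f hf hfC
        have h4 := h3 f hf hfC
        have h5 := h2 _ h4.1 h4.2.1
        rwa [hconj] at h5
      · exfalso
        have h3 : lam c⁻¹ = 1 := le_antisymm (h2 _ hc2.1 hc2.2.1) (h1 _ hc1.1 hc1.2.1)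
        have h4 : c⁻¹ ∈ P := by
          refine hc1.2.2 fun x hx => ?_
          rw [hact, h3, hτ0 _ (C.inv_mem hc), one_mul, add_zero]
          exact hx
        have h5 := h.cone.mul _ hcP _ h4
        rw [mul_inv_cancel] at h5
        exact h.cone.one h5
  -- a small constant
  obtain ⟨δ, hδ, hδF⟩ : ∃ δ : ℝ, 0 < δ ∧ ∀ f ∈ F, f ∉ C → δ * (1 + lam f) ≤ τ f := by
    have hfin : (F \ (C : Set G)).Finite := h.fin.subset Set.sdiff_subset
    rcases (F \ (C : Set G)).eq_empty_or_nonempty with he | hn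
    · refine ⟨1, one_pos, fun f hf hfC => ?_⟩
      have : f ∈ F \ (C : Set G) := ⟨hf, hfC⟩
      rw [he] at this
      exact absurd this (Set.notMem_empty f)
    · obtain ⟨f₀, hf₀, hmin⟩ := Set.exists_min_image (F \ (C : Set G))
        (fun f => τ f / (1 + lam f)) hfin hn
      have hp : ∀ f, 0 < 1 + lam f := fun f => by linarith [hl f]
      refine ⟨τ f₀ / (1 + lam f₀), div_pos (hτp _ (h.sub hf₀.1) hf₀.2) (hp _), ?_⟩
      intro f hf hfC
      have h1 := hmin f ⟨hf, hfC⟩
      rwa [le_div_iff₀ (hp f)] at h1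
  -- an interval of good base points
  obtain ⟨u, v, huv, h0, hgood⟩ : ∃ u v : ℝ, u < v ∧ (∀ z, u < z → z < v → z ≠ 0) ∧
      ∀ z, u < z → z < v → ∀ f ∈ F, z ≤ f • z := by
    rcases hdich with hA | hB
    · refine ⟨0, δ, hδ, fun z hz _ => hz.ne', fun z hz hzδ f hf => ?_⟩
      rw [hact]
      have hlf := hl f
      by_cases hfC : f ∈ C
      · have h1 := hA f (h.sub hf) hfC
        rw [hτ0 f hfC]
        nlinarith
      · have h1 := hδF f hf hfC
        nlinarith
    · refine ⟨-δ, 0, by linarith, fun z _ hz => hz.ne, fun z hzδ hz f hf => ?_⟩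
      rw [hact]
      have hlf := hl f
      by_cases hfC : f ∈ C
      · have h1 := hB f (h.sub hf) hfC
        rw [hτ0 f hfC]
        nlinarith
      · have h1 := hδF f hf hfC
        nlinarith
  -- the fixed point
  have hg₁ : 1 - lam g₀ ≠ 0 := fun h1 => hg₀ (by linarith)
  obtain ⟨a, haN, ha1, ha2⟩ := hdense (u - τ g₀ / (1 - lam g₀)) (v - τ g₀ / (1 - lam g₀))
    (by linarith)
  set x₀ : ℝ := τ g₀ / (1 - lam g₀) with hx₀
  have hfix₀ : g₀ • x₀ = x₀ := by
    rw [hact, hx₀]
    field_simp
    ring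
  set z : ℝ := a • x₀ with hz
  have hz' : z = x₀ + t a := by
    rw [hz, hact, (hτN a haN).1, (hτN a haN).2, one_mul]
  have hzu : u < z := by rw [hz']; linarith
  have hzv : z < v := by rw [hz']; linarith
  set g' : G := a * g₀ * a⁻¹ with hg'
  have hfix : g' • z = z := by
    rw [hg', hz, mul_smul, inv_smul_smul, mul_smul, hfix₀]
  have hlg' : lam g' ≠ 1 := by
    have h1 : lam g' = lam g₀ := by
      rw [hg', hlm, hlm]
      linear_combination lam g₀ * hli a
    rw [h1]
    exact hg₀
  -- the stabiliser of `z` is convex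
  have hst : Cvx P ⊤ (MulAction.stabilizer G z) := by
    refine perturb h hmono (Set.Iio z) (isLowerSet_Iio z) (fun f hf x hx => ?_) _ (fun g => ?_)
    · have h1 := hmono f⁻¹ x z hx
      have h2 := hmono' f⁻¹ _ _ (hgood z hzu hzv f hf)
      rw [inv_smul_smul] at h2
      exact lt_of_lt_of_le h1 h2
    · rw [MulAction.mem_stabilizer_iff]
      constructor
      · intro hg x
        rw [Set.mem_Iio, Set.mem_Iio]
        constructor
        · intro hx
          by_contra hlt
          push Not at hlt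
          have h1 := hmono' g _ _ hlt
          rw [hg] at h1
          exact absurd hx (not_lt.2 h1)
        · intro hx
          have h1 := hmono g _ _ hx
          rwa [hg] at h1
      · intro hg
        rcases lt_trichotomy (g • z) z with h1 | h1 | h1
        · exact absurd ((hg z).1 h1) (lt_irrefl z)
        · exact h1
        · have h2 := hmono g⁻¹ _ _ h1
          rw [inv_smul_smul] at h2
          have h3 := (hg (g⁻¹ • z)).2 h2
          rw [smul_inv_smul] at h3
          exact absurd h3 (lt_irrefl z)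
  have hg'mem : g' ∈ MulAction.stabilizer G z := MulAction.mem_stabilizer_iff.2 hfix
  have hnot : g' ∉ C := by
    intro hgC
    have h1 := hfix
    rw [hact, hτ0 g' hgC, add_zero] at h1
    have h2 : (lam g' - 1) * z = 0 := by linear_combination h1
    rcases mul_eq_zero.1 h2 with h3 | h3
    · exact hlg' (by linarith)
    · exact h0 z hzu hzv h3
  rcases Cvx.total h.cone hC hst with h1 | h1
  · rcases hmax _ hst h1 with h2 | h2
    · rw [h2] at hg'mem
      exact hnot hg'mem
    · obtain ⟨a', ha', h3, -⟩ := hdense 1 2 (by norm_num)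
      have h4 : a' ∈ MulAction.stabilizer G z := by
        rw [h2]
        exact Subgroup.mem_top a'
      rw [MulAction.mem_stabilizer_iff, hact, (hτN a' ha').1, (hτN a' ha').2] at h4
      linarith
  · exact hnot (h1 hg'mem)

end Pool.Agent.IsoOrd
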