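import Pool.Agent.IsoOrd.Cross
import Pool.Agent.IsoOrd.Holder

/-!
# Dense case: the affine representation

`lam g` from `hom_unique` for `a ↦ t (g a g⁻¹)` (some `a ∈ N` has `t a ≠ 0` by density, so `lam g` is unique
and multiplicative). `φ y = sSup {t a | a ∈ N, a • o ≤ y}`; the set is non-empty and bounded because powers of
the cofinal `n` are unbounded. `φ (a y) = t a + φ y` for `a ∈ N`, `φ` monotone,
`φ (g y) = lam g * φ y + φ (g o)` first for `y = a o`, then by squeezing `y` between `a o` and `b o` with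
`t b - t a` small. `τ g = φ (g o)`. Positivity: `J x = {z | ∀ a ∈ N, 0 < t a → a⁻¹ x < z ∧ z < a x}` is an
invariant convex partition (halving: for `a` there is `b` with `0 < t b`, `t b * 2 ≤ t a`, so
`b² x ≤ a x`; careful with equality: use `t b * 2 < t a`), not `univ`, so
`J x = {x}`: if `o < g o` there is `a ∈ N` with `0 < t a` and `a o ≤ g o`, hence `τ g ≥ t a > 0`.
-/

set_option autoImplicit false

universe u

namespace Pool.Agent.IsoOrd

variable {G : Type*} [Group G]

section Act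

variable {Ω : Type*} [LinearOrder Ω] [MulAction G Ω]

section Aux

variable {N : Subgroup G} {t : G → ℝ}

private theorem t_one (ht : ∀ a ∈ N, ∀ b ∈ N, t (a * b) = t a + t b) : t 1 = 0 := by
  have h := ht 1 N.one_mem 1 N.one_mem
  rw [mul_one] at h
  linarith

private theorem t_inv (ht : ∀ a ∈ N, ∀ b ∈ N, t (a * b) = t a + t b) {a : G} (ha : a ∈ N) :
    t a⁻¹ = - t a := by
  have h := ht a ha a⁻¹ (N.inv_mem ha)
  rw [mul_inv_cancel, t_one ht] at h
  linarith

private theorem mono_le (hm : Mono G Ω) (g : G) {x y : Ω} (h : x ≤ y) : g • x ≤ g • y := by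
  rcases h.lt_or_eq with h | h
  · exact (hm g x y h).le
  · rw [h]

private theorem mono_le_iff (hm : Mono G Ω) (g : G) {x y : Ω} : g • x ≤ g • y ↔ x ≤ y := by
  refine ⟨fun h => ?_, mono_le hm g⟩
  by_contra h'
  exact absurd (hm g y x (not_le.mp h')) (not_lt.mpr h)

private theorem lt_iff (hm : Mono G Ω) (ht : ∀ a ∈ N, ∀ b ∈ N, t (a * b) = t a + t b)
    (htp : ∀ a ∈ N, ∀ x : Ω, (0 < t a ↔ x < a • x)) {a b : G} (ha : a ∈ N) (hb : b ∈ N) (x : Ω) :
    a • x < b • x ↔ t a < t b := by
  have h1 := htp (a⁻¹ * b) (N.mul_mem (N.inv_mem ha) hb) x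
  rw [ht _ (N.inv_mem ha) _ hb, t_inv ht ha] at h1
  have h2 : a • x < b • x ↔ x < (a⁻¹ * b) • x := by
    constructor
    · intro h
      have := hm a⁻¹ _ _ h
      rwa [inv_smul_smul, ← mul_smul] at this
    · intro h
      have := hm a _ _ h
      rwa [mul_smul, smul_inv_smul] at this
  rw [h2, ← h1]
  constructor <;> intro h <;> linarith

private theorem le_iff (hm : Mono G Ω) (ht : ∀ a ∈ N, ∀ b ∈ N, t (a * b) = t a + t b)
    (htp : ∀ a ∈ N, ∀ x : Ω, (0 < t a ↔ x < a • x)) {a b : G} (ha : a ∈ N) (hb : b ∈ N) (x : Ω) :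
    a • x ≤ b • x ↔ t a ≤ t b := by
  rw [← not_lt, ← not_lt, lt_iff hm ht htp hb ha]

end Aux

/-- dense case: the affine representation -/
theorem affine_rep (hm : Mono G Ω) (hprim : Prim G Ω) {N : Subgroup G} (hNn : N.Normal) (o : Ω)
    (t : G → ℝ) (ht : ∀ a ∈ N, ∀ b ∈ N, t (a * b) = t a + t b)
    (htp : ∀ a ∈ N, ∀ x : Ω, (0 < t a ↔ x < a • x))
    (hcof : ∃ n ∈ N, comp n o = Set.univ)
    (hdense : ∀ r s : ℝ, r < s → ∃ a ∈ N, r < t a ∧ t a < s) :
    ∃ lam τ : G → ℝ, (∀ g, 0 < lam g) ∧ (∀ g h, lam (g * h) = lam g * lam h) ∧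
      (∀ g h, τ (g * h) = τ g + lam g * τ h) ∧ (∀ g, o < g • o → 0 < τ g) ∧
      (∀ g, g • o = o → τ g = 0) ∧ (∀ a ∈ N, lam a = 1 ∧ τ a = t a) := by
  -- the stretch factors
  have hlam : ∀ g : G, ∃ l : ℝ, 0 < l ∧ ∀ a ∈ N, t (g * a * g⁻¹) = l * t a := by
    intro g
    refine hom_unique N t (fun a => t (g * a * g⁻¹)) ht ?_ ?_
    · intro a ha b hb
      have h1 : g * (a * b) * g⁻¹ = (g * a * g⁻¹) * (g * b * g⁻¹) := by group
      rw [h1]
      exact ht _ (hNn.conj_mem a ha g) _ (hNn.conj_mem b hb g)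
    · intro a ha
      rw [htp a ha (g⁻¹ • o), htp _ (hNn.conj_mem a ha g) o]
      constructor
      · intro h
        have := hm g _ _ h
        rwa [smul_inv_smul, ← mul_smul, ← mul_smul] at this
      · intro h
        have := hm g⁻¹ _ _ h
        rwa [mul_assoc, mul_smul, inv_smul_smul, mul_smul] at this
  choose lam hlam0 hlam1 using hlam
  obtain ⟨c, hcN, hc0, -⟩ := hdense 0 1 one_pos
  have hlam_mul : ∀ g h, lam (g * h) = lam g * lam h := by
    intro g h
    have h1 : t (g * h * c * (g * h)⁻¹) = lam g * (lam h * t c) := by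
      rw [← hlam1 h c hcN, ← hlam1 g _ (hNn.conj_mem c hcN h)]
      congr 1
      group
    rw [hlam1 (g * h) c hcN] at h1
    have h2 : lam (g * h) * t c = lam g * lam h * t c := by rw [h1]; ring
    exact mul_right_cancel₀ hc0.ne' h2
  -- the coordinate
  set S : Ω → Set ℝ := fun y => {r | ∃ a ∈ N, a • o ≤ y ∧ t a = r} with hS
  set φ : Ω → ℝ := fun y => sSup (S y) with hφ
  obtain ⟨n, hnN, hn⟩ := hcof
  have hne : ∀ y, (S y).Nonempty := by
    intro y
    have : y ∈ comp n o := by rw [hn]; trivial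
    obtain ⟨⟨m, hm'⟩, -⟩ := this
    exact ⟨_, n ^ m, N.zpow_mem hnN m, hm', rfl⟩
  have hbdd : ∀ y, BddAbove (S y) := by
    intro y
    have : y ∈ comp n o := by rw [hn]; trivial
    obtain ⟨-, ⟨m, hm'⟩⟩ := this
    refine ⟨t (n ^ m), ?_⟩
    rintro r ⟨a, ha, hay, rfl⟩
    exact (le_iff hm ht htp ha (N.zpow_mem hnN m) o).mp (hay.trans hm')
  have hφmono : ∀ y z, y ≤ z → φ y ≤ φ z := by
    intro y z hyz
    refine csSup_le_csSup (hbdd z) (hne y) ?_
    rintro r ⟨a, ha, hay, rfl⟩
    exact ⟨a, ha, hay.trans hyz, rfl⟩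
  have hφt : ∀ a ∈ N, φ (a • o) = t a := by
    intro a ha
    refine le_antisymm (csSup_le (hne _) ?_) (le_csSup (hbdd _) ⟨a, ha, le_rfl, rfl⟩)
    rintro r ⟨b, hb, hba, rfl⟩
    exact (le_iff hm ht htp hb ha o).mp hba
  have hφo : φ o = 0 := by
    have := hφt 1 N.one_mem
    rwa [one_smul, t_one ht] at this
  have hφN_le : ∀ a ∈ N, ∀ y, t a + φ y ≤ φ (a • y) := by
    intro a ha y
    have h1 : φ y ≤ φ (a • y) - t a := by
      refine csSup_le (hne _) ?_
      rintro r ⟨b, hb, hby, rfl⟩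
      have h2 : t (a * b) ≤ φ (a • y) :=
        le_csSup (hbdd _) ⟨a * b, N.mul_mem ha hb, by rw [mul_smul]; exact mono_le hm a hby, rfl⟩
      rw [ht a ha b hb] at h2
      linarith
    linarith
  have hφN : ∀ a ∈ N, ∀ y, φ (a • y) = t a + φ y := by
    intro a ha y
    refine le_antisymm ?_ (hφN_le a ha y)
    have h1 := hφN_le a⁻¹ (N.inv_mem ha) (a • y)
    rw [inv_smul_smul, t_inv ht ha] at h1
    linarith
  have hφg : ∀ g y, φ (g • y) = φ (g • o) + lam g * φ y := by
    intro g
    -- on the orbit of `N`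
    have h1 : ∀ a ∈ N, φ (g • a • o) = φ (g • o) + lam g * t a := by
      intro a ha
      have h2 : g • a • o = (g * a * g⁻¹) • g • o := by
        rw [mul_smul, inv_smul_smul, mul_smul]
      rw [h2, hφN _ (hNn.conj_mem a ha g), hlam1 g a ha]
      ring
    intro y
    refine eq_of_forall_dist_le fun ε hε => ?_
    have hpos := hlam0 g
    set δ : ℝ := ε / lam g with hδ
    have hδ0 : 0 < δ := div_pos hε hpos
    obtain ⟨a, ha, ha1, ha2⟩ := hdense (φ y - δ) (φ y) (by linarith)
    obtain ⟨b, hb, hb1, hb2⟩ := hdense (φ y) (φ y + δ) (by linarith)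
    have hay : a • o ≤ y := by
      by_contra h
      have := hφmono _ _ (not_le.mp h).le
      rw [hφt a ha] at this
      linarith
    have hyb : y ≤ b • o := by
      by_contra h
      have := hφmono _ _ (not_le.mp h).le
      rw [hφt b hb] at this
      linarith
    have h3 := hφmono _ _ (mono_le hm g hay)
    have h4 := hφmono _ _ (mono_le hm g hyb)
    rw [h1 a ha] at h3
    rw [h1 b hb] at h4
    have h5 : lam g * δ = ε := by
      rw [hδ]
      field_simp
    have h6 : lam g * (φ y - δ) ≤ lam g * t a := mul_le_mul_of_nonneg_left ha1.le hpos.le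
    have h7 : lam g * t b ≤ lam g * (φ y + δ) := mul_le_mul_of_nonneg_left hb2.le hpos.le
    rw [mul_sub, h5] at h6
    rw [mul_add, h5] at h7
    rw [Real.dist_eq, abs_le]
    constructor <;> linarith
  -- the coordinate is injective
  have hinj : ∀ x y, φ x = φ y → x = y := by
    have h1 := hprim (fun x => {z | φ z = φ x}) (fun x => rfl)
      (fun x y hy => by
        have hy' : φ y = φ x := hy
        ext z
        change φ z = φ y ↔ φ z = φ x
        rw [hy'])
      (fun x y z w hy hw hyz hzw => by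
        have hy' : φ y = φ x := hy
        have hw' : φ w = φ x := hw
        have h2 := hφmono _ _ hyz
        have h3 := hφmono _ _ hzw
        exact le_antisymm (h3.trans_eq hw') (hy'.symm.trans_le h2))
      (fun g x y hy => by
        have hy' : φ y = φ x := hy
        change φ (g • y) = φ (g • x)
        rw [hφg g y, hφg g x, hy'])
    rcases h1 with h1 | h1
    · intro x y hxy
      have : x ∈ ({z | φ z = φ y} : Set Ω) := hxy
      rw [h1 y] at this
      exact this
    · exfalso
      have : c • o ∈ ({z | φ z = φ o} : Set Ω) := by rw [h1 o]; trivial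
      have h2 : φ (c • o) = φ o := this
      rw [hφt c hcN, hφo] at h2
      exact hc0.ne' h2
  refine ⟨lam, fun g => φ (g • o), hlam0, hlam_mul, ?_, ?_, ?_, ?_⟩
  · intro g h
    simp only
    rw [mul_smul, hφg g (h • o)]
  · intro g hg
    simp only
    refine lt_of_le_of_ne ?_ ?_
    · rw [← hφo]
      exact hφmono _ _ hg.le
    · intro h
      rw [← hφo] at h
      exact hg.ne (hinj _ _ h)
  · intro g hg
    simp only
    rw [hg, hφo]
  · intro a ha
    refine ⟨?_, hφt a ha⟩
    have h1 := hlam1 a c hcN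
    rw [ht _ (N.mul_mem ha hcN) _ (N.inv_mem ha), ht a ha c hcN, t_inv ht ha] at h1
    have h2 : lam a * t c = 1 * t c := by linarith
    exact mul_right_cancel₀ hc0.ne' h2

end Act

end Pool.Agent.IsoOrd
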