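import Pool.Agent.IsoOrd.Defs

/-!
# The class

* `HNFS.subgroup`: let `K` be a proper normal subgroup of `D`. By Zorn there is a maximal normal subgroup `M`
  of `G` with `M.subgroupOf D ≤ K` (⊥ is one; unions of chains). `M ≠ ⊤`. Take `N > M` normal with
  `RelNFS N M`; by maximality `N.subgroupOf D` is not `≤ K`. Take `K ⊔ N.subgroupOf D`: normal, larger than
  `K`; for `a, b` in it write `a = a' k`, `b = b' k'` with `a', b' ∈ N ∩ D`, `k, k' ∈ K`; words in `a, b`
  agree with words in `a', b'` modulo `K`.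
* `exists_max_nfs`: Zorn on the normal `M ≥ K` with `RelNFS M K`, above the one given by `HNFS`; a union of a
  chain still has the property since it is a condition on two elements.
-/

set_option autoImplicit false

universe u

namespace Pool.Agent.IsoOrd

variable {G : Type*} [Group G]

private theorem class_map_ev {H : Type*} [Group H] (φ : G →* H) (a b : G) (w : List Bool) :
    φ (ev a b w) = ev (φ a) (φ b) w := by
  unfold ev
  rw [map_list_prod, List.map_map]
  congr 1
  apply List.map_congr_left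
  intro i _
  cases i <;> rfl

private theorem class_mem_iff (K : Subgroup G) [K.Normal] (x y : G) :
    x⁻¹ * y ∈ K ↔ QuotientGroup.mk' K x = QuotientGroup.mk' K y := by
  rw [QuotientGroup.mk'_apply, QuotientGroup.mk'_apply, QuotientGroup.eq]

private theorem class_normal_sSup {c : Set (Subgroup G)} (hne : c.Nonempty)
    (hc : IsChain (· ≤ ·) c) (hn : ∀ s ∈ c, s.Normal) : (sSup c).Normal := by
  constructor
  intro x hx g
  rw [Subgroup.mem_sSup_of_directedOn hne hc.directedOn] at hx ⊢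
  obtain ⟨s, hs, hxs⟩ := hx
  exact ⟨s, hs, (hn s hs).conj_mem x hxs g⟩

/-- the class is closed under subgroups -/
theorem HNFS.subgroup (h : HNFS G) (D : Subgroup G) : HNFS D := by
  intro K hK hne
  obtain ⟨M, hM⟩ := zorn_le₀ {M : Subgroup G | M.Normal ∧ M.subgroupOf D ≤ K} (by
    intro c hc hch
    rcases c.eq_empty_or_nonempty with rfl | hcne
    · refine ⟨⊥, ⟨inferInstance, ?_⟩, by simp⟩
      rw [Subgroup.bot_subgroupOf]
      exact bot_le
    · refine ⟨sSup c, ⟨class_normal_sSup hcne hch fun s hs => (hc hs).1, ?_⟩,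
        fun z hz => le_sSup hz⟩
      intro x hx
      rw [Subgroup.mem_subgroupOf, Subgroup.mem_sSup_of_directedOn hcne hch.directedOn] at hx
      obtain ⟨s, hs, hxs⟩ := hx
      exact (hc hs).2 (Subgroup.mem_subgroupOf.2 hxs))
  obtain ⟨hMn, hMK⟩ := hM.prop
  have hMtop : M ≠ ⊤ := by
    rintro rfl
    apply hne
    rw [eq_top_iff]
    refine le_trans ?_ hMK
    intro x _
    rw [Subgroup.mem_subgroupOf]
    trivial
  obtain ⟨N, hNn, hMN, hrel⟩ := h M hMn hMtop
  have hNK : ¬ N.subgroupOf D ≤ K := by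
    intro hle
    have := hM.le_of_ge (show N ∈ {M : Subgroup G | M.Normal ∧ M.subgroupOf D ≤ K} from
      ⟨hNn, hle⟩) hMN.le
    exact absurd this (not_le_of_gt hMN)
  have := hNn
  have hN' : (N.subgroupOf D).Normal := inferInstance
  refine ⟨K ⊔ N.subgroupOf D, Subgroup.sup_normal K _, ?_, ?_⟩
  · refine lt_of_le_of_ne le_sup_left ?_
    intro heq
    apply hNK
    rw [heq]
    exact le_sup_right
  · have hrep : ∀ a : D, a ∈ K ⊔ N.subgroupOf D → ∃ a' : D, (a' : G) ∈ N ∧
        QuotientGroup.mk' K a = QuotientGroup.mk' K a' := by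
      intro a ha
      have h1 : QuotientGroup.mk' K a ∈ (K ⊔ N.subgroupOf D).map (QuotientGroup.mk' K) :=
        Subgroup.mem_map_of_mem _ ha
      have h2 : K.map (QuotientGroup.mk' K) = ⊥ := by
        rw [Subgroup.map_eq_bot_iff, QuotientGroup.ker_mk']
      rw [Subgroup.map_sup, h2, bot_sup_eq, Subgroup.mem_map] at h1
      obtain ⟨a', ha', he⟩ := h1
      exact ⟨a', Subgroup.mem_subgroupOf.1 ha', he.symm⟩
    intro a ha b hb
    obtain ⟨a', ha', hea⟩ := hrep a ha
    obtain ⟨b', hb', heb⟩ := hrep b hb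
    obtain ⟨w₁, w₂, hw, hmem⟩ := hrel a' ha' b' hb'
    refine ⟨w₁, w₂, hw, ?_⟩
    rw [class_mem_iff, class_map_ev, class_map_ev, hea, heb, ← class_map_ev, ← class_map_ev,
      ← class_mem_iff]
    apply hMK
    rw [Subgroup.mem_subgroupOf]
    have h1 := class_map_ev D.subtype a' b' w₁
    have h2 := class_map_ev D.subtype a' b' w₂
    rw [Subgroup.subtype_apply] at h1 h2
    rw [Subgroup.coe_mul, Subgroup.coe_inv, h1, h2]
    exact hmem

/-- a maximal normal subgroup without free subsemigroups modulo `K` -/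
theorem exists_max_nfs (h : HNFS G) (K : Subgroup G) (hK : K.Normal) (hne : K ≠ ⊤) :
    ∃ N : Subgroup G, N.Normal ∧ K < N ∧ RelNFS N K ∧
      ∀ M : Subgroup G, M.Normal → N < M → ¬ RelNFS M K := by
  obtain ⟨N₀, hN₀, hKN₀, hrel₀⟩ := h K hK hne
  obtain ⟨N, hle, hN⟩ := zorn_le_nonempty₀ {M : Subgroup G | M.Normal ∧ RelNFS M K} (by
    intro c hc hch y hy
    have hcne : c.Nonempty := ⟨y, hy⟩
    refine ⟨sSup c, ⟨class_normal_sSup hcne hch fun s hs => (hc hs).1, ?_⟩,
      fun z hz => le_sSup hz⟩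
    intro a ha b hb
    rw [Subgroup.mem_sSup_of_directedOn hcne hch.directedOn] at ha hb
    obtain ⟨s, hs, has⟩ := ha
    obtain ⟨t, ht, hbt⟩ := hb
    rcases hch.total hs ht with hst | hst
    · exact (hc ht).2 a (hst has) b hbt
    · exact (hc hs).2 a has b (hst hbt)) N₀ ⟨hN₀, hrel₀⟩
  refine ⟨N, hN.prop.1, lt_of_lt_of_le hKN₀ hle, hN.prop.2, ?_⟩
  intro M hM hNM hrel
  have := hN.le_of_ge (show M ∈ {M : Subgroup G | M.Normal ∧ RelNFS M K} from ⟨hM, hrel⟩) hNM.le
  exact absurd this (not_le_of_gt hNM)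

end Pool.Agent.IsoOrd
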