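import Pool.Agent.IsoOrd.Basic

/-!
# The ordered coset space

`Ω = G ⧸ C` with `x C < y C ↔ x⁻¹ y ∈ P ∧ x⁻¹ y ∉ C` (well defined and linear by `Cvx.absorb`), the usual
action, `o = C`. `Prim`: for such `J` let `H = {g | g • o ∈ J o}`; it is a subgroup (`g • o ∈ J o` gives
`J (g • o) = J o`, and `J (g • x) = g • J x`), contains `C`, and is convex for `P`; by maximality `H = C`
(then `J o = {o}`, so all `J x = {x}` by transitivity) or `H = ⊤` (then `J x = univ`).
-/

set_option autoImplicit false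

universe u

namespace Pool.Agent.IsoOrd

variable {G : Type*} [Group G]

/-- the order on the cosets -/
private def cosetLt (P : Set G) (C : Subgroup G) (a b : G ⧸ C) : Prop :=
  ∃ x y : G, (x : G ⧸ C) = a ∧ (y : G ⧸ C) = b ∧ x⁻¹ * y ∈ P ∧ x⁻¹ * y ∉ C

private theorem cosetLt_mk {P : Set G} (hP : Cone ⊤ P) {C : Subgroup G} (hC : Cvx P ⊤ C) (x y : G) :
    cosetLt P C (x : G ⧸ C) (y : G ⧸ C) ↔ x⁻¹ * y ∈ P ∧ x⁻¹ * y ∉ C := by
  constructor
  · rintro ⟨x', y', hx, hy, h1, h2⟩
    rw [QuotientGroup.eq] at hx hy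
    -- `x⁻¹ y = (x⁻¹ x') (x'⁻¹ y') (y'⁻¹ y)`
    have e : x⁻¹ * y = (x'⁻¹ * x)⁻¹ * ((x'⁻¹ * y') * (y'⁻¹ * y)) := by group
    have h3 := (hC.absorb hP h1 h2 hy).1
    have h4 : x'⁻¹ * y' * (y'⁻¹ * y) ∉ C := fun h => h2 ((C.mul_mem_cancel_right hy).1 h)
    have h5 := (hC.absorb hP h3 h4 (C.inv_mem hx)).2
    rw [e]
    exact ⟨h5, fun h => h4 ((C.mul_mem_cancel_left (C.inv_mem hx)).1 h)⟩
  · rintro ⟨h1, h2⟩
    exact ⟨x, y, rfl, rfl, h1, h2⟩

private theorem coset_inv_notMem {P : Set G} (hP : Cone ⊤ P) {x : G} (hx : x ∈ P) : x⁻¹ ∉ P :=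
  fun h => hP.one (by simpa using hP.mul _ hx _ h)

private theorem coset_sto {P : Set G} (hP : Cone ⊤ P) {C : Subgroup G} (hC : Cvx P ⊤ C) :
    IsStrictTotalOrder (G ⧸ C) (cosetLt P C) := by
  refine { toTrichotomous := ⟨?_⟩, toIsStrictOrder := { toIrrefl := ⟨?_⟩, toIsTrans := ⟨?_⟩ } }
  · intro a b
    induction a using QuotientGroup.induction_on with
    | H x =>
      induction b using QuotientGroup.induction_on with
      | H y =>
        intro h1 h2
        rw [cosetLt_mk hP hC] at h1 h2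
        rw [QuotientGroup.eq]
        by_contra h3
        rcases hP.tot (x⁻¹ * y) (Subgroup.mem_top _) (fun h => h3 (by rw [h]; exact C.one_mem))
          with h | h
        · exact h1 ⟨h, h3⟩
        · have e : (x⁻¹ * y)⁻¹ = y⁻¹ * x := by group
          rw [e] at h
          refine h2 ⟨h, fun h4 => h3 ?_⟩
          rw [← e] at h4
          exact (C.inv_mem_iff).1 h4
  · intro a h
    induction a using QuotientGroup.induction_on with
    | H x =>
      rw [cosetLt_mk hP hC, inv_mul_cancel] at h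
      exact h.2 C.one_mem
  · intro a b c h1 h2
    induction a using QuotientGroup.induction_on with
    | H x =>
      induction b using QuotientGroup.induction_on with
      | H y =>
        induction c using QuotientGroup.induction_on with
        | H z =>
          rw [cosetLt_mk hP hC] at h1 h2 ⊢
          have e : x⁻¹ * z = (x⁻¹ * y) * (y⁻¹ * z) := by group
          rw [e]
          refine ⟨hP.mul _ h1.1 _ h2.1, fun h => h1.2 ?_⟩
          refine hC.cvx _ h _ h1.1 ?_
          rw [inv_mul_cancel_left]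
          exact h2.1

/-- the ordered coset space of a maximal proper convex subgroup -/
theorem exists_dyn {G : Type u} [Group G] {P : Set G} (hP : Cone ⊤ P) {C : Subgroup G}
    (hC : Cvx P ⊤ C) (hne : C ≠ ⊤) (hmax : ∀ H, Cvx P ⊤ H → C ≤ H → H = C ∨ H = ⊤) :
    ∃ (Ω : Type u) (_ : LinearOrder Ω) (_ : MulAction G Ω) (o : Ω), Dyn G Ω P C o := by
  classical
  haveI := coset_sto hP hC
  letI : LinearOrder (G ⧸ C) := linearOrderOfSTO (cosetLt P C)
  have hlt : ∀ x y : G, ((x : G ⧸ C) < (y : G ⧸ C)) ↔ x⁻¹ * y ∈ P ∧ x⁻¹ * y ∉ C := fun x y =>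
    cosetLt_mk hP hC x y
  have hact : ∀ g x : G, g • (x : G ⧸ C) = ((g * x : G) : G ⧸ C) := fun _ _ => rfl
  have hstab : ∀ g : G, g • ((1 : G) : G ⧸ C) = ((1 : G) : G ⧸ C) ↔ g ∈ C := by
    intro g
    rw [hact, QuotientGroup.eq, mul_one, mul_one]
    exact C.inv_mem_iff
  have hpos : ∀ g ∈ P, g ∉ C → ((1 : G) : G ⧸ C) < g • ((1 : G) : G ⧸ C) := by
    intro g hg hgC
    rw [hact, hlt, inv_one, one_mul, mul_one]
    exact ⟨hg, hgC⟩
  have htrans : ∀ x : G ⧸ C, ∃ g : G, g • ((1 : G) : G ⧸ C) = x := by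
    intro x
    induction x using QuotientGroup.induction_on with
    | H x => exact ⟨x, by rw [hact, mul_one]⟩
  have hmono : ∀ (g : G) (x y : G ⧸ C), x < y → g • x < g • y := by
    intro g x y h
    induction x using QuotientGroup.induction_on with
    | H x =>
      induction y using QuotientGroup.induction_on with
      | H y =>
        rw [hact, hact, hlt]
        rw [hlt] at h
        have e : (g * x)⁻¹ * (g * y) = x⁻¹ * y := by group
        rw [e]
        exact h
  refine ⟨G ⧸ C, inferInstance, inferInstance, ((1 : G) : G ⧸ C), ⟨hmono, htrans, ?_, hstab, hpos⟩⟩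
  intro J h1 h2 h3 h4
  obtain ⟨o, ho⟩ : ∃ o : G ⧸ C, o = ((1 : G) : G ⧸ C) := ⟨_, rfl⟩
  rw [← ho] at hstab
  rw [← ho] at hpos
  rw [← ho] at htrans
  let H : Subgroup G :=
    { carrier := {g | g • o ∈ J o}
      one_mem' := by
        change (1 : G) • o ∈ J o
        rw [one_smul]
        exact h1 o
      mul_mem' := fun {g h} hg hh => by
        change (g * h) • o ∈ J o
        rw [mul_smul, ← h2 o (g • o) hg]
        exact h4 g _ _ hh
      inv_mem' := fun {g} hg => by
        change g⁻¹ • o ∈ J o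
        have h5 := h4 g⁻¹ _ _ hg
        rw [inv_smul_smul] at h5
        rw [h2 _ _ h5]
        exact h1 _ }
  have hmem : ∀ g, g ∈ H ↔ g • o ∈ J o := fun g => Iff.rfl
  have hCH : C ≤ H := by
    intro c hc
    rw [hmem, (hstab c).2 hc]
    exact h1 o
  have hHc : Cvx P ⊤ H := by
    refine ⟨le_top, fun x hx y hy hyx => ?_⟩
    rw [hmem] at hx ⊢
    refine h3 o o (y • o) (x • o) (h1 o) hx ?_ ?_
    · by_cases hyC : y ∈ C
      · exact ((hstab y).2 hyC).ge
      · exact (hpos y hy hyC).le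
    · by_cases hyC : y⁻¹ * x ∈ C
      · have h5 := (hstab _).2 hyC
        rw [mul_smul, inv_smul_eq_iff] at h5
        exact h5.ge
      · have h5 := hmono y _ _ (hpos _ hyx hyC)
        rw [← mul_smul, mul_inv_cancel_left] at h5
        exact h5.le
  rcases hmax H hHc hCH with h | h
  · left
    have h5 : ∀ y ∈ J o, y = o := by
      intro y hy
      obtain ⟨g, rfl⟩ := htrans y
      rw [hstab, ← h, hmem]
      exact hy
    intro x
    ext y
    rw [Set.mem_singleton_iff]
    constructor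
    · intro hy
      obtain ⟨g, rfl⟩ := htrans x
      have h6 := h4 g⁻¹ _ _ hy
      rw [inv_smul_smul] at h6
      exact inv_smul_eq_iff.1 (h5 _ h6)
    · rintro rfl
      exact h1 _
  · right
    have h5 : ∀ y, y ∈ J o := by
      intro y
      obtain ⟨g, rfl⟩ := htrans y
      rw [← hmem, h]
      exact Subgroup.mem_top g
    intro x
    ext y
    rw [h2 o x (h5 x)]
    exact ⟨fun _ => Set.mem_univ _, fun _ => h5 y⟩

end Pool.Agent.IsoOrd
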