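import Pool.Agent.IsoOrd.TarClass

/-!
# Consequences of Tararin's theorem, 1

* `tar_char`: `Q := {g ∈ Cs (j+1) | e⁻¹ g e ∈ P}` is a cone on `Cs (j+1)`; by `tar_class` `Cs j` is convex
  for `Q` (both signs are handled by the sign of `ψ`), and `e (Cs j) e⁻¹` is convex for `Q` as `Cs j` is
  convex for `P`. So they are comparable. If `e (Cs j) e⁻¹ < Cs j` take `x` in the difference: for every
  `y ∈ Cs (j+1)` some `y^p x^(-q)` (`p > 0`) is in `e (Cs j) e⁻¹ ≤ Cs j` (rank one of the conjugated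
  homomorphism), so `y^p ∈ Cs j`, `y ∈ Cs j`: contradiction with `Cs j < Cs (j+1)`. Symmetric for the
  other inclusion (use `e⁻¹`).
* `tar_finite`: `Q` is determined by the restriction of `ε` to `m < j` (every `x ≠ 1` of `Cs j` lies in
  exactly one `Cs (m+1) \ Cs m`), so map cones injectively to `Finset.powerset (range j)` or
  `Fin j → Prop`.
-/

set_option autoImplicit false

universe u

namespace Pool.Agent.IsoOrd

variable {G : Type*} [Group G]

/-- the conjugate of the cone `P` by `e`, restricted to `E` -/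
private theorem tarchar_cone {P : Set G} {E : Subgroup G} (hP : Cone ⊤ P) (e : G) :
    Cone E {g | g ∈ E ∧ e⁻¹ * g * e ∈ P} := by
  refine ⟨fun x hx => hx.1, ?_, ?_, ?_⟩
  · rintro x ⟨hx, hx'⟩ y ⟨hy, hy'⟩
    refine ⟨mul_mem hx hy, ?_⟩
    have : e⁻¹ * (x * y) * e = (e⁻¹ * x * e) * (e⁻¹ * y * e) := by group
    rw [this]
    exact hP.mul _ hx' _ hy'
  · rintro ⟨_, h1⟩
    have : e⁻¹ * 1 * e = 1 := by group
    rw [this] at h1
    exact hP.one h1
  · intro x hx hx1
    have hne : e⁻¹ * x * e ≠ 1 := by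
      intro h1
      apply hx1
      have h2 : x = e * (e⁻¹ * x * e) * e⁻¹ := by group
      rw [h2, h1]
      group
    rcases hP.tot _ (Subgroup.mem_top _) hne with h1 | h1
    · exact Or.inl ⟨hx, h1⟩
    · refine Or.inr ⟨inv_mem hx, ?_⟩
      have : e⁻¹ * x⁻¹ * e = (e⁻¹ * x * e)⁻¹ := by group
      rw [this]
      exact h1

/-- the lower group of a jump is convex for `P` -/
private theorem tarchar_cvx {P : Set G} {E H : Subgroup G} {ψ : G → ℚ}
    (J : Jump P E H ψ) {y k : G} (hy : y ∈ E) (hk : k ∈ H) (hyP : y ∈ P) (h : y⁻¹ * k ∈ P) :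
    y ∈ H := by
  by_contra hcon
  have hkE := J.le hk
  have h1 := J.pos y hy hcon hyP
  have h2 : y⁻¹ * k ∉ H := by
    intro h3
    apply hcon
    have h4 : y⁻¹ ∈ H := by
      have h5 := mul_mem h3 (inv_mem hk)
      have h6 : y⁻¹ * k * k⁻¹ = y⁻¹ := by group
      rwa [h6] at h5
    simpa using inv_mem h4
  have h3 := J.pos _ (mul_mem (inv_mem hy) hkE) h2 h
  rw [J.hom _ (inv_mem hy) _ hkE, J.inv hy, J.zero k hk] at h3
  linarith

/-- if `H ≤ K`, where `K` is a subset of `E` closed under multiplication, inversion and roots and `H`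
is the lower group of a rank one jump, then `K = H` or `K = E` -/
private theorem tarchar_max {P : Set G} {E H : Subgroup G} {ψ : G → ℚ} (hP : Cone ⊤ P)
    (J : Jump P E H ψ) {K : Subgroup G} (hHK : H ≤ K) {x : G} (hx : x ∈ K) (hxE : x ∈ E)
    (hxH : x ∉ H) (hroot : ∀ y ∈ E, ∀ p : ℕ, 0 < p → y ^ p ∈ K → y ∈ K) : E ≤ K := by
  intro y hy
  obtain ⟨p, q, hp, hpq, _⟩ := J.comm hP hy hxE hxH
  apply hroot y hy p hp
  have h1 := mul_mem (hHK hpq) (zpow_mem hx q)
  have h2 : y ^ p * x ^ (-q) * x ^ q = y ^ p := by group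
  rwa [h2] at h1

/-- the largest proper convex subgroup is characteristic -/
theorem tar_char {P : Set G} {j : ℕ} {Cs : ℕ → Subgroup G} (hP : Cone ⊤ P)
    (h : TarSer P (j + 1) Cs) (e : G) (he : ∀ x, x ∈ Cs (j + 1) ↔ e * x * e⁻¹ ∈ Cs (j + 1)) :
    ∀ x, x ∈ Cs j ↔ e * x * e⁻¹ ∈ Cs j := by
  obtain ⟨ψ, J⟩ := tc_jump h (Nat.lt_succ_self j)
  have hlt := h.lt j (Nat.lt_succ_self j)
  have hQ := tarchar_cone (E := Cs (j + 1)) hP e
  have hconv := tc_convex hP h (fun hQ' => tar_class hP (tc_restrict h) hQ') hQ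
  -- the conjugate of `Cs j`
  let K : Subgroup G := (Cs j).map (MulAut.conj e).toMonoidHom
  have hK : ∀ x, x ∈ K ↔ e⁻¹ * x * e ∈ Cs j := by
    intro x
    constructor
    · rintro ⟨y, hy, rfl⟩
      have : e⁻¹ * (MulAut.conj e).toMonoidHom y * e = y := by
        change e⁻¹ * (e * y * e⁻¹) * e = y
        group
      rw [this]
      exact hy
    · intro hx
      refine ⟨_, hx, ?_⟩
      change e * (e⁻¹ * x * e) * e⁻¹ = x
      group
  have heE : ∀ x, x ∈ Cs (j + 1) → e⁻¹ * x * e ∈ Cs (j + 1) := by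
    intro x hx
    rw [he]
    have : e * (e⁻¹ * x * e) * e⁻¹ = x := by group
    rwa [this]
  have hKE : K ≤ Cs (j + 1) := by
    intro x hx
    rw [hK] at hx
    have h1 := (he _).1 (J.le hx)
    have : e * (e⁻¹ * x * e) * e⁻¹ = x := by group
    rwa [this] at h1
  -- `K` is convex for `Q`
  have hKcvx : ∀ y, y ∈ Cs (j + 1) ∧ e⁻¹ * y * e ∈ P → ∀ k ∈ K,
      (y⁻¹ * k ∈ Cs (j + 1) ∧ e⁻¹ * (y⁻¹ * k) * e ∈ P) → y ∈ K := by
    rintro y ⟨hy, hyP⟩ k hk ⟨_, h2⟩
    rw [hK] at hk ⊢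
    refine tarchar_cvx J (heE y hy) hk hyP ?_
    have : (e⁻¹ * y * e)⁻¹ * (e⁻¹ * k * e) = e⁻¹ * (y⁻¹ * k) * e := by group
    rw [this]
    exact h2
  have hrootH : ∀ y ∈ Cs (j + 1), ∀ p : ℕ, 0 < p → y ^ p ∈ Cs j → y ∈ Cs j := by
    intro y hy p hp h1
    rw [J.mem_iff hP (pow_mem hy p), J.pow hy] at h1
    rw [J.mem_iff hP hy]
    rcases mul_eq_zero.1 h1 with h2 | h2
    · exfalso
      have : p = 0 := by exact_mod_cast h2
      omega
    · exact h2
  have hrootK : ∀ y ∈ Cs (j + 1), ∀ p : ℕ, 0 < p → y ^ p ∈ K → y ∈ K := by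
    intro y hy p hp h1
    rw [hK] at h1 ⊢
    refine hrootH _ (heE y hy) p hp ?_
    have h2 : ∀ n : ℕ, (e⁻¹ * y * e) ^ n = e⁻¹ * y ^ n * e := by
      intro n
      induction n with
      | zero => simp
      | succ n ih =>
        rw [pow_succ, ih, pow_succ]
        group
    rw [h2]
    exact h1
  -- comparability
  have hcomp : K ≤ Cs j ∨ Cs j ≤ K := by
    by_contra hcon
    rw [not_or] at hcon
    obtain ⟨h1, h2⟩ := hcon
    rw [SetLike.not_le_iff_exists] at h1 h2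
    obtain ⟨a, haK, haH⟩ := h1
    obtain ⟨b, hbH, hbK⟩ := h2
    -- make both positive
    have hpos : ∀ (A B : Subgroup G), A ≤ Cs (j + 1) → ∀ a ∈ A, a ∉ B →
        ∃ a' ∈ A, a' ∉ B ∧ (a' ∈ Cs (j + 1) ∧ e⁻¹ * a' * e ∈ P) := by
      intro A B hA a ha haB
      have ha1 : a ≠ 1 := by
        rintro rfl
        exact haB (one_mem B)
      rcases hQ.tot a (hA ha) ha1 with h3 | h3
      · exact ⟨a, ha, haB, h3⟩
      · exact ⟨a⁻¹, inv_mem ha, fun h4 => haB (by simpa using inv_mem h4), h3⟩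
    obtain ⟨a', ha'K, ha'H, ha'Q⟩ := hpos K (Cs j) hKE a haK haH
    obtain ⟨b', hb'H, hb'K, hb'Q⟩ := hpos (Cs j) K J.le b hbH hbK
    have hne : a'⁻¹ * b' ≠ 1 := by
      intro h3
      have h4 : a' = b' := inv_mul_eq_one.1 h3
      exact ha'H (h4 ▸ hb'H)
    rcases hQ.tot _ (mul_mem (inv_mem (hKE ha'K)) (J.le hb'H)) hne with h3 | h3
    · refine hconv a' (hKE ha'K) ha'H 1 (one_mem _) b' hb'H ?_ h3
      rw [inv_one, one_mul]
      exact ha'Q
    · have h4 : (a'⁻¹ * b')⁻¹ = b'⁻¹ * a' := by group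
      rw [h4] at h3
      exact hb'K (hKcvx b' hb'Q a' ha'K h3)
  have heq : ∀ x, x ∈ K ↔ x ∈ Cs j := by
    rcases hcomp with h1 | h1
    · intro x
      refine ⟨fun hx => h1 hx, fun hx => ?_⟩
      by_contra hxK
      -- `K < Cs j`
      have hle : Cs (j + 1) ≤ Cs j := by
        intro y hy
        have hy' : e⁻¹ * y * e ∈ Cs (j + 1) := heE y hy
        have hx' : e⁻¹ * x * e ∈ Cs (j + 1) := heE x (J.le hx)
        have hxH' : e⁻¹ * x * e ∉ Cs j := fun h2 => hxK ((hK x).2 h2)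
        obtain ⟨p, q, hp, hpq, _⟩ := J.comm hP hy' hx' hxH'
        refine hrootH y hy p hp ?_
        have h3 : y ^ p * x ^ (-q) ∈ K := by
          rw [hK]
          have h4 : e⁻¹ * (y ^ p * x ^ (-q)) * e = (e⁻¹ * y * e) ^ p * (e⁻¹ * x * e) ^ (-q) := by
            have h5 : (e⁻¹ * y * e) ^ p = e⁻¹ * y ^ p * e := by
              have := conj_pow (a := e⁻¹) (b := y) (i := p)
              rwa [inv_inv] at this
            have h6 : (e⁻¹ * x * e) ^ (-q) = e⁻¹ * x ^ (-q) * e := by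
              have := conj_zpow (a := e⁻¹) (b := x) (i := -q)
              rwa [inv_inv] at this
            rw [h5, h6]
            group
          rw [h4]
          exact hpq
        have h5 := mul_mem (h1 h3) (zpow_mem hx q)
        have h6 : y ^ p * x ^ (-q) * x ^ q = y ^ p := by group
        rwa [h6] at h5
      exact absurd hle (not_le_of_gt hlt)
    · intro x
      refine ⟨fun hx => ?_, fun hx => h1 hx⟩
      by_contra hxH
      have hle := tarchar_max hP J h1 hx (hKE hx) hxH hrootK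
      have hle' : Cs (j + 1) ≤ Cs j := by
        intro y hy
        have h2 := hle ((he y).1 hy)
        rw [hK] at h2
        have h3 : e⁻¹ * (e * y * e⁻¹) * e = y := by group
        rwa [h3] at h2
      exact absurd hle' (not_le_of_gt hlt)
  intro x
  rw [← heq (e * x * e⁻¹), hK]
  have : e⁻¹ * (e * x * e⁻¹) * e = x := by group
  rw [this]

/-- finitely many left orders -/
theorem tar_finite {P : Set G} {j : ℕ} {Cs : ℕ → Subgroup G} (hP : Cone ⊤ P)
    (h : TarSer P j Cs) : {Q : Set G | Cone (Cs j) Q}.Finite := by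
  classical
  let g : (Fin j → Prop) → Set G := fun ε =>
    {x | ∃ m : Fin j, x ∈ Cs (m + 1) ∧ x ∉ Cs m ∧ (ε m ↔ x ∈ P)}
  refine (Set.finite_range g).subset ?_
  intro Q hQ
  obtain ⟨ε, hε⟩ := tar_class hP h hQ
  refine ⟨fun m => ε m, ?_⟩
  ext x
  constructor
  · rintro ⟨m, h1, h2, h3⟩
    exact (hε m m.2 x h1 h2).2 h3
  · intro hx
    have hex : ∃ k, x ∈ Cs k := ⟨j, hQ.sub x hx⟩
    have h1 : x ∈ Cs (Nat.find hex) := Nat.find_spec hex
    have h2 : Nat.find hex ≤ j := Nat.find_min' hex (hQ.sub x hx)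
    have h3 : Nat.find hex ≠ 0 := by
      intro h0
      rw [h0, h.zero, Subgroup.mem_bot] at h1
      rw [h1] at hx
      exact hQ.one hx
    obtain ⟨m, hm⟩ := Nat.exists_eq_succ_of_ne_zero h3
    have h4 : x ∉ Cs m := Nat.find_min hex (by omega)
    rw [hm] at h1
    exact ⟨⟨m, by omega⟩, h1, h4, (hε m (by omega) x h1 h4).1 hx⟩

end Pool.Agent.IsoOrd
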