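import Pool.Agent.IsoOrd.Basic
import Pool.Agent.IsoOrd.TarChar

/-!
# Some element reverses the level below

`H = Cs (j+1)` = kernel of `ψ`, `H' = Cs j`, `φ : H → ℚ` the homomorphism of the field `hom` (kernel `H'`).
Suppose the contrary. `G` normalises `H` (kernel of `ψ`), so by `tar_char` it normalises `H'`, and for
`u ∈ P ∩ (H \ H')` and `e ∈ G` we get `e u e⁻¹ ∈ P ∩ (H \ H')`. So `u ↦ φ (e u e⁻¹)` equals `λ(e) φ`, with
`λ(e) > 0` rational, `λ` multiplicative and `λ = 1` on `H`.
Case `λ = 1` everywhere: for `x, y ∈ G` `φ [x,y]` is bilinear alternating on `G/H` (rank one), so it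
vanishes. Fix `x₀ ∉ H`; every `x` has `p ≥ 1`, `q ∈ ℤ`, `u ∈ H` with `x^p = x₀^q u`; `Ψ x := φ u / p` is a
well defined homomorphism `G → ℚ` extending `φ`, `Ψ x₀ = 0`. For large rational `M`,
`Ψ_M = M ψ + Ψ` is positive on `F \ H'`; `Q := {x | 0 < Ψ_M x ∨ (Ψ_M x = 0 ∧ x ∈ P)}` is a cone containing
`F`, so `Q = P` and the kernel of `Ψ_M` is convex; it contains some `x = x₀^q u ∉ H` but no element of
`H \ H'`: contradiction with `Cvx.total` and convexity of `H` (kernel of `ψ`, `ψ > 0` on `P \ H`).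
Case `λ e₁ ≠ 1`: replacing `e₁` by its inverse `e₁ ∈ P`. `τ e := φ (e e₁ e⁻¹ e₁⁻¹) / (1 - λ e₁)`; then
`ρ(e) s = λ(e) s + τ(e)` is an action on `ℚ` with `ρ(u) s = s + φ u` for `u ∈ H`, `ρ(e₁) 0 = 0`. By rank
one, `λ f > 1` for all `f ∈ P \ H` or `λ f < 1` for all of them. Take `x = φ (u^k)` with
`u ∈ H \ H'`, `|k|` large and the sign such that `ρ(f) x > x` for all `f ∈ F \ H`; `F ∩ H` is fine as
`ρ(u) x = x + φ u ≥ x`. `Q := {g | ρ(g) x > x ∨ (ρ(g) x = x ∧ g ∈ P)}` is a cone containing `F`, so `Q = P`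
and the stabiliser of `x` is convex; it contains `u^k e₁ u^(-k) ∉ H` but not `u`: contradiction.
-/

set_option autoImplicit false

universe u

namespace Pool.Agent.IsoOrd

variable {G : Type*} [Group G]

private theorem existsNeg_zpow {K : Subgroup G} {f : G → ℝ}
    (hf : ∀ x ∈ K, ∀ y ∈ K, f (x * y) = f x + f y) {x : G} (hx : x ∈ K) (n : ℤ) :
    f (x ^ n) = n * f x := by
  let Φ : K →* Multiplicative ℝ := MonoidHom.mk' (fun x => Multiplicative.ofAdd (f x)) (by
    intro a b
    rw [← ofAdd_add]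
    exact congrArg _ (hf a a.2 b b.2))
  have h := map_zpow Φ ⟨x, hx⟩ n
  have h2 := congrArg Multiplicative.toAdd h
  simpa [Φ] using h2

private theorem existsNeg_prop {K : Subgroup G} {f : G → ℚ} {g : G → ℝ}
    (hf : ∀ x ∈ K, ∀ y ∈ K, f (x * y) = f x + f y)
    (hg : ∀ x ∈ K, ∀ y ∈ K, g (x * y) = g x + g y)
    (h0 : ∀ x ∈ K, f x = 0 → g x = 0) {x y : G} (hx : x ∈ K) (hy : y ∈ K) :
    (f y : ℝ) * g x = f x * g y := by
  by_cases hfy : f y = 0
  · rw [hfy, h0 y hy hfy]
    simp
  · set r : ℚ := f x / f y with hr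
    have hr2 : (r.den : ℚ) * f x = r.num * f y := by
      have h1 : f x = r * f y := by
        rw [hr]
        field_simp
      have h2 : (r.den : ℚ) * r = r.num := by
        rw [mul_comm]
        exact Rat.mul_den_eq_num r
      rw [h1, ← mul_assoc, h2]
    have hz : x ^ (r.den : ℤ) * y ^ (-r.num) ∈ K :=
      K.mul_mem (K.zpow_mem hx _) (K.zpow_mem hy _)
    have hfR : ∀ x ∈ K, ∀ y ∈ K, ((f (x * y) : ℚ) : ℝ) = (f x : ℝ) + (f y : ℝ) := by
      intro x hx y hy
      rw [hf x hx y hy]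
      push_cast
      rfl
    have h1 : ((f (x ^ (r.den : ℤ) * y ^ (-r.num)) : ℚ) : ℝ) = 0 := by
      rw [hfR _ (K.zpow_mem hx _) _ (K.zpow_mem hy _),
        existsNeg_zpow (f := fun x => ((f x : ℚ) : ℝ)) hfR hx,
        existsNeg_zpow (f := fun x => ((f x : ℚ) : ℝ)) hfR hy]
      have h4 : ((r.den : ℚ) * f x - r.num * f y) = 0 := by rw [hr2, sub_self]
      have h5 := congrArg (fun q : ℚ => (q : ℝ)) h4
      push_cast at h5 ⊢
      linarith
    have h2 : g (x ^ (r.den : ℤ) * y ^ (-r.num)) = 0 := h0 _ hz (by exact_mod_cast h1)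
    rw [hg _ (K.zpow_mem hx _) _ (K.zpow_mem hy _), existsNeg_zpow hg hx,
      existsNeg_zpow hg hy] at h2
    push_cast at h2
    have h3 : (r.den : ℝ) * g x = r.num * g y := by linarith
    have h4 : (r.den : ℝ) * f x = r.num * f y := by exact_mod_cast hr2
    have h5 : (r.den : ℝ) ≠ 0 := by exact_mod_cast r.den_nz
    apply mul_left_cancel₀ h5
    calc (r.den : ℝ) * (f y * g x) = f y * (r.den * g x) := by ring
      _ = f y * (r.num * g y) := by rw [h3]
      _ = (r.num * f y) * g y := by ring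
      _ = (r.den * f x) * g y := by rw [h4]
      _ = r.den * (f x * g y) := by ring

/-- a finite number of conditions `a f * M + b f > 0` -/
private theorem existsNeg_large {S : Set G} (hS : S.Finite) (a b : G → ℚ)
    (ha : ∀ f ∈ S, 0 < a f) : ∃ M : ℚ, ∀ f ∈ S, 0 < a f * M + b f := by
  have h1 : ∀ᶠ M : ℚ in Filter.atTop, ∀ f ∈ S, 0 < a f * M + b f := by
    rw [Filter.eventually_all_finite hS]
    intro f hf
    filter_upwards [Filter.eventually_gt_atTop (-b f / a f)] with M hM
    rw [div_lt_iff₀ (ha f hf)] at hM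
    linarith
  exact h1.exists

/-- an affine action of `G` which extends the translations of `H` and moves a point upwards by
the elements of `F` outside `H` contradicts isolation -/
private theorem existsNeg_key {P F : Set G} (h : Isol ⊤ P F) {H H' : Subgroup G} (hne : H ≠ ⊤)
    {ψ φ lam τ : G → ℚ} (hψ : ∀ x y, ψ (x * y) = ψ x + ψ y) (hψ0 : ∀ x ∈ H, ψ x = 0)
    (hψp : ∀ x ∈ P, x ∉ H → 0 < ψ x)
    (hφ0 : ∀ x ∈ H', φ x = 0) (hφp : ∀ x ∈ H, x ∉ H' → x ∈ P → 0 < φ x)
    {u : G} (hu : u ∈ H) (huH' : u ∉ H') (huP : u ∈ P)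
    (hφ : ∀ x ∈ H, ∀ y ∈ H, φ (x * y) = φ x + φ y)
    (hl : ∀ x y, lam (x * y) = lam x * lam y) (hlp : ∀ x, 0 < lam x)
    (hl1 : ∀ x ∈ H, lam x = 1)
    (hτ : ∀ x y, τ (x * y) = lam x * τ y + τ x) (hτφ : ∀ x ∈ H, τ x = φ x)
    (x : ℚ) (hx : ∀ f ∈ F, f ∉ H → x < lam f * x + τ f) : False := by
  set A : G → ℚ := fun g => lam g * x + τ g with hA
  have hAmul : ∀ g g', A (g * g') = lam g * A g' + τ g := by
    intro g g'
    simp only [hA, hl, hτ]
    ring
  have hA1 : A 1 = x := by
    have h1 : lam 1 = 1 := hl1 1 H.one_mem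
    have h2 := hτ 1 1
    rw [mul_one, h1, one_mul] at h2
    have h3 : τ 1 = 0 := by linarith
    simp only [hA, h1, h3]
    ring
  have hAinv : ∀ g, x = lam g⁻¹ * A g + τ g⁻¹ := by
    intro g
    rw [← hAmul, inv_mul_cancel, hA1]
  set Q : Set G := {g | x < A g ∨ (A g = x ∧ g ∈ P)} with hQ
  have hmem : ∀ g, g ∈ Q ↔ x < A g ∨ (A g = x ∧ g ∈ P) := fun g => Iff.rfl
  have hcone : Cone ⊤ Q := by
    refine ⟨fun g _ => Subgroup.mem_top g, ?_, ?_, ?_⟩
    · intro g hg g' hg'
      rw [hmem] at hg hg' ⊢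
      rw [hAmul]
      have hlg := hlp g
      rcases hg' with hg' | ⟨hg', hgP'⟩
      · left
        have h1 : lam g * x < lam g * A g' := mul_lt_mul_of_pos_left hg' hlg
        have h2 : x ≤ A g := by
          rcases hg with hg | ⟨hg, _⟩
          · exact hg.le
          · exact hg.ge
        have h3 : A g = lam g * x + τ g := rfl
        linarith
      · rw [hg']
        rcases hg with hg | ⟨hg, hgP⟩
        · left
          exact hg
        · right
          exact ⟨hg, h.cone.mul g hgP g' hgP'⟩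
    · rw [hmem, hA1]
      rintro (h1 | ⟨_, h1⟩)
      · exact lt_irrefl _ h1
      · exact h.cone.one h1
    · intro g _ hg1
      rw [hmem, hmem]
      rcases lt_trichotomy (A g) x with h1 | h1 | h1
      · right
        left
        have h2 := hAinv g
        have h3 : lam g⁻¹ * A g < lam g⁻¹ * x := mul_lt_mul_of_pos_left h1 (hlp _)
        have h4 : A g⁻¹ = lam g⁻¹ * x + τ g⁻¹ := rfl
        linarith
      · have h2 := hAinv g
        have h4 : A g⁻¹ = x := by
          rw [h1] at h2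
          exact h2.symm
        rcases h.cone.tot g (Subgroup.mem_top g) hg1 with h5 | h5
        · left
          right
          exact ⟨h1, h5⟩
        · right
          right
          exact ⟨h4, h5⟩
      · left
        left
        exact h1
  have hAH : ∀ g ∈ H, A g = x + φ g := by
    intro g hg
    simp only [hA, hl1 g hg, hτφ g hg]
    ring
  have hFQ : F ⊆ Q := by
    intro f hf
    rw [hmem]
    by_cases hfH : f ∈ H
    · rw [hAH f hfH]
      by_cases hfH' : f ∈ H'
      · right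
        rw [hφ0 f hfH']
        exact ⟨by ring, h.sub hf⟩
      · left
        have := hφp f hfH hfH' (h.sub hf)
        linarith
    · left
      exact hx f hf hfH
  have hQP : Q = P := h.uniq Q hcone hFQ
  have hψ1 : ψ 1 = 0 := hψ0 1 H.one_mem
  have hψi : ∀ g, ψ g⁻¹ = -ψ g := by
    intro g
    have h1 := hψ g g⁻¹
    rw [mul_inv_cancel, hψ1] at h1
    linarith
  have hPos : ∀ g, 0 < ψ g → g ∈ P := by
    intro g hg
    have h1 : g ≠ 1 := by
      rintro rfl
      rw [hψ1] at hg
      exact lt_irrefl _ hg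
    rcases h.cone.tot g (Subgroup.mem_top g) h1 with h2 | h2
    · exact h2
    · exfalso
      have h3 : g⁻¹ ∉ H := by
        intro h4
        have := hψ0 _ h4
        rw [hψi] at this
        linarith
      have h4 := hψp _ h2 h3
      rw [hψi] at h4
      linarith
  obtain ⟨e, he⟩ : ∃ e : G, 0 < ψ e := by
    obtain ⟨g, hg⟩ : ∃ g : G, g ∉ H := by
      by_contra hcon
      push Not at hcon
      exact hne (eq_top_iff.mpr fun g _ => hcon g)
    have hg1 : g ≠ 1 := by
      rintro rfl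
      exact hg H.one_mem
    rcases h.cone.tot g (Subgroup.mem_top g) hg1 with h2 | h2
    · exact ⟨g, hψp g h2 hg⟩
    · exact ⟨g⁻¹, hψp _ h2 (fun h3 => hg (by simpa using H.inv_mem h3))⟩
  have hφu : 0 < φ u := hφp u hu huH' huP
  obtain ⟨n, hn⟩ := exists_nat_gt ((A e - x) / φ u)
  rw [div_lt_iff₀ hφu] at hn
  have hun : u ^ (-(n : ℤ)) ∈ H := H.zpow_mem hu _
  have hφn : φ (u ^ (-(n : ℤ))) = -(n * φ u) := by
    have h1 := existsNeg_zpow (K := H) (f := fun x => ((φ x : ℚ) : ℝ)) (by
      intro a ha b hb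
      rw [hφ a ha b hb]
      push_cast
      rfl) hu (-(n : ℤ))
    have h2 : ((φ (u ^ (-(n : ℤ))) : ℚ) : ℝ) = ((-(n * φ u) : ℚ) : ℝ) := by
      rw [h1]
      push_cast
      ring
    exact_mod_cast h2
  have hgP : u ^ (-(n : ℤ)) * e ∈ P := by
    apply hPos
    rw [hψ, hψ0 _ hun, zero_add]
    exact he
  rw [← hQP, hmem, hAmul, hl1 _ hun, hτφ _ hun, hφn] at hgP
  rcases hgP with h1 | ⟨h1, _⟩
  · linarith
  · linarith

/-- some element reverses the level below -/
theorem exists_neg {P F : Set G} (h : Isol ⊤ P F) {j : ℕ} {Cs : ℕ → Subgroup G}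
    (ht : TarSer P (j + 1) Cs) (hne : Cs (j + 1) ≠ ⊤) (ψ : G → ℚ)
    (hψ : ∀ x y, ψ (x * y) = ψ x + ψ y)
    (hψ0 : ∀ x ∈ Cs (j + 1), ψ x = 0) (hψp : ∀ x ∈ P, x ∉ Cs (j + 1) → 0 < ψ x) :
    ∃ e : G, ∃ u ∈ Cs (j + 1), u ∉ Cs j ∧ u ∈ P ∧ e * u * e⁻¹ ∉ Cs j ∧
      (e * u * e⁻¹)⁻¹ ∈ P := by
  by_contra hcon
  push Not at hcon
  set H := Cs (j + 1) with hH
  set H' := Cs j with hH'
  have hHH' : H' < H := ht.lt j (Nat.lt_succ_self j)
  obtain ⟨φ, hφ, hφ0, hφp⟩ := ht.hom j (Nat.lt_succ_self j)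
  rw [← hH] at hφ hφp
  rw [← hH'] at hφ0 hφp
  have hψ1 : ψ 1 = 0 := hψ0 1 H.one_mem
  have hψi : ∀ g, ψ g⁻¹ = -ψ g := by
    intro g
    have h1 := hψ g g⁻¹
    rw [mul_inv_cancel, hψ1] at h1
    linarith
  have hmem : ∀ x, x ∈ H ↔ ψ x = 0 := by
    intro x
    refine ⟨hψ0 x, fun hx => ?_⟩
    by_contra hxH
    have hx1 : x ≠ 1 := by
      rintro rfl
      exact hxH H.one_mem
    rcases h.cone.tot x (Subgroup.mem_top x) hx1 with h2 | h2
    · exact (hψp x h2 hxH).ne' hx
    · have h3 := hψp x⁻¹ h2 (fun h3 => hxH (by simpa using H.inv_mem h3))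
      rw [hψi, hx, neg_zero] at h3
      exact lt_irrefl _ h3
  have hψc : ∀ e x, ψ (e * x * e⁻¹) = ψ x := by
    intro e x
    rw [hψ, hψ, hψi]
    ring
  have hn : ∀ e x, x ∈ H → e * x * e⁻¹ ∈ H := by
    intro e x hx
    rw [hmem, hψc]
    exact (hmem x).mp hx
  have hn' : ∀ e x, x ∈ H' ↔ e * x * e⁻¹ ∈ H' := by
    intro e
    exact tar_char h.cone ht e (fun x => by rw [← hH, hmem, hmem, hψc])
  -- the kernel of `φ`
  have hφ1 : φ 1 = 0 := hφ0 1 H'.one_mem
  have hφi : ∀ x ∈ H, φ x⁻¹ = -φ x := by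
    intro x hx
    have h1 := hφ x hx x⁻¹ (H.inv_mem hx)
    rw [mul_inv_cancel, hφ1] at h1
    linarith
  have hker : ∀ x ∈ H, φ x = 0 → x ∈ H' := by
    intro x hx hx0
    by_contra hxH'
    have hx1 : x ≠ 1 := by
      rintro rfl
      exact hxH' H'.one_mem
    rcases h.cone.tot x (Subgroup.mem_top x) hx1 with h2 | h2
    · exact (hφp x hx hxH' h2).ne' hx0
    · have h3 := hφp x⁻¹ (H.inv_mem hx) (fun h3 => hxH' (by simpa using H'.inv_mem h3)) h2
      rw [hφi x hx, hx0, neg_zero] at h3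
      exact lt_irrefl _ h3
  -- a positive element of `H \ H'`
  obtain ⟨u, huH, huH', huP⟩ : ∃ u, u ∈ H ∧ u ∉ H' ∧ u ∈ P := by
    obtain ⟨v, hvH, hvH'⟩ := SetLike.exists_of_lt hHH'
    have hv1 : v ≠ 1 := by
      rintro rfl
      exact hvH' H'.one_mem
    rcases h.cone.tot v (Subgroup.mem_top v) hv1 with h2 | h2
    · exact ⟨v, hvH, hvH', h2⟩
    · exact ⟨v⁻¹, H.inv_mem hvH, fun h3 => hvH' (by simpa using H'.inv_mem h3), h2⟩
  have hφu : 0 < φ u := hφp u huH huH' huP
  -- the multiplier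
  set lam : G → ℚ := fun e => φ (e * u * e⁻¹) / φ u with hlam
  have hconj : ∀ e, ∀ v ∈ H, φ (e * v * e⁻¹) = lam e * φ v := by
    intro e v hv
    have h1 := existsNeg_prop (K := H) (f := φ) (g := fun v => ((φ (e * v * e⁻¹) : ℚ) : ℝ)) hφ
      (by
        intro a ha b hb
        have h2 : e * (a * b) * e⁻¹ = (e * a * e⁻¹) * (e * b * e⁻¹) := by group
        rw [h2, hφ _ (hn e a ha) _ (hn e b hb)]
        push_cast
        rfl)
      (by
        intro a ha ha0
        have h2 := hφ0 _ ((hn' e a).mp (hker a ha ha0))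
        rw [h2]
        simp) hv huH
    have h2 : φ u * φ (e * v * e⁻¹) = φ v * φ (e * u * e⁻¹) := by exact_mod_cast h1
    simp only [hlam]
    field_simp
    linarith
  have hlp : ∀ e, 0 < lam e := by
    intro e
    have h1 : e * u * e⁻¹ ∉ H' := fun h2 => huH' ((hn' e u).mpr h2)
    have h2 := hcon e u huH huH' huP h1
    have h3 : e * u * e⁻¹ ∈ P := by
      have h4 : e * u * e⁻¹ ≠ 1 := by
        intro h5
        rw [h5] at h1
        exact h1 H'.one_mem
      exact (h.cone.tot _ (Subgroup.mem_top _) h4).resolve_right h2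
    exact div_pos (hφp _ (hn e u huH) h1 h3) hφu
  have hl : ∀ x y, lam (x * y) = lam x * lam y := by
    intro x y
    have h1 : x * y * u * (x * y)⁻¹ = x * (y * u * y⁻¹) * x⁻¹ := by group
    have h2 := hconj x (y * u * y⁻¹) (hn y u huH)
    have h3 := hconj y u huH
    have h4 : lam (x * y) = φ (x * y * u * (x * y)⁻¹) / φ u := rfl
    rw [h4, h1, h2, h3]
    field_simp
  have hl1 : ∀ x ∈ H, lam x = 1 := by
    intro x hx
    have h1 : φ (x * u * x⁻¹) = φ u := by
      rw [hφ _ (H.mul_mem hx huH) _ (H.inv_mem hx), hφ _ hx _ huH, hφi x hx]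
      ring
    simp only [hlam, h1]
    exact div_self hφu.ne'
  have hcomm : ∀ x y : G, x * y * x⁻¹ * y⁻¹ ∈ H := by
    intro x y
    rw [hmem, hψ, hψ, hψ, hψi, hψi]
    ring
  by_cases hall : ∀ e, lam e = 1
  · -- the case of a trivial multiplier
    have hc : ∀ x y : G, φ (x * y * x⁻¹ * y⁻¹) = 0 := by
      intro x y
      by_cases hy : ψ y = 0
      · have hyH : y ∈ H := (hmem y).mpr hy
        have h1 := hconj x y hyH
        rw [hφ _ (hn x y hyH) _ (H.inv_mem hyH), h1, hφi y hyH, hall]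
        ring
      · have h1 := existsNeg_prop (K := ⊤) (f := ψ)
          (g := fun x => ((φ (x * y * x⁻¹ * y⁻¹) : ℚ) : ℝ)) (fun a _ b _ => hψ a b)
          (by
            intro a _ b _
            have h2 : a * b * y * (a * b)⁻¹ * y⁻¹ =
                (a * (b * y * b⁻¹ * y⁻¹) * a⁻¹) * (a * y * a⁻¹ * y⁻¹) := by group
            have h3 := hconj a (b * y * b⁻¹ * y⁻¹) (hcomm b y)
            rw [h2, hφ _ (hn a _ (hcomm b y)) _ (hcomm a y), h3, hall]
            push_cast
            ring)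
          (by
            intro a _ ha
            have haH : a ∈ H := (hmem a).mpr ha
            have h2 : a * y * a⁻¹ * y⁻¹ = a * (y * a⁻¹ * y⁻¹) := by group
            have h3 := hconj y a⁻¹ (H.inv_mem haH)
            rw [h2, hφ _ haH _ (hn y _ (H.inv_mem haH)), h3, hφi a haH, hall]
            push_cast
            ring) (Subgroup.mem_top x) (Subgroup.mem_top y)
        have h2 : y * y * y⁻¹ * y⁻¹ = 1 := by group
        have h3 : ψ y * φ (x * y * x⁻¹ * y⁻¹) = ψ x * φ (y * y * y⁻¹ * y⁻¹) := by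
          exact_mod_cast h1
        rw [h2, hφ1, mul_zero] at h3
        exact (mul_eq_zero.mp h3).resolve_left hy
    -- the quotient is abelian, the homomorphism extends
    obtain ⟨Ψ, hΨ, hΨφ⟩ : ∃ Ψ : G → ℚ, (∀ x y, Ψ (x * y) = Ψ x + Ψ y) ∧
        ∀ x ∈ H, Ψ x = φ x := by
      have hN : H'.Normal := ⟨fun x hx e => (hn' e x).mp hx⟩
      have hN2 : (H'.subgroupOf H).Normal := inferInstance
      have hab : ∀ a b : G ⧸ H', a * b = b * a := by
        intro a b
        induction a using QuotientGroup.induction_on with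
        | H x =>
          induction b using QuotientGroup.induction_on with
          | H y =>
            have h1 : ((x * y : G) : G ⧸ H') = ((y * x : G) : G ⧸ H') := by
              rw [QuotientGroup.eq]
              have h2 : (x * y)⁻¹ * (y * x) = y⁻¹ * x⁻¹ * y⁻¹⁻¹ * x⁻¹⁻¹ := by group
              rw [h2]
              exact hker _ (hcomm _ _) (hc _ _)
            exact h1
      let iG : CommGroup (G ⧸ H') := { (inferInstance : Group (G ⧸ H')) with mul_comm := hab }
      let f : H ⧸ (H'.subgroupOf H) →* G ⧸ H' :=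
        QuotientGroup.map (H'.subgroupOf H) H' H.subtype le_rfl
      have hf : Function.Injective f := by
        rw [injective_iff_map_eq_one]
        intro a
        induction a using QuotientGroup.induction_on with
        | H x =>
          intro h1
          have h2 : (((x : H) : G) : G ⧸ H') = 1 := h1
          rw [QuotientGroup.eq_one_iff] at h2 ⊢
          exact h2
      let iH : CommGroup (H ⧸ (H'.subgroupOf H)) :=
        { (inferInstance : Group (H ⧸ (H'.subgroupOf H))) with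
          mul_comm := fun a b => hf (by rw [map_mul, map_mul, hab]) }
      let Φ : H →* Multiplicative ℚ := MonoidHom.mk' (fun x => Multiplicative.ofAdd (φ x)) (by
        intro a b
        rw [← ofAdd_add]
        exact congrArg _ (hφ a a.2 b b.2))
      let g : H ⧸ (H'.subgroupOf H) →* Multiplicative ℚ :=
        QuotientGroup.lift (H'.subgroupOf H) Φ (by
          intro a ha
          have h1 : φ (a : G) = 0 := hφ0 _ ha
          change Multiplicative.ofAdd (φ (a : G)) = 1
          rw [h1]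
          rfl)
      let fA : Additive (H ⧸ (H'.subgroupOf H)) →+ Additive (G ⧸ H') := MonoidHom.toAdditive f
      let gA : Additive (H ⧸ (H'.subgroupOf H)) →+ ℚ := MonoidHom.toAdditiveLeft g
      obtain ⟨k, hk⟩ := (Module.Baer.of_divisible ℚ).extension_property_addMonoidHom fA hf gA
      refine ⟨fun x => k (Additive.ofMul (x : G ⧸ H')), ?_, ?_⟩
      · intro x y
        have h1 : (Additive.ofMul ((x * y : G) : G ⧸ H')) =
            Additive.ofMul (x : G ⧸ H') + Additive.ofMul (y : G ⧸ H') := rfl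
        exact (congrArg k h1).trans (map_add k _ _)
      · intro x hx
        have h1 := DFunLike.congr_fun hk
          (Additive.ofMul ((⟨x, hx⟩ : H) : H ⧸ (H'.subgroupOf H)))
        exact h1
    obtain ⟨M, hM⟩ := existsNeg_large (S := {f ∈ F | f ∉ H})
      (h.fin.subset (Set.sep_subset _ _)) ψ Ψ (fun f hf => hψp f (h.sub hf.1) hf.2)
    refine existsNeg_key h hne hψ hψ0 hψp hφ0 hφp huH huH' huP hφ (lam := fun _ => 1)
      (τ := fun x => ψ x * M + Ψ x) (fun _ _ => by ring) (fun _ => one_pos) (fun _ _ => rfl)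
      (fun x y => ?_) (fun x hx => ?_) 0 (fun f hf hfH => ?_)
    · simp only [hψ, hΨ]
      ring
    · simp only [hψ0 x hx, hΨφ x hx]
      ring
    · have := hM f ⟨hf, hfH⟩
      simp only [mul_zero, zero_add]
      exact this
  · -- the case of a non-trivial multiplier
    push Not at hall
    obtain ⟨e₁, he₁⟩ := hall
    have hd : (1 - lam e₁) ≠ 0 := fun h1 => he₁ (by linarith)
    set τ : G → ℚ := fun g => φ (g * e₁ * g⁻¹ * e₁⁻¹) / (1 - lam e₁) with hτd
    have hτ : ∀ x y, τ (x * y) = lam x * τ y + τ x := by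
      intro x y
      have h2 : x * y * e₁ * (x * y)⁻¹ * e₁⁻¹ =
          (x * (y * e₁ * y⁻¹ * e₁⁻¹) * x⁻¹) * (x * e₁ * x⁻¹ * e₁⁻¹) := by group
      have h3 := hconj x (y * e₁ * y⁻¹ * e₁⁻¹) (hcomm y e₁)
      simp only [hτd]
      rw [h2, hφ _ (hn x _ (hcomm y e₁)) _ (hcomm x e₁), h3]
      ring
    have hτφ : ∀ x ∈ H, τ x = φ x := by
      intro x hx
      have h2 : x * e₁ * x⁻¹ * e₁⁻¹ = x * (e₁ * x⁻¹ * e₁⁻¹) := by group
      have h3 := hconj e₁ x⁻¹ (H.inv_mem hx)
      simp only [hτd]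
      rw [h2, hφ _ hx _ (hn e₁ _ (H.inv_mem hx)), h3, hφi x hx]
      field_simp
      ring
    -- logarithms
    have hlog : ∀ x y : G, (ψ y : ℝ) * Real.log (lam x) = ψ x * Real.log (lam y) := by
      intro x y
      refine existsNeg_prop (K := ⊤) (f := ψ) (g := fun x => Real.log (lam x))
        (fun a _ b _ => hψ a b) ?_ ?_ (Subgroup.mem_top x) (Subgroup.mem_top y)
      · intro a _ b _
        have h1 : ((lam a : ℚ) : ℝ) ≠ 0 := by exact_mod_cast (hlp a).ne'
        have h2 : ((lam b : ℚ) : ℝ) ≠ 0 := by exact_mod_cast (hlp b).ne'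
        simp only [hl]
        push_cast
        exact Real.log_mul h1 h2
      · intro a _ ha
        rw [hl1 a ((hmem a).mpr ha)]
        simp
    have hlogne : Real.log (lam e₁) ≠ 0 := by
      have h1 : (0 : ℝ) < lam e₁ := by exact_mod_cast hlp e₁
      have h2 : ((lam e₁ : ℚ) : ℝ) ≠ 1 := by exact_mod_cast he₁
      exact Real.log_ne_zero_of_pos_of_ne_one h1 h2
    have hψe₁ : ψ e₁ ≠ 0 := fun h1 => he₁ (hl1 e₁ ((hmem e₁).mpr h1))
    set κ : ℝ := Real.log (lam e₁) / ψ e₁ with hκ
    have hψe₁' : ((ψ e₁ : ℚ) : ℝ) ≠ 0 := by exact_mod_cast hψe₁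
    have hκ0 : κ ≠ 0 := div_ne_zero hlogne hψe₁'
    have hlogκ : ∀ x, Real.log (lam x) = κ * ψ x := by
      intro x
      have h1 := hlog x e₁
      rw [hκ]
      field_simp
      linarith
    rcases lt_or_gt_of_ne hκ0 with hκn | hκp
    · -- multipliers less than one
      have hlt : ∀ f ∈ P, f ∉ H → 0 < 1 - lam f := by
        intro f hf hfH
        have h1 : (0 : ℝ) < ψ f := by exact_mod_cast hψp f hf hfH
        have h2 : Real.log (lam f) < 0 := by
          rw [hlogκ]
          exact mul_neg_of_neg_of_pos hκn h1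
        have h3 : (0 : ℝ) < lam f := by exact_mod_cast hlp f
        have h4 : ((lam f : ℚ) : ℝ) < 1 := by
          by_contra h5
          push Not at h5
          exact absurd (Real.log_nonneg h5) (not_le.mpr h2)
        have h5 : lam f < 1 := by exact_mod_cast h4
        linarith
      obtain ⟨M, hM⟩ := existsNeg_large (S := {f ∈ F | f ∉ H})
        (h.fin.subset (Set.sep_subset _ _)) (fun f => 1 - lam f) τ
        (fun f hf => hlt f (h.sub hf.1) hf.2)
      refine existsNeg_key h hne hψ hψ0 hψp hφ0 hφp huH huH' huP hφ hl hlp hl1 hτ hτφ (-M)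
        (fun f hf hfH => ?_)
      have := hM f ⟨hf, hfH⟩
      linarith
    · -- multipliers greater than one
      have hgt : ∀ f ∈ P, f ∉ H → 0 < lam f - 1 := by
        intro f hf hfH
        have h1 : (0 : ℝ) < ψ f := by exact_mod_cast hψp f hf hfH
        have h2 : 0 < Real.log (lam f) := by
          rw [hlogκ]
          exact mul_pos hκp h1
        have h3 : (0 : ℝ) < lam f := by exact_mod_cast hlp f
        have h4 : (1 : ℝ) < ((lam f : ℚ) : ℝ) := by
          by_contra h5
          push Not at h5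
          exact absurd (Real.log_nonpos h3.le h5) (not_le.mpr h2)
        have h5 : 1 < lam f := by exact_mod_cast h4
        linarith
      obtain ⟨M, hM⟩ := existsNeg_large (S := {f ∈ F | f ∉ H})
        (h.fin.subset (Set.sep_subset _ _)) (fun f => lam f - 1) τ
        (fun f hf => hgt f (h.sub hf.1) hf.2)
      refine existsNeg_key h hne hψ hψ0 hψp hφ0 hφp huH huH' huP hφ hl hlp hl1 hτ hτφ M
        (fun f hf hfH => ?_)
      have := hM f ⟨hf, hfH⟩
      linarith

end Pool.Agent.IsoOrd
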