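import Pool.Agent.IsoOrd.JNe

/-!
# No cofinal element: contradiction

`Jset N` satisfies the hypotheses of `Prim` (`Jset_partition`; convexity since the sets `comp a x` are
convex; equivariance since `g • comp a x = comp (g a g⁻¹) (g x)`). So `J x = {x}` for all `x`
(excluded by `Jset_ne`) or `J x = univ`: by `hnt` and transitivity some `a ∈ N` moves `o`, `J o ⊆ comp a o`,
contradiction to `hnc`.
-/

set_option autoImplicit false
set_option linter.unusedSectionVars false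

universe u

namespace Pool.Agent.IsoOrd

variable {G : Type*} [Group G]

section Act

variable {Ω : Type*} [LinearOrder Ω] [MulAction G Ω]

private theorem mono_le (hm : Mono G Ω) (g : G) {x y : Ω} (h : x ≤ y) : g • x ≤ g • y := by
  rcases h.lt_or_eq with h | h
  · exact (hm g _ _ h).le
  · rw [h]

private theorem conj_zpow_smul (g a : G) (m : ℤ) (x : Ω) :
    (g⁻¹ * a * g) ^ m • x = g⁻¹ • a ^ m • g • x := by
  have h := conj_zpow (i := m) (a := g⁻¹) (b := a)
  rw [inv_inv] at h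
  rw [h, mul_smul, mul_smul]

/-- no cofinal element: contradiction -/
theorem no_cofinal {P F : Set G} (h : Isol ⊤ P F) {C : Subgroup G} (hne : C ≠ ⊤) {o : Ω}
    (hd : Dyn G Ω P C o) (htop : TopAlt P C) (hlev : LevBound C)
    (hmax : ∀ H, Cvx P ⊤ H → C ≤ H → H = C ∨ H = ⊤) {N K : Subgroup G} (hNn : N.Normal)
    (hN : RelNFS N K) (hK : ∀ k ∈ K, ∀ x : Ω, k • x = x)
    (hnt : ∃ a ∈ N, ∃ x : Ω, a • x ≠ x) (hnc : ∀ a ∈ N, ∀ x : Ω, comp a x ≠ Set.univ) :
    False := by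
  have hP : Cone ⊤ P := h.cone
  have htr : ∀ x y : Ω, ∃ g : G, g • x = y := by
    intro x y
    obtain ⟨g, hg⟩ := hd.trans x
    obtain ⟨k, hk⟩ := hd.trans y
    refine ⟨k * g⁻¹, ?_⟩
    rw [mul_smul, ← hg, inv_smul_smul, hk]
  have p1 : ∀ x : Ω, x ∈ Jset N x := by
    intro x a _ _
    exact ⟨⟨0, by rw [zpow_zero, one_smul]⟩, ⟨0, by rw [zpow_zero, one_smul]⟩⟩
  have p2 : ∀ x y : Ω, y ∈ Jset N x → Jset N y = Jset N x :=
    Jset_partition hd.mono htr hP hd.stab hlev hNn hN hK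
  have p3 : ∀ x y z w : Ω, y ∈ Jset N x → w ∈ Jset N x → y ≤ z → z ≤ w → z ∈ Jset N x := by
    intro x y z w hy hw hyz hzw a ha hax
    obtain ⟨⟨m, hm⟩, -⟩ := hy a ha hax
    obtain ⟨-, ⟨n, hn⟩⟩ := hw a ha hax
    exact ⟨⟨m, hm.trans hyz⟩, ⟨n, hzw.trans hn⟩⟩
  have p4 : ∀ (g : G) (x y : Ω), y ∈ Jset N x → g • y ∈ Jset N (g • x) := by
    intro g x y hy a ha hax
    have hc : g⁻¹ * a * g ∈ N := by
      have := hNn.conj_mem a ha g⁻¹
      rwa [inv_inv] at this
    have hcx : (g⁻¹ * a * g) • x ≠ x := by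
      intro h2
      apply hax
      rw [mul_smul, mul_smul] at h2
      exact inv_smul_eq_iff.1 h2
    obtain ⟨⟨m, hm⟩, ⟨n, hn⟩⟩ := hy _ hc hcx
    refine ⟨⟨m, ?_⟩, ⟨n, ?_⟩⟩
    · rw [conj_zpow_smul] at hm
      have h2 := mono_le hd.mono g hm
      rwa [smul_inv_smul] at h2
    · rw [conj_zpow_smul] at hn
      have h2 := mono_le hd.mono g hn
      rwa [smul_inv_smul] at h2
  rcases hd.prim (Jset N) p1 p2 p3 p4 with h1 | h1
  · exact Jset_ne h hne hd htop hmax hNn hN hK (h1 o)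
  · obtain ⟨a, ha, x, hx⟩ := hnt
    apply hnc a ha x
    rw [Set.eq_univ_iff_forall]
    intro z
    have hz : z ∈ Jset N x := by
      rw [h1]
      exact Set.mem_univ z
    exact hz a ha hx

end Act

end Pool.Agent.IsoOrd
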