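import Pool.Agent.IsoOrd.Basic

/-!
# From real to rational values

Lemma: for finitely many positive reals `r₁, ..., r_n` there is a ℚ-linear map `π : ℝ → ℚ` with
`π r_i > 0` for all `i` (finite dimensional ℚ-subspace spanned by them, basis `b₁..b_d` of it, replace `b_k`
by close rationals, extend to `ℝ` by a complement).
Apply it to the values `t f`, `f ∈ F \ C` (positive). `Q := {x | 0 < π (t x) ∨ (π (t x) = 0 ∧ x ∈ P)}` is a
cone containing `F`, so `Q = P`. Hence the kernel of `π ∘ t` is a convex subgroup for `P`; it contains `C`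
and misses `f ∈ F \ C`, so it is `C` by maximality. Take `ψ = π ∘ t`.
-/

set_option autoImplicit false

universe u

namespace Pool.Agent.IsoOrd

variable {G : Type*} [Group G]

private theorem exists_rat_map (S : Set ℝ) (hS : S.Finite) (hpos : ∀ r ∈ S, 0 < r) :
    ∃ π : ℝ →ₗ[ℚ] ℚ, ∀ r ∈ S, 0 < π r := by
  classical
  let W : Submodule ℚ ℝ := Submodule.span ℚ S
  have : Module.Finite ℚ W := Module.Finite.span_of_finite ℚ hS
  let b := Module.finBasis ℚ W
  have hmem : ∀ r ∈ S, r ∈ W := fun r hr => Submodule.subset_span hr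
  -- the open set of admissible values on the basis
  let U : Set (Fin (Module.finrank ℚ W) → ℝ) :=
    {x | ∀ r, ∀ hr : r ∈ S, 0 < ∑ k, ((b.repr ⟨r, hmem r hr⟩ k : ℚ) : ℝ) * x k}
  have hU : IsOpen U := by
    have : U = ⋂ r ∈ S, {x | ∀ hr : r ∈ S, 0 < ∑ k, ((b.repr ⟨r, hmem r hr⟩ k : ℚ) : ℝ) * x k} := by
      ext x
      simp only [Set.mem_iInter]
      constructor
      · intro h r _ hr
        exact h r hr
      · intro h r hr
        exact h r hr hr
    rw [this]
    apply hS.isOpen_biInter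
    intro r hr
    have : {x : Fin (Module.finrank ℚ W) → ℝ |
        ∀ hr : r ∈ S, 0 < ∑ k, ((b.repr ⟨r, hmem r hr⟩ k : ℚ) : ℝ) * x k} =
        {x | 0 < ∑ k, ((b.repr ⟨r, hmem r hr⟩ k : ℚ) : ℝ) * x k} := by
      ext x
      exact ⟨fun h => h hr, fun h _ => h⟩
    rw [this]
    exact isOpen_lt continuous_const (by fun_prop)
  have hb : (fun k => ((b k : W) : ℝ)) ∈ U := by
    intro r hr
    have h1 := b.sum_repr ⟨r, hmem r hr⟩
    have h2 := congrArg (Subtype.val) h1
    rw [Submodule.coe_sum] at h2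
    have h3 : (∑ k, ((b.repr ⟨r, hmem r hr⟩ k : ℚ) : ℝ) * ((b k : W) : ℝ)) = r := by
      refine Eq.trans ?_ h2
      apply Finset.sum_congr rfl
      intro k _
      rw [Submodule.coe_smul, Rat.smul_def]
    rw [h3]
    exact hpos r hr
  have hd : DenseRange (fun (q : Fin (Module.finrank ℚ W) → ℚ) (k : Fin (Module.finrank ℚ W)) =>
      ((q k : ℚ) : ℝ)) := DenseRange.piMap (fun _ => Rat.denseRange_cast)
  obtain ⟨q, hq⟩ := hd.exists_mem_open hU ⟨_, hb⟩
  obtain ⟨π, hπ⟩ := LinearMap.exists_extend (b.constr ℚ q : W →ₗ[ℚ] ℚ)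
  refine ⟨π, fun r hr => ?_⟩
  have h1 : π r = b.constr ℚ q ⟨r, hmem r hr⟩ := by
    rw [← hπ]
    rfl
  have h2 := hq r hr
  rw [h1, Module.Basis.constr_apply_fintype]
  simp only [Module.Basis.equivFun_apply, smul_eq_mul]
  have h3 : (0 : ℝ) < ((∑ k, b.repr ⟨r, hmem r hr⟩ k * q k : ℚ) : ℝ) := by
    rw [Rat.cast_sum]
    refine lt_of_lt_of_eq h2 (Finset.sum_congr rfl fun k _ => ?_)
    rw [Rat.cast_mul]
  exact_mod_cast h3

/-- from a real valued homomorphism to a rational valued one -/
theorem rank_one {P F : Set G} (h : Isol ⊤ P F) {C : Subgroup G} (hC : Cvx P ⊤ C)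
    (hmax : ∀ H, Cvx P ⊤ H → C ≤ H → H = C ∨ H = ⊤) (hF : ∃ f ∈ F, f ∉ C)
    (t : G → ℝ) (ht : ∀ x y, t (x * y) = t x + t y) (ht0 : ∀ x ∈ C, t x = 0)
    (htpos : ∀ x ∈ P, x ∉ C → 0 < t x) :
    ∃ ψ : G → ℚ, (∀ x y, ψ (x * y) = ψ x + ψ y) ∧ (∀ x ∈ C, ψ x = 0) ∧
      (∀ x ∈ P, x ∉ C → 0 < ψ x) := by
  obtain ⟨π, hπ⟩ := exists_rat_map (t '' (F \ (C : Set G)))
    ((h.fin.subset Set.sdiff_subset).image t) (by
      rintro r ⟨f, ⟨hf, hfC⟩, rfl⟩
      exact htpos f (h.sub hf) hfC)
  have hmul : ∀ x y, π (t (x * y)) = π (t x) + π (t y) := by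
    intro x y
    rw [ht, map_add]
  have hone : π (t 1) = 0 := by
    have := hmul 1 1
    rw [one_mul] at this
    linarith
  have hinv : ∀ x, π (t x⁻¹) = - π (t x) := by
    intro x
    have := hmul x⁻¹ x
    rw [inv_mul_cancel, hone] at this
    linarith
  set Q : Set G := {x | 0 < π (t x) ∨ (π (t x) = 0 ∧ x ∈ P)} with hQ
  have hcone : Cone ⊤ Q := by
    constructor
    · intro x _
      trivial
    · intro x hx y hy
      rw [hQ, Set.mem_ofPred_eq, hmul]
      rcases hx with hx | ⟨hx, hxP⟩ <;> rcases hy with hy | ⟨hy, hyP⟩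
      · left
        linarith
      · left
        linarith
      · left
        linarith
      · right
        exact ⟨by linarith, h.cone.mul x hxP y hyP⟩
    · rintro (h1 | ⟨_, h1⟩)
      · linarith
      · exact h.cone.one h1
    · intro x _ hx
      rcases lt_trichotomy (π (t x)) 0 with h1 | h1 | h1
      · right
        left
        rw [hinv]
        linarith
      · rcases h.cone.tot x trivial hx with h2 | h2
        · left
          right
          exact ⟨h1, h2⟩
        · right
          right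
          exact ⟨by rw [hinv]; linarith, h2⟩
      · left
        left
        exact h1
  have hFQ : F ⊆ Q := by
    intro f hf
    by_cases hfC : f ∈ C
    · right
      exact ⟨by rw [ht0 f hfC, map_zero], h.sub hf⟩
    · left
      exact hπ _ ⟨f, ⟨hf, hfC⟩, rfl⟩
  have hQP : Q = P := h.uniq Q hcone hFQ
  have hnn : ∀ x ∈ P, 0 ≤ π (t x) := by
    intro x hx
    rw [← hQP] at hx
    rcases hx with hx | ⟨hx, -⟩
    · exact hx.le
    · exact hx.ge
  let H : Subgroup G :=
    { carrier := {x | π (t x) = 0}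
      mul_mem' := by
        intro x y hx hy
        change π (t (x * y)) = 0
        change π (t x) = 0 at hx
        change π (t y) = 0 at hy
        rw [hmul, hx, hy, add_zero]
      one_mem' := hone
      inv_mem' := by
        intro x hx
        change π (t x⁻¹) = 0
        change π (t x) = 0 at hx
        rw [hinv, hx, neg_zero] }
  have hHmem : ∀ x, x ∈ H ↔ π (t x) = 0 := fun _ => Iff.rfl
  have hHcvx : Cvx P ⊤ H := by
    constructor
    · exact le_top
    · intro x hx y hy hyx
      rw [hHmem] at hx ⊢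
      have h1 := hnn y hy
      have h2 := hnn _ hyx
      rw [hmul, hinv, hx] at h2
      linarith
  have hCH : C ≤ H := by
    intro x hx
    rw [hHmem, ht0 x hx, map_zero]
  have hHC : H = C := by
    rcases hmax H hHcvx hCH with h1 | h1
    · exact h1
    · exfalso
      obtain ⟨f, hf, hfC⟩ := hF
      have h2 : f ∈ H := by rw [h1]; trivial
      rw [hHmem] at h2
      have h3 := hπ _ ⟨f, ⟨hf, hfC⟩, rfl⟩
      linarith
  refine ⟨fun x => π (t x), hmul, fun x hx => by simp only [ht0 x hx, map_zero], fun x hx hxC => ?_⟩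
  refine lt_of_le_of_ne (hnn x hx) (fun h1 => hxC ?_)
  rw [← hHC, hHmem]
  exact h1.symm

end Pool.Agent.IsoOrd
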