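import Pool.Agent.IsoOrd.TarClass

/-!
# Consequences of Tararin's theorem, 3; transport and extension of series

* `tar_levBound`: `lev x` := least `m` with `x ∈ Cs m` (for `x ∈ Cs j`; anything otherwise). For `a, b ∈ Q`
  of the same level `m + 1` (level 0 is impossible since `1 ∉ Q`), `ψ a` and `ψ b` have the same sign, given by
  `ε m`. For `k` given choose `n` with `n |ψ b| > k |ψ a|`; then `(a^k)⁻¹ b^n` and `b^n (a^k)⁻¹` are outside
  `Cs m`, have the `ψ` sign of `b`, so they are in `Q` by `tar_class`.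
* `TarSer.map`: extend `ψ : C → ℚ` to `G` by zero outside `C`.
* `TarSer.extend`: the new last term is `⊤`, all fields are immediate (case `m < j` and `m = j`).
-/

set_option autoImplicit false

universe u

namespace Pool.Agent.IsoOrd

variable {G : Type*} [Group G]

private theorem TarLev_hom_one {D : Subgroup G} {ψ : G → ℚ}
    (h : ∀ x ∈ D, ∀ y ∈ D, ψ (x * y) = ψ x + ψ y) : ψ 1 = 0 := by
  have := h 1 D.one_mem 1 D.one_mem
  rw [mul_one] at this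
  linarith

private theorem TarLev_hom_inv {D : Subgroup G} {ψ : G → ℚ}
    (h : ∀ x ∈ D, ∀ y ∈ D, ψ (x * y) = ψ x + ψ y) {x : G} (hx : x ∈ D) : ψ x⁻¹ = -ψ x := by
  have := h x hx x⁻¹ (D.inv_mem hx)
  rw [mul_inv_cancel, TarLev_hom_one h] at this
  linarith

private theorem TarLev_hom_pow {D : Subgroup G} {ψ : G → ℚ}
    (h : ∀ x ∈ D, ∀ y ∈ D, ψ (x * y) = ψ x + ψ y) {x : G} (hx : x ∈ D) (n : ℕ) :
    ψ (x ^ n) = n * ψ x := by
  induction n with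
  | zero => rw [pow_zero, TarLev_hom_one h]; simp
  | succ n ih =>
    rw [pow_succ, h _ (D.pow_mem hx n) _ hx, ih]
    push_cast
    ring

private theorem TarLev_sign {P : Set G} (hP : Cone ⊤ P) {D H : Subgroup G} {ψ : G → ℚ}
    (h : ∀ x ∈ D, ∀ y ∈ D, ψ (x * y) = ψ x + ψ y) (h0 : ∀ x ∈ H, ψ x = 0)
    (hp : ∀ x ∈ D, x ∉ H → x ∈ P → 0 < ψ x) {x : G} (hx : x ∈ D) (hne : ψ x ≠ 0) :
    x ∉ H ∧ (x ∈ P ↔ 0 < ψ x) := by
  have h1 : x ∉ H := fun hxH => hne (h0 x hxH)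
  refine ⟨h1, hp x hx h1, fun hpos => ?_⟩
  have hx1 : x ≠ 1 := by
    rintro rfl
    exact h1 H.one_mem
  rcases hP.tot x (Subgroup.mem_top x) hx1 with h2 | h2
  · exact h2
  · exfalso
    have h3 := hp x⁻¹ (D.inv_mem hx) (fun h4 => h1 (by simpa using H.inv_mem h4)) h2
    rw [TarLev_hom_inv h hx] at h3
    linarith

theorem tar_levBound {P : Set G} {j : ℕ} {Cs : ℕ → Subgroup G} (hP : Cone ⊤ P)
    (h : TarSer P j Cs) : LevBound (Cs j) := by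
  classical
  refine ⟨j, fun x => sInf {m | x ∈ Cs m}, fun x hx => Nat.sInf_le hx, ?_, ?_⟩
  · intro x _
    simp only [inv_mem_iff]
  intro Q hQ a ha b hb hab k
  have hlev : ∀ c ∈ Q, c ∈ Cs (sInf {m | c ∈ Cs m}) ∧ sInf {m | c ∈ Cs m} ≤ j ∧
      ∀ m, m < sInf {m | c ∈ Cs m} → c ∉ Cs m := by
    intro c hc
    have hne : {m | c ∈ Cs m}.Nonempty := ⟨j, hQ.sub c hc⟩
    exact ⟨Nat.sInf_mem hne, Nat.sInf_le (hQ.sub c hc), fun m hm => Nat.notMem_of_lt_sInf hm⟩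
  obtain ⟨ha1, haj, ha2⟩ := hlev a ha
  obtain ⟨hb1, hbj, hb2⟩ := hlev b hb
  simp only at hab
  rw [← hab] at hb1 hbj hb2
  obtain ⟨m, hm⟩ : ∃ m, sInf {m | a ∈ Cs m} = m + 1 := by
    rcases Nat.exists_eq_succ_of_ne_zero (n := sInf {m | a ∈ Cs m}) (by
      intro h0
      rw [h0, h.zero, Subgroup.mem_bot] at ha1
      exact hQ.one (ha1 ▸ ha)) with ⟨m, hm⟩
    exact ⟨m, hm⟩
  rw [hm] at ha1 haj ha2 hb1 hbj hb2
  have hmj : m < j := haj
  have ha3 := ha2 m (Nat.lt_succ_self m)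
  have hb3 := hb2 m (Nat.lt_succ_self m)
  obtain ⟨ψ, hψ, hψ0, hψp⟩ := h.hom m hmj
  obtain ⟨ε, hε⟩ := tar_class hP h hQ
  -- nonvanishing
  have hnz : ∀ c ∈ Cs (m + 1), c ∉ Cs m → ψ c ≠ 0 := by
    intro c hc hcm
    have hc1 : c ≠ 1 := by
      rintro rfl
      exact hcm (Cs m).one_mem
    rcases hP.tot c (Subgroup.mem_top c) hc1 with h2 | h2
    · exact (hψp c hc hcm h2).ne'
    · have h3 := hψp c⁻¹ ((Cs (m + 1)).inv_mem hc) (fun h4 => hcm (by simpa using (Cs m).inv_mem h4)) h2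
      rw [TarLev_hom_inv hψ hc] at h3
      intro h0
      rw [h0] at h3
      simp at h3
  have hsa := TarLev_sign hP hψ hψ0 hψp ha1 (hnz a ha1 ha3)
  have hsb := TarLev_sign hP hψ hψ0 hψp hb1 (hnz b hb1 hb3)
  have hεa := (hε m hmj a ha1 ha3).1 ha
  have hεb := (hε m hmj b hb1 hb3).1 hb
  have hsame : 0 < ψ a ↔ 0 < ψ b := by
    rw [← hsa.2, ← hsb.2, ← hεa, ← hεb]
  -- key: an element of the sign of b is in Q
  have key : ∀ z ∈ Cs (m + 1), ψ z ≠ 0 → (0 < ψ z ↔ 0 < ψ b) → z ∈ Q := by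
    intro z hz hz0 hzb
    have hsz := TarLev_sign hP hψ hψ0 hψp hz hz0
    rw [hε m hmj z hz hsz.1, hsz.2, hzb, ← hsb.2]
    exact hεb
  have hbnz := hnz b hb1 hb3
  have hanz := hnz a ha1 ha3
  obtain ⟨n, hn⟩ := exists_nat_gt ((k : ℚ) * |ψ a| / |ψ b|)
  have hn' : (k : ℚ) * |ψ a| < n * |ψ b| := by
    rwa [div_lt_iff₀ (abs_pos.2 hbnz)] at hn
  have hval : -((k : ℚ) * ψ a) + n * ψ b ≠ 0 ∧ (0 < -((k : ℚ) * ψ a) + n * ψ b ↔ 0 < ψ b) := by
    by_cases hbp : 0 < ψ b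
    · have hap := hsame.2 hbp
      rw [abs_of_pos hap, abs_of_pos hbp] at hn'
      exact ⟨by linarith, fun _ => hbp, fun _ => by linarith⟩
    · have hbn : ψ b < 0 := lt_of_le_of_ne (not_lt.1 hbp) hbnz
      have han : ψ a < 0 := lt_of_le_of_ne (not_lt.1 fun h => hbp (hsame.1 h)) hanz
      rw [abs_of_neg han, abs_of_neg hbn] at hn'
      exact ⟨by linarith, fun h => by linarith, fun h => absurd h hbp⟩
  have hak : (a ^ k)⁻¹ ∈ Cs (m + 1) := (Cs (m + 1)).inv_mem ((Cs (m + 1)).pow_mem ha1 k)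
  have hbn : b ^ n ∈ Cs (m + 1) := (Cs (m + 1)).pow_mem hb1 n
  have e1 : ψ ((a ^ k)⁻¹) = -((k : ℚ) * ψ a) := by
    rw [TarLev_hom_inv hψ ((Cs (m + 1)).pow_mem ha1 k), TarLev_hom_pow hψ ha1]
  have e2 : ψ (b ^ n) = n * ψ b := TarLev_hom_pow hψ hb1 n
  refine ⟨n, key _ (mul_mem hak hbn) ?_ ?_, key _ (mul_mem hbn hak) ?_ ?_⟩
  · rw [hψ _ hak _ hbn, e1, e2]; exact hval.1
  · rw [hψ _ hak _ hbn, e1, e2]; exact hval.2
  · rw [hψ _ hbn _ hak, e1, e2, add_comm]; exact hval.1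
  · rw [hψ _ hbn _ hak, e1, e2, add_comm]; exact hval.2

/-- transport of the series from a subgroup -/
theorem TarSer.map {P : Set G} {C : Subgroup G} {j : ℕ} {Cs : ℕ → Subgroup C}
    (h : TarSer ((fun x : C => (x : G)) ⁻¹' P) j Cs) (hj : Cs j = ⊤) :
    TarSer P j (fun m => (Cs m).map C.subtype) ∧ (Cs j).map C.subtype = C := by
  classical
  have hmem : ∀ (m : ℕ) (x : G), x ∈ (Cs m).map C.subtype ↔ ∃ hx : x ∈ C, (⟨x, hx⟩ : C) ∈ Cs m := by
    intro m x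
    rw [Subgroup.mem_map]
    constructor
    · rintro ⟨y, hy, rfl⟩
      exact ⟨y.2, hy⟩
    · rintro ⟨hx, h1⟩
      exact ⟨⟨x, hx⟩, h1, rfl⟩
  refine ⟨⟨?_, ?_, ?_, ?_⟩, ?_⟩
  · rw [h.zero, Subgroup.map_bot]
  · intro m hm
    exact (Subgroup.map_lt_map_iff_of_injective (f := C.subtype) C.subtype_injective).2 (h.lt m hm)
  · intro m hm
    obtain ⟨ψ, h1, h2, h3⟩ := h.hom m hm
    refine ⟨fun x => if hx : x ∈ C then ψ ⟨x, hx⟩ else 0, ?_, ?_, ?_⟩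
    · intro x hx y hy
      obtain ⟨hxC, hx'⟩ := (hmem _ x).1 hx
      obtain ⟨hyC, hy'⟩ := (hmem _ y).1 hy
      simp only
      rw [dif_pos hxC, dif_pos hyC, dif_pos (C.mul_mem hxC hyC)]
      exact h1 _ hx' _ hy'
    · intro x hx
      obtain ⟨hxC, hx'⟩ := (hmem _ x).1 hx
      simp only
      rw [dif_pos hxC]
      exact h2 _ hx'
    · intro x hx hxm hxP
      obtain ⟨hxC, hx'⟩ := (hmem _ x).1 hx
      simp only
      rw [dif_pos hxC]
      exact h3 _ hx' (fun h4 => hxm ((hmem _ x).2 ⟨hxC, h4⟩)) hxP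
  · intro m hm
    obtain ⟨e, he, u, hu, hum, huP, h1, h2⟩ := h.neg m hm
    refine ⟨e, (hmem _ _).2 ⟨e.2, he⟩, u, (hmem _ _).2 ⟨u.2, hu⟩, ?_, huP, ?_, h2⟩
    · intro h3
      obtain ⟨_, h4⟩ := (hmem _ _).1 h3
      exact hum h4
    · intro h3
      obtain ⟨_, h4⟩ := (hmem _ _).1 h3
      exact h1 h4
  · rw [hj]
    ext x
    rw [Subgroup.mem_map]
    constructor
    · rintro ⟨y, _, rfl⟩
      exact y.2
    · intro hx
      exact ⟨⟨x, hx⟩, Subgroup.mem_top _, rfl⟩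

/-- extension of the series by one step -/
theorem TarSer.extend {P : Set G} {j : ℕ} {Cs : ℕ → Subgroup G} (ht : TarSer P j Cs)
    (hne : Cs j ≠ ⊤) (ψ : G → ℚ) (hψ : ∀ x y, ψ (x * y) = ψ x + ψ y)
    (hψ0 : ∀ x ∈ Cs j, ψ x = 0) (hψp : ∀ x ∈ P, x ∉ Cs j → 0 < ψ x)
    (hneg : ∀ i, j = i + 1 → ∃ e : G, ∃ u ∈ Cs j, u ∉ Cs i ∧ u ∈ P ∧ e * u * e⁻¹ ∉ Cs i ∧
      (e * u * e⁻¹)⁻¹ ∈ P) :
    TarSer P (j + 1) (fun m => if m ≤ j then Cs m else ⊤) := by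
  have h1 : ∀ m, m ≤ j → (if m ≤ j then Cs m else (⊤ : Subgroup G)) = Cs m :=
    fun m hm => if_pos hm
  have h2 : ∀ m, j < m → (if m ≤ j then Cs m else (⊤ : Subgroup G)) = ⊤ :=
    fun m hm => if_neg (not_le.2 hm)
  refine ⟨?_, ?_, ?_, ?_⟩
  · rw [h1 0 (Nat.zero_le j)]; exact ht.zero
  · intro m hm
    rw [h1 m (by omega)]
    by_cases hmj : m < j
    · rw [h1 (m + 1) hmj]; exact ht.lt m hmj
    · have : m = j := by omega
      subst this
      rw [h2 (m + 1) (by omega)]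
      exact lt_top_iff_ne_top.2 hne
  · intro m hm
    rw [h1 m (by omega)]
    by_cases hmj : m < j
    · rw [h1 (m + 1) hmj]; exact ht.hom m hmj
    · have : m = j := by omega
      subst this
      rw [h2 (m + 1) (by omega)]
      exact ⟨ψ, fun x _ y _ => hψ x y, hψ0, fun x _ hx hxP => hψp x hxP hx⟩
  · intro m hm
    rw [h1 m (by omega), h1 (m + 1) (by omega)]
    by_cases hmj : m + 1 < j
    · rw [h1 (m + 2) hmj]; exact ht.neg m hmj
    · have : j = m + 1 := by omega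
      subst this
      rw [h2 (m + 2) (by omega)]
      obtain ⟨e, u, hu, hum, huP, h3, h4⟩ := hneg m rfl
      exact ⟨e, Subgroup.mem_top e, u, hu, hum, huP, h3, h4⟩

end Pool.Agent.IsoOrd
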