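import Pool.Agent.IsoOrd.TarChar

/-!
# Consequences of Tararin's theorem, 2

`TopAlt P (Cs j)`. For `j = 0`: `Cs 0 = ⊥`, `R = {1}`, `c = 1`, `P ∩ ⊥` is empty. For `j = i + 1`: `c` any
element of `P ∩ Cs j` outside `Cs i`. If the sign `ε i` of `Q` is false then `c ∉ Q` so `c⁻¹ ∈ Q`.
Key lemma (induction on `j ≥ 1`): if `Q` is a cone on `Cs j` which agrees with `P` on
`Cs j \ Cs (j-1)` then there is `r ∈ Cs j` with `g ∈ P ↔ r⁻¹ g r ∈ Q` for all `g ∈ Cs j`. For `j = 1`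
take `r = 1`. Step to `j+1` with `H = Cs j`, `H' = Cs (j-1)`: if `Q` agrees with `P` on `H \ H'` use the
induction hypothesis for `Q ∩ H` (conjugation by `r ∈ H` does not change the value of
`ψ : Cs (j+1) → ℚ`, hence not the sign outside `H`). If `Q` has the opposite sign on `H \ H'` take `e`
from the field `neg`: `Q₁ = {g ∈ Cs (j+1) | e g e⁻¹ ∈ Q}` is a cone that agrees with `P` outside `H` and on
`H \ H'` (test it on the element `h` of `neg`), so there is `r₁` for `Q₁` and `r = r₁ e⁻¹` works for `Q`.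
The finite set `R`: by `tar_finite` there are finitely many cones; choose one `r` for each.
(The signs of `Q ∩ H` come from `tar_class`.)
-/

set_option autoImplicit false

universe u

namespace Pool.Agent.IsoOrd

variable {G : Type*} [Group G]

private theorem tt_pred {P : Set G} {j : ℕ} {Cs : ℕ → Subgroup G} (h : TarSer P (j + 1) Cs) :
    TarSer P j Cs where
  zero := h.zero
  lt := fun m hm => h.lt m (by omega)
  hom := fun m hm => h.hom m (by omega)
  neg := fun m hm => h.neg m (by omega)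

/-- conjugation inside a level does not change the sign -/
private theorem tt_level {P : Set G} {j : ℕ} {Cs : ℕ → Subgroup G} (hP : Cone ⊤ P)
    (h : TarSer P (j + 1) Cs) {r : G} (hr : r ∈ Cs (j + 1)) {g : G} (hg : g ∈ Cs (j + 1)) :
    (r * g * r⁻¹ ∈ Cs j ↔ g ∈ Cs j) ∧ (g ∉ Cs j → (r * g * r⁻¹ ∈ P ↔ g ∈ P)) := by
  obtain ⟨ψ, hmul, hzero, hpos⟩ := h.hom j (by omega)
  have h1 : ψ 1 = 0 := hzero 1 (one_mem _)
  have hinv : ∀ x ∈ Cs (j + 1), ψ x⁻¹ = - ψ x := by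
    intro x hx
    have := hmul x hx x⁻¹ (inv_mem hx)
    rw [mul_inv_cancel, h1] at this
    linarith
  -- sign
  have hsign : ∀ x ∈ Cs (j + 1), x ∉ Cs j → ((x ∈ P ↔ 0 < ψ x) ∧ ψ x ≠ 0) := by
    intro x hx hxj
    have hx1 : x ≠ 1 := by
      rintro rfl
      exact hxj (one_mem _)
    rcases hP.tot x trivial hx1 with hxP | hxP
    · have h2 := hpos x hx hxj hxP
      exact ⟨⟨fun _ => h2, fun _ => hxP⟩, ne_of_gt h2⟩
    · have h2 := hpos x⁻¹ (inv_mem hx) (fun h3 => hxj (by simpa using inv_mem h3)) hxP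
      rw [hinv x hx] at h2
      refine ⟨⟨fun h3 => ?_, fun h3 => ?_⟩, by linarith⟩
      · exact absurd (by simpa using hP.mul _ h3 _ hxP) hP.one
      · linarith
  have hker : ∀ x ∈ Cs (j + 1), (x ∈ Cs j ↔ ψ x = 0) := by
    intro x hx
    refine ⟨fun h2 => hzero x h2, fun h2 => ?_⟩
    by_contra h3
    exact (hsign x hx h3).2 h2
  have hconj : r * g * r⁻¹ ∈ Cs (j + 1) := mul_mem (mul_mem hr hg) (inv_mem hr)
  have hval : ψ (r * g * r⁻¹) = ψ g := by
    rw [hmul (r * g) (mul_mem hr hg) r⁻¹ (inv_mem hr), hmul r hr g hg, hinv r hr]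
    ring
  have hA : r * g * r⁻¹ ∈ Cs j ↔ g ∈ Cs j := by
    rw [hker _ hconj, hker _ hg, hval]
  refine ⟨hA, fun hgj => ?_⟩
  rw [(hsign _ hconj (fun h2 => hgj (hA.1 h2))).1, (hsign _ hg hgj).1, hval]

private theorem tt_key {P : Set G} {Cs : ℕ → Subgroup G} (hP : Cone ⊤ P) (i : ℕ) :
    ∀ (_ : TarSer P (i + 1) Cs) (Q : Set G), Cone (Cs (i + 1)) Q →
      (∀ x ∈ Cs (i + 1), x ∉ Cs i → (x ∈ Q ↔ x ∈ P)) →
      ∃ r ∈ Cs (i + 1), ∀ g ∈ Cs (i + 1), (g ∈ P ↔ r⁻¹ * g * r ∈ Q) := by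
  induction i with
  | zero =>
    intro h Q hQ hag
    refine ⟨1, one_mem _, fun g hg => ?_⟩
    simp only [inv_one, one_mul, mul_one]
    by_cases hg0 : g ∈ Cs 0
    · rw [h.zero, Subgroup.mem_bot] at hg0
      subst hg0
      exact ⟨fun h2 => absurd h2 hP.one, fun h2 => absurd h2 hQ.one⟩
    · exact (hag g hg hg0).symm
  | succ i ih =>
    intro h
    -- case A
    have hA : ∀ Q : Set G, Cone (Cs (i + 2)) Q →
        (∀ x ∈ Cs (i + 2), x ∉ Cs (i + 1) → (x ∈ Q ↔ x ∈ P)) →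
        (∀ x ∈ Cs (i + 1), x ∉ Cs i → (x ∈ Q ↔ x ∈ P)) →
        ∃ r ∈ Cs (i + 2), ∀ g ∈ Cs (i + 2), (g ∈ P ↔ r⁻¹ * g * r ∈ Q) := by
      intro Q hQ hag hag'
      have hle : Cs (i + 1) ≤ Cs (i + 2) := le_of_lt (h.lt (i + 1) (by omega))
      have hQ' : Cone (Cs (i + 1)) (Q ∩ (Cs (i + 1) : Set G)) := by
        refine ⟨fun x hx => hx.2, fun x hx y hy => ⟨hQ.mul x hx.1 y hy.1, mul_mem hx.2 hy.2⟩,
          fun h2 => hQ.one h2.1, fun x hx hx1 => ?_⟩
        rcases hQ.tot x (hle hx) hx1 with h2 | h2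
        · exact Or.inl ⟨h2, hx⟩
        · exact Or.inr ⟨h2, inv_mem hx⟩
      obtain ⟨r, hr, hrg⟩ := ih (tt_pred h) _ hQ' (by
        intro x hx hxi
        rw [← hag' x hx hxi]
        exact ⟨fun h2 => h2.1, fun h2 => ⟨h2, hx⟩⟩)
      refine ⟨r, hle hr, fun g hg => ?_⟩
      by_cases hgH : g ∈ Cs (i + 1)
      · rw [hrg g hgH]
        exact ⟨fun h2 => h2.1, fun h2 => ⟨h2, mul_mem (mul_mem (inv_mem hr) hgH) hr⟩⟩
      · have h3 := tt_level hP h (inv_mem (hle hr)) hg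
        rw [inv_inv] at h3
        rw [hag _ (mul_mem (mul_mem (inv_mem (hle hr)) hg) (hle hr)) (fun h4 => hgH (h3.1.1 h4)),
          h3.2 hgH]
    intro Q hQ hag
    obtain ⟨ε, hε⟩ := tar_class hP h hQ
    by_cases hεi : ε i
    · exact hA Q hQ hag (fun x hx hxi => by
        rw [hε i (by omega) x hx hxi]
        tauto)
    · obtain ⟨e, he, u, hu, hui, huP, heu, heuP⟩ := h.neg i (by omega)
      have hle : Cs (i + 1) ≤ Cs (i + 2) := le_of_lt (h.lt (i + 1) (by omega))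
      set Q₁ : Set G := {g | g ∈ Cs (i + 2) ∧ e * g * e⁻¹ ∈ Q} with hQ₁
      have hQ₁c : Cone (Cs (i + 2)) Q₁ := by
        refine ⟨fun x hx => hx.1, fun x hx y hy => ⟨mul_mem hx.1 hy.1, ?_⟩, ?_, ?_⟩
        · have := hQ.mul _ hx.2 _ hy.2
          have h4 : e * x * e⁻¹ * (e * y * e⁻¹) = e * (x * y) * e⁻¹ := by group
          rwa [h4] at this
        · rintro ⟨-, h4⟩
          rw [mul_one, mul_inv_cancel] at h4
          exact hQ.one h4
        · intro x hx hx1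
          rcases hQ.tot (e * x * e⁻¹) (mul_mem (mul_mem he hx) (inv_mem he))
            (fun h4 => hx1 (by
              have h5 : x = e⁻¹ * (e * x * e⁻¹) * e := by group
              rw [h5, h4]; group)) with h4 | h4
          · exact Or.inl ⟨hx, h4⟩
          · refine Or.inr ⟨inv_mem hx, ?_⟩
            have h5 : e * x⁻¹ * e⁻¹ = (e * x * e⁻¹)⁻¹ := by group
            rw [h5]
            exact h4
      have hag₁ : ∀ x ∈ Cs (i + 2), x ∉ Cs (i + 1) → (x ∈ Q₁ ↔ x ∈ P) := by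
        intro x hx hxi
        have h3 := tt_level hP h he hx
        rw [← h3.2 hxi, ← hag _ (mul_mem (mul_mem he hx) (inv_mem he))
          (fun h4 => hxi (h3.1.1 h4))]
        exact ⟨fun h4 => h4.2, fun h4 => ⟨hx, h4⟩⟩
      have heuH : e * u * e⁻¹ ∈ Cs (i + 1) := (tt_level hP h he (hle hu)).1.2 hu
      obtain ⟨ε', hε'⟩ := tar_class hP h hQ₁c
      have heuQ : e * u * e⁻¹ ∈ Q := by
        rw [hε i (by omega) _ heuH heu]
        refine ⟨fun h4 => absurd h4 hεi, fun h4 => ?_⟩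
        exact absurd (by simpa using hP.mul _ h4 _ heuP) hP.one
      have huQ : u ∈ Q₁ := ⟨hle hu, heuQ⟩
      have hε'i : ε' i := ((hε' i (by omega) u hu hui).1 huQ).2 huP
      obtain ⟨r, hr, hrg⟩ := hA Q₁ hQ₁c hag₁ (fun x hx hxi => by
        rw [hε' i (by omega) x hx hxi]
        tauto)
      refine ⟨r * e⁻¹, mul_mem hr (inv_mem he), fun g hg => ?_⟩
      rw [hrg g hg]
      have h6 : (r * e⁻¹)⁻¹ * g * (r * e⁻¹) = e * (r⁻¹ * g * r) * e⁻¹ := by group
      rw [h6]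
      exact ⟨fun h4 => h4.2, fun h4 => ⟨mul_mem (mul_mem (inv_mem hr) hg) hr, h4⟩⟩

theorem tar_topAlt {P : Set G} {j : ℕ} {Cs : ℕ → Subgroup G} (hP : Cone ⊤ P)
    (h : TarSer P j Cs) : TopAlt P (Cs j) := by
  classical
  rcases j with _ | i
  · refine ⟨{1}, ?_, 1, one_mem _, fun Q hQ => Or.inl ⟨1, by simp, fun f hf hfC => ?_⟩⟩
    · intro r hr
      rw [Finset.mem_singleton] at hr
      subst hr
      exact one_mem _
    · rw [h.zero, Subgroup.mem_bot] at hfC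
      subst hfC
      exact absurd hf hP.one
  · have hfin := tar_finite hP h
    -- positive element of the top level
    obtain ⟨c, hc, hci, hcP⟩ : ∃ c ∈ Cs (i + 1), c ∉ Cs i ∧ c ∈ P := by
      obtain ⟨x, hx, hxi⟩ := SetLike.exists_of_lt (h.lt i (by omega))
      have hx1 : x ≠ 1 := by
        rintro rfl
        exact hxi (one_mem _)
      rcases hP.tot x trivial hx1 with h2 | h2
      · exact ⟨x, hx, hxi, h2⟩
      · exact ⟨x⁻¹, inv_mem hx, fun h3 => hxi (by simpa using inv_mem h3), h2⟩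
    have hch : ∀ Q : Set G, ∃ r ∈ Cs (i + 1), Cone (Cs (i + 1)) Q →
        (∀ x ∈ Cs (i + 1), x ∉ Cs i → (x ∈ Q ↔ x ∈ P)) →
        ∀ g ∈ Cs (i + 1), (g ∈ P ↔ r⁻¹ * g * r ∈ Q) := by
      intro Q
      by_cases h2 : Cone (Cs (i + 1)) Q ∧ (∀ x ∈ Cs (i + 1), x ∉ Cs i → (x ∈ Q ↔ x ∈ P))
      · obtain ⟨r, hr, hrg⟩ := tt_key hP i h Q h2.1 h2.2
        exact ⟨r, hr, fun _ _ => hrg⟩
      · exact ⟨1, one_mem _, fun h3 h4 => absurd ⟨h3, h4⟩ h2⟩
    choose r hr hrg using hch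
    refine ⟨hfin.toFinset.image r, ?_, c, hc, fun Q hQ => ?_⟩
    · intro x hx
      obtain ⟨Q, -, rfl⟩ := Finset.mem_image.1 hx
      exact hr Q
    · obtain ⟨ε, hε⟩ := tar_class hP h hQ
      by_cases hεi : ε i
      · refine Or.inl ⟨r Q, Finset.mem_image.2 ⟨Q, by simpa using hQ, rfl⟩, fun f hf hfC => ?_⟩
        refine (hrg Q hQ (fun x hx hxi => ?_) f hfC).1 hf
        rw [hε i (by omega) x hx hxi]
        tauto
      · refine Or.inr ⟨hcP, ?_⟩
        have hc1 : c ≠ 1 := by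
          rintro rfl
          exact hci (one_mem _)
        rcases hQ.tot c hc hc1 with h2 | h2
        · exact absurd (((hε i (by omega) c hc hci).1 h2).2 hcP) hεi
        · exact h2

end Pool.Agent.IsoOrd
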