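import Pool.Agent.IsoOrd.Basic
import Pool.Agent.IsoOrd.TarTop
import Pool.Agent.IsoOrd.TarLev
import Pool.Agent.IsoOrd.RankOne
import Pool.Agent.IsoOrd.ExistsNeg
import Pool.Agent.IsoOrd.Coset
import Pool.Agent.IsoOrd.Dich
import Pool.Agent.IsoOrd.TransHom
import Pool.Agent.IsoOrd.AffRep
import Pool.Agent.IsoOrd.AffEnd
import Pool.Agent.IsoOrd.NoCof
import Pool.Agent.IsoOrd.Class

set_option autoImplicit false

universe u

namespace Pool.Agent.IsoOrd

/-- the kernel of an action -/
def ker (G Ω : Type*) [Group G] [MulAction G Ω] : Subgroup G where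
  carrier := {g | ∀ x : Ω, g • x = x}
  mul_mem' := by
    intro a b ha hb x
    rw [mul_smul, hb x, ha x]
  one_mem' := by
    intro x
    exact one_smul G x
  inv_mem' := by
    intro a ha x
    rw [inv_smul_eq_iff]
    exact (ha x).symm

theorem mem_ker {G Ω : Type*} [Group G] [MulAction G Ω] {g : G} :
    g ∈ ker G Ω ↔ ∀ x : Ω, g • x = x := Iff.rfl

theorem ker_normal (G Ω : Type*) [Group G] [MulAction G Ω] : (ker G Ω).Normal := by
  constructor
  intro n hn g x
  rw [mul_smul, mul_smul, hn, smul_inv_smul]

/-- the dynamical theorem: the last jump is Conradian -/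
theorem dyn_main {G : Type u} [Group G] {P F : Set G} (h : Isol ⊤ P F) {C : Subgroup G}
    (hC : Cvx P ⊤ C) (hne : C ≠ ⊤) (hmax : ∀ H, Cvx P ⊤ H → C ≤ H → H = C ∨ H = ⊤)
    (htop : TopAlt P C) (hlev : LevBound C) (hH : HNFS G) :
    ∃ t : G → ℝ, (∀ x y, t (x * y) = t x + t y) ∧ (∀ x ∈ C, t x = 0) ∧
      (∀ x ∈ P, x ∉ C → 0 < t x) := by
  obtain ⟨Ω, i1, i2, o, hd⟩ := exists_dyn h.cone hC hne hmax
  have hm := hd.mono
  have hKn := ker_normal G Ω
  have hKne : ker G Ω ≠ ⊤ := by
    intro hK
    apply hne
    rw [eq_top_iff]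
    intro g _
    rw [← hd.stab]
    have : g ∈ ker G Ω := by rw [hK]; exact Subgroup.mem_top g
    exact this o
  obtain ⟨N, hNn, hKN, hNK, hNmax⟩ := exists_max_nfs hH (ker G Ω) hKn hKne
  have hK : ∀ k ∈ ker G Ω, ∀ x : Ω, k • x = x := fun k hk => hk
  have hnt : ∃ a ∈ N, ∃ x : Ω, a • x ≠ x := by
    obtain ⟨a, haN, haK⟩ := SetLike.exists_of_lt hKN
    refine ⟨a, haN, ?_⟩
    by_contra hcon
    push Not at hcon
    exact haK hcon
  by_cases hcof : ∃ n ∈ N, comp n o = Set.univ
  · obtain ⟨n, hnN, hno⟩ := hcof
    have hdich := dichotomy hm hd.prim hNn hNK hK hnN o hno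
    obtain ⟨t, ht, htp⟩ := exists_trans_hom hm o hdich
    have ht1 : t 1 = 0 := by
      have := ht 1 (one_mem N) 1 (one_mem N)
      rw [mul_one] at this
      linarith
    have hti : ∀ a ∈ N, t a⁻¹ = - t a := by
      intro a ha
      have := ht a ha a⁻¹ (inv_mem ha)
      rw [mul_inv_cancel, ht1] at this
      linarith
    have htz : ∀ a ∈ N, t a = 0 → ∀ x : Ω, a • x = x := by
      intro a ha h0 x
      by_contra hne
      rcases lt_or_gt_of_ne hne with hlt | hlt
      · have h1 : x < a⁻¹ • x := by
          have := hm a⁻¹ _ _ hlt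
          rwa [inv_smul_smul] at this
        have := (htp a⁻¹ (inv_mem ha) x).2 h1
        rw [hti a ha] at this
        linarith
      · have := (htp a ha x).2 hlt
        linarith
    have htC : ∀ a ∈ N, a ∈ C → t a = 0 := by
      intro a ha haC
      have hao : a • o = o := (hd.stab a).2 haC
      apply le_antisymm
      · by_contra hcon
        push Not at hcon
        have := (htp a ha o).1 hcon
        rw [hao] at this
        exact lt_irrefl _ this
      · by_contra hcon
        push Not at hcon
        have h1 : 0 < t a⁻¹ := by rw [hti a ha]; linarith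
        have := (htp a⁻¹ (inv_mem ha) o).1 h1
        have h2 : a⁻¹ • o = o := by rw [inv_smul_eq_iff]; exact hao.symm
        rw [h2] at this
        exact lt_irrefl _ this
    rcases discrete_or_dense t ht with hdis | hdense
    · obtain ⟨n₁, hn₁, hk⟩ := hdis
      by_cases hNtop : N = ⊤
      · subst hNtop
        refine ⟨t, fun x y => ht x (Subgroup.mem_top _) y (Subgroup.mem_top _), ?_, ?_⟩
        · intro x hx
          exact htC x (Subgroup.mem_top _) hx
        · intro x hx hxC
          exact (htp x (Subgroup.mem_top _) o).2 (hd.pos x hx hxC)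
      · exfalso
        obtain ⟨N₂, hN₂n, hNN₂, hN₂⟩ := hH N hNn hNtop
        refine hNmax N₂ hN₂n hNN₂ (central_ext hKn ?_ hN₂)
        have hn1 : t n₁ ≠ 0 := by
          intro h0
          obtain ⟨a, haN, x, hax⟩ := hnt
          obtain ⟨k, hk'⟩ := hk a haN
          rw [h0, mul_zero] at hk'
          exact hax (htz a haN hk' x)
        have hlam : ∀ g : G, ∀ n ∈ N, t (g * n * g⁻¹) = t n := by
          intro g
          have key : ∀ g : G, ∃ l : ℝ, 0 < l ∧ ∀ a ∈ N, t (g * a * g⁻¹) = l * t a := by
            intro g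
            apply hom_unique N t (fun a => t (g * a * g⁻¹)) ht
            · intro a ha b hb
              have : g * (a * b) * g⁻¹ = (g * a * g⁻¹) * (g * b * g⁻¹) := by group
              change t (g * (a * b) * g⁻¹) = _
              rw [this, ht _ (hNn.conj_mem a ha g) _ (hNn.conj_mem b hb g)]
            · intro a ha
              rw [htp a ha (g⁻¹ • o), htp _ (hNn.conj_mem a ha g) o]
              constructor
              · intro h1
                have h2 := hm g _ _ h1
                rw [smul_inv_smul] at h2
                rw [mul_smul, mul_smul]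
                exact h2
              · intro h1
                have h2 := hm g⁻¹ _ _ h1
                rw [mul_smul, mul_smul, inv_smul_smul] at h2
                exact h2
          obtain ⟨l, hl, hla⟩ := key g
          obtain ⟨l', hl', hla'⟩ := key g⁻¹
          have hll : l' * l = 1 := by
            have h1 := hla' (g * n₁ * g⁻¹) (hNn.conj_mem n₁ hn₁ g)
            have h2 : g⁻¹ * (g * n₁ * g⁻¹) * g⁻¹⁻¹ = n₁ := by group
            rw [h2, hla n₁ hn₁] at h1
            have h3 : (l' * l - 1) * t n₁ = 0 := by linarith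
            rcases mul_eq_zero.1 h3 with h4 | h4
            · linarith
            · exact absurd h4 hn1
          obtain ⟨k, hk1⟩ := hk _ (hNn.conj_mem n₁ hn₁ g)
          obtain ⟨k', hk2⟩ := hk _ (hNn.conj_mem n₁ hn₁ g⁻¹)
          have e1 : l = k := by
            rw [hla n₁ hn₁] at hk1
            exact mul_right_cancel₀ hn1 hk1
          have e2 : l' = k' := by
            rw [hla' n₁ hn₁] at hk2
            exact mul_right_cancel₀ hn1 hk2
          have hkpos : (0 : ℤ) < k := by
            have : (0:ℝ) < k := by rw [← e1]; exact hl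
            exact_mod_cast this
          have hkpos' : (0 : ℤ) < k' := by
            have : (0:ℝ) < k' := by rw [← e2]; exact hl'
            exact_mod_cast this
          have hkk : k' * k = 1 := by
            have : ((k' * k : ℤ) : ℝ) = 1 := by
              push_cast
              rw [← e1, ← e2]
              exact hll
            exact_mod_cast this
          have hk1' : k = 1 := by
            have h5 : 1 ≤ k := hkpos
            have h6 : 1 ≤ k' := hkpos'
            have h7 : k ≤ k' * k := by
              calc k = 1 * k := (one_mul k).symm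
                _ ≤ k' * k := Int.mul_le_mul_of_nonneg_right h6 (le_of_lt hkpos)
            omega
          intro n hn
          rw [hla n hn, e1, hk1']
          push_cast
          ring
        intro g n hn
        have hmem : g * n * g⁻¹ * n⁻¹ ∈ N := mul_mem (hNn.conj_mem n hn g) (inv_mem hn)
        have h0 : t (g * n * g⁻¹ * n⁻¹) = 0 := by
          rw [ht _ (hNn.conj_mem n hn g) _ (inv_mem hn), hlam g n hn, hti n hn]
          ring
        exact htz _ hmem h0
    · obtain ⟨lam, τ, hl, hlm, hτ, hτp, hτ0, hτN⟩ :=
        affine_rep hm hd.prim hNn o t ht htp ⟨n, hnN, hno⟩ hdense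
      have hlam1 := affine_end h hC hne hmax htop N t hdense lam τ hl hlm hτ
        (fun g hg hgC => hτp g (hd.pos g hg hgC)) (fun g hg => hτ0 g ((hd.stab g).2 hg)) hτN
      refine ⟨τ, ?_, fun g hg => hτ0 g ((hd.stab g).2 hg),
        fun g hg hgC => hτp g (hd.pos g hg hgC)⟩
      intro x y
      rw [hτ, hlam1, one_mul]
  · exfalso
    refine no_cofinal h hne hd htop hlev hmax hNn hNK hK hnt ?_
    intro a ha x hx
    apply hcof
    refine ⟨a, ha, ?_⟩
    have ho : o ∈ comp a x := by rw [hx]; exact Set.mem_univ o
    rw [comp_eq_of_mem hm ho, hx]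

/-- isolated orders on groups of the class come from Tararin series -/
theorem isol_tar (n : ℕ) : ∀ (G : Type u) [Group G] (P F : Set G), Isol ⊤ P F → F.ncard ≤ n →
    HNFS G → ∃ (j : ℕ) (Cs : ℕ → Subgroup G), TarSer P j Cs ∧ Cs j = ⊤ := by
  induction n with
  | zero =>
    intro G _ P F h hn hG
    by_cases hbot : (⊤ : Subgroup G) = ⊥
    · refine ⟨0, fun _ => ⊥, ⟨rfl, ?_, ?_, ?_⟩, hbot.symm⟩
      · intro m hm
        omega
      · intro m hm
        omega
      · intro m hm
        omega
    · exfalso
      obtain ⟨C, _, _, _, f, hf, _⟩ := h.exists_max hbot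
      have : F = ∅ := by
        rw [← Set.ncard_eq_zero h.fin]
        omega
      rw [this] at hf
      exact hf
  | succ n ih =>
    intro G _ P F h hn hG
    by_cases hbot : (⊤ : Subgroup G) = ⊥
    · refine ⟨0, fun _ => ⊥, ⟨rfl, ?_, ?_, ?_⟩, hbot.symm⟩
      · intro m hm
        omega
      · intro m hm
        omega
      · intro m hm
        omega
    · obtain ⟨C, hC, hCne, hmax, f, hf, hfC⟩ := h.exists_max hbot
      have hres := h.restrict hC
      have hcard : ((fun x : C => (x : G)) ⁻¹' F).ncard ≤ n := by
        have h1 : ((fun x : C => (x : G)) '' ((fun x : C => (x : G)) ⁻¹' F)) ⊆ F \ {f} := by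
          rintro _ ⟨x, hx, rfl⟩
          refine ⟨hx, ?_⟩
          intro hxf
          rw [Set.mem_singleton_iff] at hxf
          exact hfC (hxf ▸ x.2)
        have h2 := Set.ncard_le_ncard h1 (h.fin.sdiff)
        rw [Set.ncard_image_of_injective _ Subtype.coe_injective] at h2
        have h3 := Set.ncard_sdiff_singleton_add_one hf h.fin
        omega
      obtain ⟨j, Cs, hCs, hj⟩ := ih C _ _ hres hcard (hG.subgroup C)
      obtain ⟨hT, hTj⟩ := hCs.map hj
      set Ds : ℕ → Subgroup G := fun m => (Cs m).map C.subtype with hDs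
      have hDj : Ds j = C := hTj
      have htop : TopAlt P C := by
        rw [← hDj]
        exact tar_topAlt h.cone hT
      have hlev : LevBound C := by
        rw [← hDj]
        exact tar_levBound h.cone hT
      obtain ⟨t, ht, ht0, htp⟩ := dyn_main h hC hCne hmax htop hlev hG
      obtain ⟨ψ, hψ, hψ0, hψp⟩ := rank_one h hC hmax ⟨f, hf, hfC⟩ t ht ht0 htp
      refine ⟨j + 1, _, hT.extend (by rw [hDj]; exact hCne) ψ hψ (by rw [hDj]; exact hψ0)
        (by rw [hDj]; exact hψp) ?_, ?_⟩
      · intro i hi
        subst hi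
        exact exists_neg h hT (by rw [hDj]; exact hCne) ψ hψ (by rw [hDj]; exact hψ0)
          (by rw [hDj]; exact hψp)
      · simp

/-- main theorem -/
theorem main {G : Type u} [Group G] (hG : HNFS G) {P F : Set G} (h : Isol ⊤ P F) :
    {Q : Set G | Cone ⊤ Q}.Finite := by
  obtain ⟨j, Cs, hCs, hj⟩ := isol_tar F.ncard G P F h le_rfl hG
  have := tar_finite h.cone hCs
  rwa [hj] at this

end Pool.Agent.IsoOrd
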