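import Pool.Agent.IsoOrd.Defs

/-!
# Basic facts on relative cones and convex subgroups

We write `x < y` for `x⁻¹ * y ∈ P` (left invariant).

* `Cvx.total`: otherwise take `x ∈ H \ H'`, `y ∈ H' \ H`, both positive after inversion; compare `x, y`.
* `Cvx.absorb`: `x * u = 1` is impossible; if `u⁻¹ * x⁻¹ ∈ P` then `z := u⁻¹ * x⁻¹ ∈ P` and
  `z⁻¹ * u⁻¹ = x ∈ P`, so `z ∈ H` by convexity applied to `u⁻¹ ∈ H`, hence `x ∈ H`. If
  `(u * x)⁻¹ = x⁻¹ * u⁻¹ ∈ P` then `x ∈ H` by convexity directly.
* `Cone.glue`: for products of two elements of `P \ H`: the product is in `P` and not in `H` by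
  convexity; mixed products by `absorb`.
* `Isol.restrict`: for a cone `Q'` on `C` containing `F ∩ C` glue its image.
* `Isol.exists_max`: `C` := union (sSup) of all proper convex subgroups (a chain, contains ⊥). If `F ⊆ H`
  for a convex `H ≠ ⊤` then `{x | x⁻¹ ∈ P}` is a cone, `H` is convex for it, and gluing with `P ∩ H`
  gives a cone containing `F` different from `P`: contradiction. As `F` is finite and the proper
  convex subgroups form a chain, this shows that some `f ∈ F` is in no proper convex subgroup, so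
  `C ≠ ⊤`.
-/

set_option autoImplicit false

universe u

namespace Pool.Agent.IsoOrd

variable {G : Type*} [Group G]

/-- two convex subgroups are comparable -/
theorem Cvx.total {P : Set G} {E H H' : Subgroup G} (hP : Cone E P) (h : Cvx P E H)
    (h' : Cvx P E H') : H ≤ H' ∨ H' ≤ H := by
  by_contra hcon
  push Not at hcon
  obtain ⟨h1, h2⟩ := hcon
  rw [SetLike.not_le_iff_exists] at h1 h2
  have pos : ∀ A B : Subgroup G, A ≤ E → (∃ x ∈ A, x ∉ B) → ∃ x ∈ A, x ∉ B ∧ x ∈ P := by
    rintro A B hA ⟨x, hx, hxB⟩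
    have hx1 : x ≠ 1 := by
      rintro rfl
      exact hxB B.one_mem
    rcases hP.tot x (hA hx) hx1 with h | h
    · exact ⟨x, hx, hxB, h⟩
    · exact ⟨x⁻¹, A.inv_mem hx, fun e => hxB (B.inv_mem_iff.mp e), h⟩
  obtain ⟨x, hx, hxH', hxP⟩ := pos H H' h.le h1
  obtain ⟨y, hy, hyH, hyP⟩ := pos H' H h'.le h2
  have hxy : x⁻¹ * y ∈ E := E.mul_mem (E.inv_mem (h.le hx)) (h'.le hy)
  have hne : x⁻¹ * y ≠ 1 := by
    intro e
    rw [inv_mul_eq_one] at e
    rw [e] at hx
    exact hyH hx
  rcases hP.tot _ hxy hne with h3 | h3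
  · exact hxH' (h'.cvx y hy x hxP h3)
  · rw [mul_inv_rev, inv_inv] at h3
    exact hyH (h.cvx x hx y hyP h3)

/-- multiplication by an element of a convex subgroup does not change the sign of an element
outside -/
theorem Cvx.absorb {P : Set G} {E H : Subgroup G} (hP : Cone E P) (h : Cvx P E H) {x u : G}
    (hx : x ∈ P) (hxH : x ∉ H) (hu : u ∈ H) : x * u ∈ P ∧ u * x ∈ P := by
  have hxE := hP.sub x hx
  have huE := h.le hu
  constructor
  · have hne : x * u ≠ 1 := by
      intro e
      apply hxH
      rw [eq_inv_of_mul_eq_one_left e]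
      exact H.inv_mem hu
    rcases hP.tot _ (E.mul_mem hxE huE) hne with h1 | h1
    · exact h1
    · exfalso
      have h2 : ((x * u)⁻¹)⁻¹ * u⁻¹ ∈ P := by
        rw [inv_inv, mul_inv_cancel_right]
        exact hx
      have h3 := h.cvx u⁻¹ (H.inv_mem hu) _ h1 h2
      have h4 := H.inv_mem h3
      rw [inv_inv] at h4
      exact hxH ((H.mul_mem_cancel_right hu).mp h4)
  · have hne : u * x ≠ 1 := by
      intro e
      apply hxH
      rw [eq_inv_of_mul_eq_one_right e]
      exact H.inv_mem hu
    rcases hP.tot _ (E.mul_mem huE hxE) hne with h1 | h1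
    · exact h1
    · exfalso
      rw [mul_inv_rev] at h1
      exact hxH (h.cvx u⁻¹ (H.inv_mem hu) x hx h1)

/-- gluing: a cone outside `H` and an arbitrary cone on the convex subgroup `H` -/
theorem Cone.glue {P R : Set G} {E H : Subgroup G} (hP : Cone E P) (h : Cvx P E H)
    (hR : Cone H R) : Cone E ((P \ (H : Set G)) ∪ R) where
  sub := by
    rintro x (⟨hx, _⟩ | hx)
    · exact hP.sub x hx
    · exact h.le (hR.sub x hx)
  mul := by
    rintro x (⟨hx, hxH⟩ | hx) y (⟨hy, hyH⟩ | hy)
    · left
      refine ⟨hP.mul x hx y hy, fun e => hxH ?_⟩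
      exact h.cvx (x * y) e x hx (by rw [inv_mul_cancel_left]; exact hy)
    · left
      have hyH := hR.sub y hy
      refine ⟨(h.absorb hP hx hxH hyH).1, fun e => hxH ?_⟩
      exact (H.mul_mem_cancel_right hyH).mp e
    · left
      have hxH := hR.sub x hx
      refine ⟨(h.absorb hP hy hyH hxH).2, fun e => hyH ?_⟩
      exact (H.mul_mem_cancel_left hxH).mp e
    · right
      exact hR.mul x hx y hy
  one := by
    rintro (⟨h1, _⟩ | h1)
    · exact hP.one h1
    · exact hR.one h1
  tot := by
    intro x hx hx1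
    by_cases hxH : x ∈ H
    · rcases hR.tot x hxH hx1 with h1 | h1
      · exact Or.inl (Or.inr h1)
      · exact Or.inr (Or.inr h1)
    · rcases hP.tot x hx hx1 with h1 | h1
      · exact Or.inl (Or.inl ⟨h1, hxH⟩)
      · exact Or.inr (Or.inl ⟨h1, fun e => hxH (H.inv_mem_iff.mp e)⟩)

/-- isolation passes to convex subgroups; here as groups -/
theorem Isol.restrict {P F : Set G} (h : Isol ⊤ P F) {C : Subgroup G} (hC : Cvx P ⊤ C) :
    Isol (⊤ : Subgroup C) ((fun x : C => (x : G)) ⁻¹' P) ((fun x : C => (x : G)) ⁻¹' F) where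
  cone :=
    { sub := fun _ _ => Subgroup.mem_top _
      mul := by
        intro x hx y hy
        show ((x * y : C) : G) ∈ P
        rw [Subgroup.coe_mul]
        exact h.cone.mul _ hx _ hy
      one := by
        intro h1
        have h2 : ((1 : C) : G) ∈ P := h1
        rw [Subgroup.coe_one] at h2
        exact h.cone.one h2
      tot := by
        intro x _ hx1
        have hne : (x : G) ≠ 1 := fun e => hx1 (Subtype.ext e)
        rcases h.cone.tot (x : G) (Subgroup.mem_top _) hne with h1 | h1
        · exact Or.inl h1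
        · right
          show ((x⁻¹ : C) : G) ∈ P
          rw [Subgroup.coe_inv]
          exact h1 }
  fin := h.fin.preimage Subtype.val_injective.injOn
  sub := fun _ hx => h.sub hx
  uniq := by
    intro Q hQ hFQ
    have hR : Cone C ((fun x : C => (x : G)) '' Q) :=
      { sub := by
          rintro _ ⟨x, _, rfl⟩
          exact x.2
        mul := by
          rintro _ ⟨x, hx, rfl⟩ _ ⟨y, hy, rfl⟩
          exact ⟨x * y, hQ.mul x hx y hy, by simp⟩
        one := by
          rintro ⟨x, hx, h1⟩
          have : x = 1 := Subtype.ext h1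
          rw [this] at hx
          exact hQ.one hx
        tot := by
          intro x hx hx1
          have hne : (⟨x, hx⟩ : C) ≠ 1 := fun e => hx1 (congrArg Subtype.val e)
          rcases hQ.tot ⟨x, hx⟩ (Subgroup.mem_top _) hne with h1 | h1
          · exact Or.inl ⟨_, h1, rfl⟩
          · exact Or.inr ⟨_, h1, rfl⟩ }
    have hglue := h.cone.glue hC hR
    have heq := h.uniq _ hglue (by
      intro f hf
      by_cases hfC : f ∈ C
      · right
        exact ⟨⟨f, hfC⟩, hFQ hf, rfl⟩
      · left
        exact ⟨h.sub hf, hfC⟩)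
    ext x
    constructor
    · intro hx
      show (x : G) ∈ P
      rw [← heq]
      exact Or.inr ⟨x, hx, rfl⟩
    · intro hx
      have hx' : (x : G) ∈ (P \ (C : Set G)) ∪ ((fun x : C => (x : G)) '' Q) := by
        rw [heq]
        exact hx
      rcases hx' with ⟨_, h2⟩ | ⟨y, hy, hyx⟩
      · exact absurd x.2 h2
      · have : y = x := Subtype.ext hyx
        rw [← this]
        exact hy

/-- the trivial subgroup is convex -/
theorem Basic.cvx_bot {P : Set G} (hP : Cone ⊤ P) : Cvx P ⊤ ⊥ where
  le := bot_le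
  cvx := by
    intro x hx y hy hyx
    rw [Subgroup.mem_bot] at hx
    subst hx
    rw [mul_one] at hyx
    exfalso
    have := hP.mul y hy _ hyx
    rw [mul_inv_cancel] at this
    exact hP.one this

/-- there is a largest proper convex subgroup, and it misses some element of `F` -/
theorem Isol.exists_max {P F : Set G} (h : Isol ⊤ P F) (hG : (⊤ : Subgroup G) ≠ ⊥) :
    ∃ C : Subgroup G, Cvx P ⊤ C ∧ C ≠ ⊤ ∧ (∀ H, Cvx P ⊤ H → C ≤ H → H = C ∨ H = ⊤) ∧
      ∃ f ∈ F, f ∉ C := by
  classical
  have hP := h.cone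
  set K : Set (Subgroup G) := {H | Cvx P ⊤ H ∧ H ≠ ⊤} with hK
  have hbot : (⊥ : Subgroup G) ∈ K := ⟨Basic.cvx_bot hP, hG.symm⟩
  have hne : K.Nonempty := ⟨⊥, hbot⟩
  have hdir : DirectedOn (· ≤ ·) K := by
    rintro A hA B hB
    rcases hA.1.total hP hB.1 with h1 | h1
    · exact ⟨B, hB, h1, le_refl _⟩
    · exact ⟨A, hA, le_refl _, h1⟩
  have hmem : ∀ x, x ∈ sSup K ↔ ∃ H ∈ K, x ∈ H := fun x =>
    Subgroup.mem_sSup_of_directedOn hne hdir
  -- a finite subset of the union lies in one of them
  have hfin : ∀ S : Finset G, (∀ f ∈ S, f ∈ sSup K) → ∃ H ∈ K, ∀ f ∈ S, f ∈ H := by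
    intro S
    induction S using Finset.induction_on with
    | empty => intro _; exact ⟨⊥, hbot, by simp⟩
    | insert a S _ ih =>
      intro hS
      obtain ⟨A, hA, hA'⟩ := ih fun f hf => hS f (Finset.mem_insert_of_mem hf)
      obtain ⟨B, hB, hB'⟩ := (hmem a).mp (hS a (Finset.mem_insert_self a S))
      rcases hA.1.total hP hB.1 with h1 | h1
      · refine ⟨B, hB, fun f hf => ?_⟩
        rcases Finset.mem_insert.mp hf with rfl | hf
        · exact hB'
        · exact h1 (hA' f hf)
      · refine ⟨A, hA, fun f hf => ?_⟩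
        rcases Finset.mem_insert.mp hf with rfl | hf
        · exact h1 hB'
        · exact hA' f hf
  -- no proper convex subgroup contains `F`
  have hF : ∀ H ∈ K, ∃ f ∈ F, f ∉ H := by
    rintro H ⟨hH, hHtop⟩
    by_contra hcon
    push Not at hcon
    have hP' : Cone (⊤ : Subgroup G) {x | x⁻¹ ∈ P} :=
      { sub := fun _ _ => Subgroup.mem_top _
        mul := by
          intro x hx y hy
          show (x * y)⁻¹ ∈ P
          rw [mul_inv_rev]
          exact hP.mul _ hy _ hx
        one := by
          intro h1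
          have h2 : (1 : G)⁻¹ ∈ P := h1
          rw [inv_one] at h2
          exact hP.one h2
        tot := by
          intro x _ hx1
          rcases hP.tot x (Subgroup.mem_top _) hx1 with h1 | h1
          · right
            show (x⁻¹)⁻¹ ∈ P
            rw [inv_inv]
            exact h1
          · exact Or.inl h1 }
    have hH' : Cvx {x | x⁻¹ ∈ P} ⊤ H :=
      { le := le_top
        cvx := by
          intro x hx y hy hyx
          have h1 : (y⁻¹ * x)⁻¹ ∈ P := hyx
          rw [mul_inv_rev, inv_inv] at h1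
          have h2 : (x⁻¹ * y)⁻¹ * x⁻¹ ∈ P := by
            rw [mul_inv_rev, inv_inv, mul_inv_cancel_right]
            exact hy
          have h3 := hH.cvx x⁻¹ (H.inv_mem hx) (x⁻¹ * y) h1 h2
          exact (H.mul_mem_cancel_left (H.inv_mem hx)).mp h3 }
    have hR : Cone H (P ∩ (H : Set G)) :=
      { sub := fun x hx => hx.2
        mul := fun x hx y hy => ⟨hP.mul x hx.1 y hy.1, H.mul_mem hx.2 hy.2⟩
        one := fun h1 => hP.one h1.1
        tot := by
          intro x hx hx1
          rcases hP.tot x (Subgroup.mem_top _) hx1 with h1 | h1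
          · exact Or.inl ⟨h1, hx⟩
          · exact Or.inr ⟨h1, H.inv_mem hx⟩ }
    have heq := h.uniq _ (hP'.glue hH' hR) (fun f hf => Or.inr ⟨h.sub hf, hcon f hf⟩)
    obtain ⟨g, hg⟩ : ∃ g, g ∉ H := by
      by_contra hall
      push Not at hall
      exact hHtop ((Subgroup.eq_top_iff' H).mpr hall)
    have key : ∀ g, g ∉ H → g ∉ P := by
      intro g hg hgP
      have h1 := hgP
      rw [← heq] at h1
      rcases h1 with ⟨h2, _⟩ | ⟨_, h2⟩
      · have h3 : g⁻¹ ∈ P := h2
        have := hP.mul g hgP _ h3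
        rw [mul_inv_cancel] at this
        exact hP.one this
      · exact hg h2
    have hg1 : g ≠ 1 := by
      rintro rfl
      exact hg H.one_mem
    rcases hP.tot g (Subgroup.mem_top _) hg1 with h1 | h1
    · exact key g hg h1
    · exact key g⁻¹ (fun e => hg (H.inv_mem_iff.mp e)) h1
  obtain ⟨f, hfF, hf⟩ : ∃ f ∈ F, f ∉ sSup K := by
    by_contra hcon
    push Not at hcon
    obtain ⟨H, hH, h1⟩ := hfin h.fin.toFinset (fun f hf => hcon f (h.fin.mem_toFinset.mp hf))
    obtain ⟨f, hf, hfH⟩ := hF H hH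
    exact hfH (h1 f (h.fin.mem_toFinset.mpr hf))
  refine ⟨sSup K, ⟨le_top, ?_⟩, ?_, ?_, f, hfF, hf⟩
  · intro x hx y hy hyx
    obtain ⟨H, hH, hxH⟩ := (hmem x).mp hx
    exact (hmem y).mpr ⟨H, hH, hH.1.cvx x hxH y hy hyx⟩
  · intro e
    rw [e] at hf
    exact hf (Subgroup.mem_top _)
  · intro H hH hle
    by_cases htop : H = ⊤
    · exact Or.inr htop
    · left
      exact le_antisymm (le_sSup ⟨hH, htop⟩) hle

end Pool.Agent.IsoOrd
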