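import Pool.Agent.IsoOrd.Cross
import Pool.Agent.IsoOrd.Perturb

/-!
# Elements of the same level have the same component

Let `Q = cone_of_cut` for `S = Iio x` on `C`: for `c ∈ C`, `c ∈ Q` iff `x < c x`, or `c x = x` and `c ∈ P`.
Replacing `a`, `b` by inverses (same component, same level) `a, b ∈ Q`. For every `m` there is `n` with
`(a^m)⁻¹ b^n ∈ Q` and `b^n (a^m)⁻¹ ∈ Q`, hence `a^m x ≤ b^n x` and `b^(-n) x ≤ a^(-m) x`. So
`comp a x ⊆ comp b x`, and symmetrically.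
-/

set_option autoImplicit false

universe u

namespace Pool.Agent.IsoOrd

variable {G : Type*} [Group G]

section Act

variable {Ω : Type*} [LinearOrder Ω] [MulAction G Ω]

private theorem CompLev_le (hm : Mono G Ω) (g : G) {x y : Ω} (h : x ≤ y) : g • x ≤ g • y := by
  rcases h.lt_or_eq with h | h
  · exact (hm g x y h).le
  · rw [h]

private theorem CompLev_inv (a : G) (x : Ω) : comp a⁻¹ x = comp a x := by
  ext z
  constructor
  · rintro ⟨⟨m, h1⟩, ⟨n, h2⟩⟩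
    refine ⟨⟨-m, ?_⟩, ⟨-n, ?_⟩⟩
    · rw [zpow_neg, ← inv_zpow]; exact h1
    · rw [zpow_neg, ← inv_zpow]; exact h2
  · rintro ⟨⟨m, h1⟩, ⟨n, h2⟩⟩
    refine ⟨⟨-m, ?_⟩, ⟨-n, ?_⟩⟩
    · rw [zpow_neg, ← inv_zpow, inv_inv]; exact h1
    · rw [zpow_neg, ← inv_zpow, inv_inv]; exact h2

private theorem CompLev_pow (hm : Mono G Ω) {a : G} {x : Ω} (h : x ≤ a • x) (n : ℕ) :
    x ≤ a ^ n • x := by
  induction n with
  | zero => simp
  | succ n ih =>
      rw [pow_succ', mul_smul]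
      exact h.trans (CompLev_le hm a ih)

private theorem CompLev_zpow (hm : Mono G Ω) {a : G} {x : Ω} (h : x ≤ a • x) {m n : ℤ}
    (hmn : m ≤ n) : a ^ m • x ≤ a ^ n • x := by
  obtain ⟨k, hk⟩ := Int.eq_ofNat_of_zero_le (sub_nonneg.mpr hmn)
  have h1 : a ^ n = a ^ m * a ^ k := by
    rw [← zpow_natCast, ← zpow_add]
    congr 1
    omega
  rw [h1, mul_smul]
  exact CompLev_le hm _ (CompLev_pow hm h k)

private theorem CompLev_sub (hm : Mono G Ω) {Q : Set G} {x : Ω} (hQ : ∀ g ∈ Q, x ≤ g • x)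
    {a b : G} (ha : x ≤ a • x)
    (hn : ∀ m : ℕ, ∃ n : ℕ, (a ^ m)⁻¹ * b ^ n ∈ Q ∧ b ^ n * (a ^ m)⁻¹ ∈ Q) :
    comp a x ⊆ comp b x := by
  rintro z ⟨⟨m, h1⟩, ⟨n, h2⟩⟩
  constructor
  · obtain ⟨k, -, hk⟩ := hn m.natAbs
    refine ⟨-(k : ℤ), ?_⟩
    have h3 := CompLev_le hm ((b ^ k)⁻¹) (hQ _ hk)
    rw [mul_smul, inv_smul_smul] at h3
    rw [zpow_neg, zpow_natCast]
    refine h3.trans (le_trans ?_ h1)
    have h4 : (a ^ m.natAbs)⁻¹ = a ^ (-(m.natAbs : ℤ)) := by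
      rw [zpow_neg, zpow_natCast]
    rw [h4]
    exact CompLev_zpow hm ha (by omega)
  · obtain ⟨k, hk, -⟩ := hn n.natAbs
    refine ⟨(k : ℤ), ?_⟩
    have h3 := CompLev_le hm (a ^ n.natAbs) (hQ _ hk)
    rw [← mul_smul, mul_inv_cancel_left] at h3
    rw [zpow_natCast]
    refine h2.trans (le_trans ?_ h3)
    rw [← zpow_natCast]
    exact CompLev_zpow hm ha (by omega)

/-- two elements of the same level have the same component -/
theorem comp_eq_of_lev (hm : Mono G Ω) {P : Set G} (hP : Cone ⊤ P) {C : Subgroup G} {lev : G → ℕ}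
    (hinv : ∀ x ∈ C, lev x⁻¹ = lev x)
    (hlev : ∀ Q, Cone C Q → ∀ a ∈ Q, ∀ b ∈ Q, lev a = lev b → ∀ m : ℕ, ∃ n : ℕ,
      (a ^ m)⁻¹ * b ^ n ∈ Q ∧ b ^ n * (a ^ m)⁻¹ ∈ Q)
    (x : Ω) {a b : G} (ha : a ∈ C) (hb : b ∈ C) (hax : a • x ≠ x) (hbx : b • x ≠ x)
    (hab : lev a = lev b) : comp a x = comp b x := by
  have hcone := cone_of_cut hP hm (Set.Iio x) (isLowerSet_Iio x) C
  set Q : Set G := {g | g ∈ C ∧ (∀ y ∈ Set.Iio x, g⁻¹ • y ∈ Set.Iio x) ∧
    ((∀ y ∈ Set.Iio x, g • y ∈ Set.Iio x) → g ∈ P)} with hQdef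
  have hQ : ∀ g ∈ Q, x ≤ g • x := by
    rintro g ⟨-, h, -⟩
    by_contra hc
    push Not at hc
    have h1 := h (g • x) hc
    rw [inv_smul_smul] at h1
    exact lt_irrefl x h1
  have hQ' : ∀ g ∈ C, x < g • x → g ∈ Q := by
    intro g hg h
    refine ⟨hg, ?_, ?_⟩
    · intro y hy
      have h1 := hm g⁻¹ y (g • x) (lt_trans hy h)
      rw [inv_smul_smul] at h1
      exact h1
    · intro h2
      exfalso
      have h1 := hm g⁻¹ x (g • x) h
      rw [inv_smul_smul] at h1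
      have h3 := h2 (g⁻¹ • x) h1
      rw [smul_inv_smul] at h3
      exact lt_irrefl x h3
  have key : ∀ c ∈ C, c • x ≠ x → ∃ c' ∈ C, x < c' • x ∧ lev c' = lev c ∧
      comp c' x = comp c x := by
    intro c hc hcx
    rcases lt_or_gt_of_ne hcx with h | h
    · refine ⟨c⁻¹, C.inv_mem hc, ?_, hinv c hc, CompLev_inv c x⟩
      have h1 := hm c⁻¹ _ _ h
      rw [inv_smul_smul] at h1
      exact h1
    · exact ⟨c, hc, h, rfl, rfl⟩
  obtain ⟨a', ha', hax', hla, hca⟩ := key a ha hax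
  obtain ⟨b', hb', hbx', hlb, hcb⟩ := key b hb hbx
  rw [← hca, ← hcb]
  have e1 : lev a' = lev b' := by rw [hla, hlb, hab]
  exact Set.Subset.antisymm
    (CompLev_sub hm hQ hax'.le (hlev Q hcone a' (hQ' a' ha' hax') b' (hQ' b' hb' hbx') e1))
    (CompLev_sub hm hQ hbx'.le (hlev Q hcone b' (hQ' b' hb' hbx') a' (hQ' a' ha' hax') e1.symm))

end Act

end Pool.Agent.IsoOrd
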