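import Pool.Agent.IsoOrd.Defs

/-!
# Ping-pong and crossing

* `comp_eq_of_mem`: `comp a x` is the convex hull of the orbit `a^n • x`.
* `ping`: cancel the common beginning of the two words; then compare values at a point of `f X` or `g X`.
* `cross`: suppose neither inclusion holds, `u` in the intersection. There are `v ∈ comp a x \ comp b y` and
  `w ∈ comp b y \ comp a x`; by convexity `v` is below all of `comp b y` and `w` above all of `comp a x`
  (or the other way round, symmetric). Put `X = comp a x ∩ comp b y`. Choose `k` with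
  `u ≤ a^k • v` and `l` with `b^l • w ≤ u`; `f = a^k` maps `X` into `X ∩ {z | u < z}`, `g = b^l` maps `X`
  into `X ∩ {z | z < u}`. Contradiction with `ping` and `RelNFS N K` (elements of `K` act trivially).
-/

set_option autoImplicit false

universe u

namespace Pool.Agent.IsoOrd

variable {G : Type*} [Group G]

section Act

variable {Ω : Type*} [LinearOrder Ω] [MulAction G Ω]

theorem cross_smul_le (hm : Mono G Ω) (g : G) {x y : Ω} (h : x ≤ y) : g • x ≤ g • y := by
  rcases h.lt_or_eq with h | h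
  · exact (hm g x y h).le
  · rw [h]

theorem cross_mem_self (a : G) (x : Ω) : x ∈ comp a x :=
  ⟨⟨0, by rw [zpow_zero, one_smul]⟩, ⟨0, by rw [zpow_zero, one_smul]⟩⟩

theorem cross_convex {a : G} {x p q z : Ω} (hp : p ∈ comp a x) (hq : q ∈ comp a x) (h1 : p ≤ z)
    (h2 : z ≤ q) : z ∈ comp a x := by
  obtain ⟨⟨m, hm⟩, _⟩ := hp
  obtain ⟨_, ⟨n, hn⟩⟩ := hq
  exact ⟨⟨m, hm.trans h1⟩, ⟨n, h2.trans hn⟩⟩

theorem cross_zpow_mem (hm : Mono G Ω) {a : G} {x z : Ω} (hz : z ∈ comp a x) (k : ℤ) :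
    a ^ k • z ∈ comp a x := by
  obtain ⟨⟨m, h1⟩, ⟨n, h2⟩⟩ := hz
  refine ⟨⟨k + m, ?_⟩, ⟨k + n, ?_⟩⟩
  · rw [zpow_add, mul_smul]
    exact cross_smul_le hm _ h1
  · rw [zpow_add, mul_smul]
    exact cross_smul_le hm _ h2

private theorem cross_comp_sub (hm : Mono G Ω) {a : G} {x z : Ω} (hz : z ∈ comp a x) :
    comp a z ⊆ comp a x := by
  rintro t ⟨⟨p, hp⟩, ⟨q, hq⟩⟩
  obtain ⟨⟨m, h1⟩, _⟩ := cross_zpow_mem hm hz p
  obtain ⟨_, ⟨n, h2⟩⟩ := cross_zpow_mem hm hz q
  exact ⟨⟨m, h1.trans hp⟩, ⟨n, hq.trans h2⟩⟩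

private theorem cross_comp_symm (hm : Mono G Ω) {a : G} {x z : Ω} (hz : z ∈ comp a x) :
    x ∈ comp a z := by
  obtain ⟨⟨m, h1⟩, ⟨n, h2⟩⟩ := hz
  refine ⟨⟨-n, ?_⟩, ⟨-m, ?_⟩⟩
  · have := cross_smul_le hm (a ^ (-n)) h2
    rwa [← mul_smul, ← zpow_add, neg_add_cancel, zpow_zero, one_smul] at this
  · have := cross_smul_le hm (a ^ (-m)) h1
    rwa [← mul_smul, ← zpow_add, neg_add_cancel, zpow_zero, one_smul] at this

theorem comp_eq_of_mem (hm : Mono G Ω) {a : G} {x z : Ω} (hz : z ∈ comp a x) :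
    comp a z = comp a x :=
  Set.Subset.antisymm (cross_comp_sub hm hz) (cross_comp_sub hm (cross_comp_symm hm hz))

theorem cross_ev_cons (f g : G) (i : Bool) (t : List Bool) :
    ev f g (i :: t) = cond i f g * ev f g t := by
  simp [ev]

theorem cross_ev_mem {f g : G} {X : Set Ω} (hf : ∀ x ∈ X, f • x ∈ X) (hg : ∀ x ∈ X, g • x ∈ X)
    (t : List Bool) : ∀ x ∈ X, ev f g t • x ∈ X := by
  induction t with
  | nil =>
    intro x hx
    simpa [ev] using hx
  | cons i t ih =>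
    intro x hx
    rw [cross_ev_cons, mul_smul]
    cases i
    · exact hg _ (ih x hx)
    · exact hf _ (ih x hx)

theorem ping {f g : G} {X : Set Ω} (hX : X.Nonempty) (hf : ∀ x ∈ X, f • x ∈ X)
    (hg : ∀ x ∈ X, g • x ∈ X) (hd : ∀ x ∈ X, ∀ y ∈ X, f • x ≠ g • y) {w₁ w₂ : List Bool}
    (hw : w₁ ≠ w₂) : ∃ x : Ω, ev f g w₁ • x ≠ ev f g w₂ • x := by
  obtain ⟨x₀, hx₀⟩ := hX
  have key : ∀ (j : Bool) (t : List Bool), ∃ x : Ω, x ≠ ev f g (j :: t) • x := by
    intro j t
    cases j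
    · refine ⟨f • x₀, ?_⟩
      rw [cross_ev_cons, mul_smul]
      exact hd x₀ hx₀ _ (cross_ev_mem hf hg t _ (hf x₀ hx₀))
    · refine ⟨g • x₀, ?_⟩
      rw [cross_ev_cons, mul_smul]
      exact (hd _ (cross_ev_mem hf hg t _ (hg x₀ hx₀)) x₀ hx₀).symm
  have hnil : ∀ x : Ω, ev f g [] • x = x := fun x => by simp [ev]
  induction w₁ generalizing w₂ with
  | nil =>
    cases w₂ with
    | nil => exact absurd rfl hw
    | cons j t =>
      obtain ⟨x, hx⟩ := key j t
      exact ⟨x, by rw [hnil]; exact hx⟩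
  | cons i s ih =>
    cases w₂ with
    | nil =>
      obtain ⟨x, hx⟩ := key i s
      exact ⟨x, by rw [hnil]; exact hx.symm⟩
    | cons j t =>
      by_cases hij : i = j
      · subst hij
        obtain ⟨x, hx⟩ := ih (w₂ := t) (fun h => hw (by rw [h]))
        refine ⟨x, fun h => hx ?_⟩
        rw [cross_ev_cons, cross_ev_cons, mul_smul, mul_smul] at h
        exact smul_left_cancel _ h
      · refine ⟨x₀, ?_⟩
        rw [cross_ev_cons, cross_ev_cons, mul_smul, mul_smul]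
        cases i <;> cases j
        · exact absurd rfl hij
        · exact (hd _ (cross_ev_mem hf hg t _ hx₀) _ (cross_ev_mem hf hg s _ hx₀)).symm
        · exact hd _ (cross_ev_mem hf hg s _ hx₀) _ (cross_ev_mem hf hg t _ hx₀)
        · exact absurd rfl hij

/-- the crossing configuration is impossible -/
private theorem cross_aux (hm : Mono G Ω) {N K : Subgroup G} (hN : RelNFS N K)
    (hK : ∀ k ∈ K, ∀ x : Ω, k • x = x) {a b : G} (ha : a ∈ N) (hb : b ∈ N) {x y u v w : Ω}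
    (hu1 : u ∈ comp a x) (hu2 : u ∈ comp b y) (hv : v ∈ comp a x) (hv' : v ∉ comp b y)
    (hw : w ∈ comp b y) (hw' : w ∉ comp a x) (hvu : v < u) : False := by
  -- `v` is below the second component, `w` above the first one
  have h1 : ∀ z ∈ comp b y, v < z := by
    intro z hz
    by_contra hcon
    push Not at hcon
    exact hv' (cross_convex hz hu2 hcon hvu.le)
  have h2 : u < w := by
    by_contra hcon
    push Not at hcon
    exact hw' (cross_convex hv hu1 (h1 w hw).le hcon)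
  have h3 : ∀ z ∈ comp a x, z < w := by
    intro z hz
    by_contra hcon
    push Not at hcon
    exact hw' (cross_convex hu1 hz h2.le hcon)
  obtain ⟨k, hk⟩ : ∃ k : ℤ, u ≤ a ^ k • v := by
    have h4 : u ∈ comp a v := by
      rw [comp_eq_of_mem hm hv]
      exact hu1
    exact h4.2
  obtain ⟨l, hl⟩ : ∃ l : ℤ, b ^ l • w ≤ u := by
    have h4 : u ∈ comp b w := by
      rw [comp_eq_of_mem hm hw]
      exact hu2
    exact h4.1
  have hf : ∀ z ∈ comp a x ∩ comp b y, u < a ^ k • z := fun z hz =>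
    hk.trans_lt (hm _ _ _ (h1 z hz.2))
  have hg : ∀ z ∈ comp a x ∩ comp b y, b ^ l • z < u := fun z hz =>
    (hm _ _ _ (h3 z hz.1)).trans_le hl
  obtain ⟨w₁, w₂, hww, hwK⟩ := hN (a ^ k) (N.zpow_mem ha k) (b ^ l) (N.zpow_mem hb l)
  obtain ⟨z, hz⟩ := ping (f := a ^ k) (g := b ^ l) (X := comp a x ∩ comp b y) ⟨u, hu1, hu2⟩
    (fun z hz => ⟨cross_zpow_mem hm hz.1 k,
      cross_convex hu2 hw (hf z hz).le (h3 _ (cross_zpow_mem hm hz.1 k)).le⟩)
    (fun z hz => ⟨cross_convex hv hu1 (h1 _ (cross_zpow_mem hm hz.2 l)).le (hg z hz).le,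
      cross_zpow_mem hm hz.2 l⟩)
    (fun z hz z' hz' => ((hg z' hz').trans (hf z hz)).ne') hww
  refine hz ?_
  have h5 := hK _ hwK z
  rw [mul_smul, inv_smul_eq_iff] at h5
  exact h5.symm

/-- two components of elements of `N` are nested or disjoint -/
theorem cross (hm : Mono G Ω) {N K : Subgroup G} (hN : RelNFS N K)
    (hK : ∀ k ∈ K, ∀ x : Ω, k • x = x) {a b : G} (ha : a ∈ N) (hb : b ∈ N) (x y : Ω)
    (hne : (comp a x ∩ comp b y).Nonempty) :
    comp a x ⊆ comp b y ∨ comp b y ⊆ comp a x := by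
  obtain ⟨u, hu1, hu2⟩ := hne
  by_contra hcon
  push Not at hcon
  obtain ⟨v, hv, hv'⟩ := Set.not_subset.1 hcon.1
  obtain ⟨w, hw, hw'⟩ := Set.not_subset.1 hcon.2
  rcases lt_trichotomy v u with h | h | h
  · exact cross_aux hm hN hK ha hb hu1 hu2 hv hv' hw hw' h
  · rw [h] at hv'
    exact hv' hu2
  · rcases lt_trichotomy w u with h' | h' | h'
    · exact cross_aux hm hN hK hb ha hu2 hu1 hw hw' hv hv' h'
    · rw [h'] at hw'
      exact hw' hu1
    · -- both above `u`
      rcases le_total v w with h3 | h3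
      · exact hv' (cross_convex hu2 hw h.le h3)
      · exact hw' (cross_convex hu1 hv h'.le h3)

end Act

end Pool.Agent.IsoOrd
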