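import Pool.Agent.IsoOrd.CompLev

/-!
# The sets J form a partition

Leaves at `x`: the sets `comp a x`, `a ∈ N`, `a x ≠ x`. `J x` is their intersection. Let `y ∈ J x` (in the
notation of the statement). Claim: `x ∈ comp a y` for every `a ∈ N` with `a y ≠ y`. Then
`comp a y = comp a x` and `a x ≠ x`, so the leaves at `y` are leaves at `x`, `J x ⊆ J y`, `x ∈ J y`, and by
symmetry equality. Proof of the claim: let `I = comp a y`, suppose `x ∉ I`. For every leaf `comp b x`,
`y ∈ comp b x`, so `I` and `comp b x` are nested (`cross`), `x ∉ I`, so `I ⊆ comp b x`: `I ⊆ J x`. Let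
`h • x = y`. `h I ⊆ h J x = J y ⊆ I` and `y = h x ∈ I \ h I`. So `I_k = h^k I` is strictly decreasing,
`I_k = comp a_k (h^k y)` with `a_k = h^k a h^(-k) ∈ N`, `I_k ⊆ J x`, `x ∉ I_k`, hence `a_k x = x`
(otherwise `comp a_k x` contains `J x ⊇ I_k`, so it equals `I_k`, which does not contain `x`). Let
`g o = x`: all `g⁻¹ a_k g ∈ C`. With `j, lev` from `LevBound`, two of the `j + 2` elements
`g⁻¹ a_k g`, `k ≤ j + 1`, have the same level, so by `comp_eq_of_lev` at the point `g⁻¹ z`,
`z ∈ I_(j+1)`, the corresponding `I_k` are equal: contradiction.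
-/

set_option autoImplicit false

universe u

namespace Pool.Agent.IsoOrd

variable {G : Type*} [Group G]

section Act

variable {Ω : Type*} [LinearOrder Ω] [MulAction G Ω]

/-- the intersection of all components at `x` -/
def Jset (N : Subgroup G) (x : Ω) : Set Ω := {z | ∀ a ∈ N, a • x ≠ x → z ∈ comp a x}

private theorem JPart_le_iff (hm : Mono G Ω) (g : G) (x y : Ω) : g • x ≤ g • y ↔ x ≤ y := by
  constructor
  · intro h
    have := cross_smul_le hm g⁻¹ h
    rwa [inv_smul_smul, inv_smul_smul] at this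
  · exact cross_smul_le hm g

/-- the components are equivariant -/
theorem JPart_comp_smul (hm : Mono G Ω) (g a : G) (x z : Ω) :
    g • z ∈ comp (g * a * g⁻¹) (g • x) ↔ z ∈ comp a x := by
  have e : ∀ m : ℤ, (g * a * g⁻¹) ^ m • g • x = g • a ^ m • x := by
    intro m
    rw [conj_zpow, ← mul_smul, ← mul_smul, inv_mul_cancel_right]
  unfold comp
  simp only [Set.mem_ofPred_eq, e, JPart_le_iff hm]

theorem JPart_comp_eq_singleton {a : G} {x z : Ω} (ha : a • x = x) (hz : z ∈ comp a x) : z = x := by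
  have e : ∀ m : ℤ, a ^ m • x = x := fun m =>
    (MulAction.stabilizer G x).zpow_mem (MulAction.mem_stabilizer_iff.2 ha) m
  obtain ⟨⟨m, hm⟩, ⟨n, hn⟩⟩ := hz
  rw [e] at hm hn
  exact le_antisymm hn hm

theorem JPart_smul_mem (hm : Mono G Ω) {a : G} (x : Ω) : a • x ∈ comp a x := by
  have := cross_zpow_mem hm (cross_mem_self a x) 1
  rwa [zpow_one] at this

/-- a component with more than one point contains no fixed points -/
theorem JPart_ne_of_mem (hm : Mono G Ω) {a : G} {y z : Ω} (hay : a • y ≠ y) (hz : z ∈ comp a y) :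
    a • z ≠ z := by
  intro h
  have h1 := comp_eq_of_mem hm hz
  have h2 : y ∈ comp a z := by
    rw [h1]
    exact cross_mem_self a y
  have h3 : a • y ∈ comp a z := by
    rw [h1]
    exact JPart_smul_mem hm y
  exact hay ((JPart_comp_eq_singleton h h3).trans (JPart_comp_eq_singleton h h2).symm)

theorem JPart_Jset_smul (hm : Mono G Ω) {N : Subgroup G} (hNn : N.Normal) (g : G) (x z : Ω) :
    g • z ∈ Jset N (g • x) ↔ z ∈ Jset N x := by
  constructor
  · intro h a ha hax
    have h1 := h (g * a * g⁻¹) (hNn.conj_mem a ha g) (fun h2 => hax (by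
      rw [← mul_smul, inv_mul_cancel_right, mul_smul] at h2
      exact smul_left_cancel g h2))
    rwa [JPart_comp_smul hm] at h1
  · intro h a ha hax
    have h1 := h (g⁻¹ * a * g) (by simpa using hNn.conj_mem a ha g⁻¹) (fun h2 => hax (by
      rw [mul_assoc, mul_smul, inv_smul_eq_iff, mul_smul] at h2
      exact h2))
    rw [← JPart_comp_smul hm g] at h1
    have e : g * (g⁻¹ * a * g) * g⁻¹ = a := by group
    rwa [e] at h1

theorem JPart_self {N : Subgroup G} (x : Ω) : x ∈ Jset N x := fun a _ _ => cross_mem_self a x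

/-- the claim of the header -/
private theorem JPart_claim (hm : Mono G Ω) (htr : ∀ x y : Ω, ∃ g : G, g • x = y) {P : Set G}
    (hP : Cone ⊤ P) {C : Subgroup G} {o : Ω} (hstab : ∀ g : G, g • o = o ↔ g ∈ C)
    (hlev : LevBound C) {N K : Subgroup G} (hNn : N.Normal)
    (hN : RelNFS N K) (hK : ∀ k ∈ K, ∀ x : Ω, k • x = x) {x y : Ω} (hy : y ∈ Jset N x) {a : G}
    (ha : a ∈ N) (hay : a • y ≠ y) : x ∈ comp a y := by
  by_contra hx
  -- `I = comp a y` is contained in `J x`
  have hI : comp a y ⊆ Jset N x := by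
    intro z hz b hb hbx
    rcases cross hm hN hK ha hb y x ⟨y, cross_mem_self a y, hy b hb hbx⟩ with h | h
    · exact h hz
    · exact absurd (h (cross_mem_self b x)) hx
  obtain ⟨h, rfl⟩ := htr x y
  -- the conjugates
  let ak : ℕ → G := fun k => h ^ k * a * (h ^ k)⁻¹
  let yk : ℕ → Ω := fun k => h ^ k • h • x
  let I : ℕ → Set Ω := fun k => comp (ak k) (yk k)
  have hIk : ∀ k z, h ^ k • z ∈ I k ↔ z ∈ comp a (h • x) := fun k z =>
    JPart_comp_smul hm (h ^ k) a (h • x) z
  have hstep0 : ∀ z ∈ comp a (h • x), h • z ∈ comp a (h • x) := by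
    intro z hz
    exact (JPart_Jset_smul hm hNn h x z).2 (hI hz) a ha hay
  have hdec : ∀ k, I (k + 1) ⊆ I k := by
    intro k z hz
    have e : z = h ^ (k + 1) • (h ^ (k + 1))⁻¹ • z := by rw [smul_inv_smul]
    rw [e, hIk] at hz
    rw [e, pow_succ, mul_smul, hIk]
    rw [pow_succ] at hz
    exact hstep0 _ hz
  have hdec' : ∀ k l, k ≤ l → I l ⊆ I k := by
    intro k l hkl
    induction l, hkl using Nat.le_induction with
    | base => exact subset_rfl
    | succ l _ ih => exact (hdec l).trans ih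
  have hI0 : I 0 = comp a (h • x) := by
    ext z
    have := hIk 0 z
    rwa [pow_zero, one_smul] at this
  have hykmem : ∀ k, yk k ∈ I k := fun k => cross_mem_self _ _
  have hnot : ∀ k, yk k ∉ I (k + 1) := by
    intro k hk
    change h ^ k • h • x ∈ I (k + 1) at hk
    rw [← mul_smul, ← pow_succ, hIk] at hk
    exact hx hk
  have hakN : ∀ k, ak k ∈ N := fun k => hNn.conj_mem a ha _
  have hakne : ∀ k, ak k • yk k ≠ yk k := by
    intro k hk
    change (h ^ k * a * (h ^ k)⁻¹) • h ^ k • h • x = h ^ k • h • x at hk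
    rw [← mul_smul, inv_mul_cancel_right, mul_smul] at hk
    exact hay (smul_left_cancel _ hk)
  have hfix : ∀ k, ak k • x = x := by
    intro k
    by_contra hne
    have h1 : yk k ∈ Jset N x := by
      apply hI
      rw [← hI0]
      exact hdec' 0 k (Nat.zero_le k) (hykmem k)
    have h2 : yk k ∈ comp (ak k) x := h1 _ (hakN k) hne
    have h3 : x ∈ I k := by
      change x ∈ comp (ak k) (yk k)
      rw [comp_eq_of_mem hm h2]
      exact cross_mem_self _ _
    apply hx
    rw [← hI0]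
    exact hdec' 0 k (Nat.zero_le k) h3
  obtain ⟨g, hg⟩ := htr o x
  have hC : ∀ k, g⁻¹ * ak k * g ∈ C := by
    intro k
    rw [← hstab, mul_smul, hg, mul_smul, hfix, ← hg, inv_smul_smul]
  obtain ⟨j, lev, hj, hinv, hlv⟩ := hlev
  -- two of the conjugates have the same level
  have hpig : ∃ k l : Fin (j + 2), k < l ∧
      lev (g⁻¹ * ak k * g) = lev (g⁻¹ * ak l * g) := by
    obtain ⟨k, l, hkl, hE⟩ := Fintype.exists_ne_map_eq_of_card_lt
      (fun k : Fin (j + 2) => (⟨lev (g⁻¹ * ak k * g), Nat.lt_succ_of_le (hj _ (hC k))⟩ :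
        Fin (j + 1))) (by simp)
    have hE' : lev (g⁻¹ * ak k * g) = lev (g⁻¹ * ak l * g) := by
      simpa using hE
    rcases lt_or_gt_of_ne hkl with h1 | h1
    · exact ⟨k, l, h1, hE'⟩
    · exact ⟨l, k, h1, hE'.symm⟩
  obtain ⟨k, l, hkl, hE⟩ := hpig
  have hkl' : (k : ℕ) < l := hkl
  set z := yk l with hz
  have hzl : z ∈ I l := hykmem l
  have hzk : z ∈ I k := hdec' k l hkl'.le hzl
  have hnek : ak k • z ≠ z := JPart_ne_of_mem hm (hakne k) hzk
  have hnel : ak l • z ≠ z := JPart_ne_of_mem hm (hakne l) hzl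
  have hconj : ∀ c : G, c • z ≠ z → (g⁻¹ * c * g) • g⁻¹ • z ≠ g⁻¹ • z := by
    intro c hc h1
    rw [← mul_smul, mul_inv_cancel_right, mul_smul] at h1
    exact hc (smul_left_cancel _ h1)
  have hcomp := comp_eq_of_lev hm hP hinv hlv (g⁻¹ • z) (hC k) (hC l) (hconj _ hnek)
    (hconj _ hnel) hE
  have hback : ∀ (c : G) (t : Ω), t ∈ comp c z ↔ g⁻¹ • t ∈ comp (g⁻¹ * c * g) (g⁻¹ • z) := by
    intro c t
    have h1 := JPart_comp_smul hm g⁻¹ c z t
    rw [inv_inv] at h1
    exact h1.symm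
  have hIeq : I k = I l := by
    change comp (ak k) (yk k) = comp (ak l) (yk l)
    rw [← comp_eq_of_mem hm hzk]
    ext t
    rw [← hz, hback, hback (ak l), hcomp]
  have h1 := hykmem k
  rw [hIeq] at h1
  exact hnot k (hdec' (k + 1) l hkl' h1)

private theorem JPart_sub (hm : Mono G Ω) (htr : ∀ x y : Ω, ∃ g : G, g • x = y) {P : Set G}
    (hP : Cone ⊤ P) {C : Subgroup G} {o : Ω} (hstab : ∀ g : G, g • o = o ↔ g ∈ C)
    (hlev : LevBound C) {N K : Subgroup G} (hNn : N.Normal)
    (hN : RelNFS N K) (hK : ∀ k ∈ K, ∀ x : Ω, k • x = x) {x y : Ω} (hy : y ∈ Jset N x) :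
    Jset N x ⊆ Jset N y := by
  intro z hz a ha hay
  have h1 := JPart_claim hm htr hP hstab hlev hNn hN hK hy ha hay
  have h2 := comp_eq_of_mem hm h1
  rw [← h2]
  exact hz a ha (JPart_ne_of_mem hm hay h1)

/-- the sets `Jset N x` form a partition -/
theorem Jset_partition (hm : Mono G Ω) (htr : ∀ x y : Ω, ∃ g : G, g • x = y) {P : Set G}
    (hP : Cone ⊤ P) {C : Subgroup G} {o : Ω} (hstab : ∀ g : G, g • o = o ↔ g ∈ C)
    (hlev : LevBound C) {N K : Subgroup G} (hNn : N.Normal)
    (hN : RelNFS N K) (hK : ∀ k ∈ K, ∀ x : Ω, k • x = x) :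
    ∀ x y : Ω, y ∈ Jset N x → Jset N y = Jset N x := by
  intro x y hy
  have h1 := JPart_sub hm htr hP hstab hlev hNn hN hK hy
  exact Set.Subset.antisymm
    (JPart_sub hm htr hP hstab hlev hNn hN hK (h1 (JPart_self x))) h1

end Act

end Pool.Agent.IsoOrd
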