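import Pool.Agent.IsoOrd.Basic
import Pool.Agent.IsoOrd.Cross
import Pool.Agent.IsoOrd.Perturb
import Pool.Agent.IsoOrd.JPart

/-!
# Leaves at the base point do not shrink to the base point

Let `R, c` be as in `TopAlt`. Choose `v < o < w` with `r⁻¹ f⁻¹ o ≤ v` and `w ≤ r⁻¹ f o` for all `r ∈ R`,
`f ∈ F \ C` (finitely many points below resp. above `o`; `Ω` has points below and above `o` since `C ≠ ⊤`).
(1) If `S` is a lower set with `v ∈ S`, `w ∉ S` which is fixed by some `a ∈ N` with `a o ≠ o` then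
`c S ⊆ S`, `c S ≠ S`. Proof: apply `TopAlt` to the cone of the cut `S` on `C`. Second alternative: done.
First alternative, `r ∈ R`: `S' = r S` satisfies `S' ⊆ f S'` for `f ∈ F ∩ C`, and for `f ∈ F \ C`:
`f⁻¹ o ∈ S'`, `f o ∉ S'`; if `o ∈ S'` then `S' ⊆ Iio (f o) ⊆ f S'`; if `o ∉ S'` then `S' ⊆ Iio o` and
`o ∈ f S'`. So by `perturb` the stabiliser of `S'` is convex; it contains `r a r⁻¹ ∉ C`, so it contains `C`
(`Cvx.total`, `Basic`), so it is `C` (impossible) or `⊤` (impossible by transitivity as `S'` is proper).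
(2) For a leaf `I = comp a o` let `S₋ = {z | ∀ y ∈ I, z < y}` and `S₊ = {z | ∃ y ∈ I, z ≤ y}`, both fixed by
`a`. If `v` is below `I` and `w` above `I` then (1) applies to both, and `I` and
`c I = comp (c a c⁻¹) o` are not nested though both contain `o`: contradiction to `cross`. So every leaf
contains `v` or `w`. Leaves at `o` form a chain; if not all contain `v`, all contain `w`. So `v ∈ J o` or
`w ∈ J o`. (If `N` fixes `o` then `J o = univ`.)
-/

set_option autoImplicit false

universe u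

namespace Pool.Agent.IsoOrd

variable {G : Type*} [Group G]

section Act

variable {Ω : Type*} [LinearOrder Ω] [MulAction G Ω]

private theorem jne_le (hm : Mono G Ω) (g : G) {x y : Ω} (h : x ≤ y) : g • x ≤ g • y := by
  rcases h.lt_or_eq with h | h
  · exact (hm g x y h).le
  · rw [h]

private theorem jne_lt_iff (hm : Mono G Ω) (g : G) {x y : Ω} : g • x < g • y ↔ x < y := by
  constructor
  · intro h
    have := hm g⁻¹ _ _ h
    rwa [inv_smul_smul, inv_smul_smul] at this
  · exact hm g x y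

private theorem jne_le_iff (hm : Mono G Ω) (g : G) {x y : Ω} : g • x ≤ g • y ↔ x ≤ y := by
  constructor
  · intro h
    have := jne_le hm g⁻¹ h
    rwa [inv_smul_smul, inv_smul_smul] at this
  · exact jne_le hm g

private theorem jne_self (a : G) (x : Ω) : x ∈ comp a x :=
  ⟨⟨0, by rw [zpow_zero, one_smul]⟩, ⟨0, by rw [zpow_zero, one_smul]⟩⟩

private theorem jne_cvx {a : G} {x y z w : Ω} (hy : y ∈ comp a x) (hw : w ∈ comp a x)
    (h1 : y ≤ z) (h2 : z ≤ w) : z ∈ comp a x := by
  obtain ⟨⟨m, hm⟩, -⟩ := hy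
  obtain ⟨-, ⟨n, hn⟩⟩ := hw
  exact ⟨⟨m, hm.trans h1⟩, ⟨n, h2.trans hn⟩⟩

private theorem jne_inv (hm : Mono G Ω) (a : G) (x y : Ω) : a • y ∈ comp a x ↔ y ∈ comp a x := by
  constructor
  · rintro ⟨⟨m, h1⟩, ⟨n, h2⟩⟩
    refine ⟨⟨m - 1, ?_⟩, ⟨n - 1, ?_⟩⟩
    · rw [← jne_le_iff hm a, smul_smul, ← zpow_one_add]
      convert h1 using 3
      ring
    · rw [← jne_le_iff hm a, smul_smul, ← zpow_one_add]
      convert h2 using 3
      ring
  · rintro ⟨⟨m, h1⟩, ⟨n, h2⟩⟩
    refine ⟨⟨1 + m, ?_⟩, ⟨1 + n, ?_⟩⟩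
    · rw [zpow_one_add, mul_smul, jne_le_iff hm]
      exact h1
    · rw [zpow_one_add, mul_smul, jne_le_iff hm]
      exact h2

private theorem jne_conj (hm : Mono G Ω) {c : G} {o : Ω} (hc : c • o = o) (a : G) (z : Ω) :
    z ∈ comp (c * a * c⁻¹) o ↔ c⁻¹ • z ∈ comp a o := by
  have hc' : c⁻¹ • o = o := by rw [inv_smul_eq_iff, hc]
  have key : ∀ m : ℤ, (c * a * c⁻¹) ^ m • o = c • a ^ m • o := by
    intro m
    rw [conj_zpow, mul_smul, mul_smul, hc']
  unfold comp
  simp only [Set.mem_ofPred_eq, key]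
  have e1 : ∀ u : Ω, c • u ≤ z ↔ u ≤ c⁻¹ • z := by
    intro u
    rw [← jne_le_iff hm c⁻¹, inv_smul_smul]
  have e2 : ∀ u : Ω, z ≤ c • u ↔ c⁻¹ • z ≤ u := by
    intro u
    rw [← jne_le_iff hm c⁻¹, inv_smul_smul]
  simp only [e1, e2]

/-- leaves at the base point cannot shrink to the base point -/
theorem Jset_ne {P F : Set G} (h : Isol ⊤ P F) {C : Subgroup G} (hne : C ≠ ⊤) {o : Ω}
    (hd : Dyn G Ω P C o) (htop : TopAlt P C)
    (hmax : ∀ H, Cvx P ⊤ H → C ≤ H → H = C ∨ H = ⊤) {N K : Subgroup G} (hNn : N.Normal)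
    (hN : RelNFS N K) (hK : ∀ k ∈ K, ∀ x : Ω, k • x = x) : Jset N o ≠ {o} := by
  classical
  have hm := hd.mono
  have hinvP : ∀ g : G, g ∈ P → g⁻¹ ∉ P := by
    intro g h1 h2
    have := h.cone.mul _ h1 _ h2
    rw [mul_inv_cancel] at this
    exact h.cone.one this
  have hCv : Cvx P ⊤ C := by
    refine ⟨le_top, ?_⟩
    intro x hx y hy hyx
    by_contra hyC
    have h1 := hd.pos y hy hyC
    have h2 : y⁻¹ * x ∉ C := by
      intro h3
      apply hyC
      have h4 := C.mul_mem h3 (C.inv_mem hx)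
      rw [mul_inv_cancel_right] at h4
      simpa using C.inv_mem h4
    have h3 := hd.pos _ hyx h2
    rw [mul_smul, (hd.stab x).mpr hx] at h3
    have h4 := hm y _ _ h3
    rw [smul_inv_smul] at h4
    exact lt_asymm h1 h4
  obtain ⟨R, hRC, c, hcC, hQ⟩ := htop
  have hco : c • o = o := (hd.stab c).mpr hcC
  -- points below and above `o`
  obtain ⟨p, hpP, hpC⟩ : ∃ p ∈ P, p ∉ C := by
    by_contra hcon
    push Not at hcon
    apply hne
    rw [eq_top_iff]
    intro g _
    by_cases hg1 : g = 1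
    · rw [hg1]
      exact C.one_mem
    rcases h.cone.tot g (Subgroup.mem_top g) hg1 with h1 | h1
    · exact hcon g h1
    · simpa using C.inv_mem (hcon _ h1)
  have hFf : (F \ (C : Set G)).Finite := h.fin.subset Set.sdiff_subset
  -- the finite sets of points
  set A : Finset Ω := insert (p • o) (((R ×ˢ hFf.toFinset).image fun q => q.1⁻¹ • q.2 • o)) with hA
  set B : Finset Ω := insert (p⁻¹ • o) (((R ×ˢ hFf.toFinset).image fun q => q.1⁻¹ • q.2⁻¹ • o)) with hB
  have hAne : A.Nonempty := ⟨_, Finset.mem_insert_self _ _⟩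
  have hBne : B.Nonempty := ⟨_, Finset.mem_insert_self _ _⟩
  have hrinv : ∀ r ∈ R, r⁻¹ • o = o := fun r hr => (hd.stab _).mpr (C.inv_mem (hRC r hr))
  have hAo : ∀ x ∈ A, o < x := by
    intro x hx
    rw [hA, Finset.mem_insert, Finset.mem_image] at hx
    rcases hx with hx | ⟨q, hq, hqx⟩
    · rw [hx]
      exact hd.pos p hpP hpC
    · rw [Finset.mem_product, Set.Finite.mem_toFinset] at hq
      have h1 := hd.pos q.2 (h.sub hq.2.1) hq.2.2
      have h2 := hm q.1⁻¹ _ _ h1
      rw [hrinv q.1 hq.1] at h2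
      rw [← hqx]
      exact h2
  have hBo : ∀ x ∈ B, x < o := by
    intro x hx
    rw [hB, Finset.mem_insert, Finset.mem_image] at hx
    have key : ∀ g : G, g ∈ P → g ∉ C → g⁻¹ • o < o := by
      intro g hg hgC
      have h1 := hm g⁻¹ _ _ (hd.pos g hg hgC)
      rwa [inv_smul_smul] at h1
    rcases hx with hx | ⟨q, hq, hqx⟩
    · rw [hx]
      exact key p hpP hpC
    · rw [Finset.mem_product, Set.Finite.mem_toFinset] at hq
      have h1 := key q.2 (h.sub hq.2.1) hq.2.2
      have h2 := hm q.1⁻¹ _ _ h1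
      rw [hrinv q.1 hq.1] at h2
      rw [← hqx]
      exact h2
  set w := A.min' hAne with hw
  set v := B.max' hBne with hv
  have how : o < w := hAo _ (Finset.min'_mem _ _)
  have hvo : v < o := hBo _ (Finset.max'_mem _ _)
  have hwle : ∀ r ∈ R, ∀ f ∈ F, f ∉ C → w ≤ r⁻¹ • f • o := by
    intro r hr f hf hfC
    apply Finset.min'_le
    rw [hA, Finset.mem_insert, Finset.mem_image]
    exact Or.inr ⟨(r, f), Finset.mem_product.mpr ⟨hr, hFf.mem_toFinset.mpr ⟨hf, hfC⟩⟩, rfl⟩
  have hvle : ∀ r ∈ R, ∀ f ∈ F, f ∉ C → r⁻¹ • f⁻¹ • o ≤ v := by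
    intro r hr f hf hfC
    apply Finset.le_max'
    rw [hB, Finset.mem_insert, Finset.mem_image]
    exact Or.inr ⟨(r, f), Finset.mem_product.mpr ⟨hr, hFf.mem_toFinset.mpr ⟨hf, hfC⟩⟩, rfl⟩
  -- (1)
  have step1 : ∀ S : Set Ω, IsLowerSet S → v ∈ S → w ∉ S → ∀ a ∈ N, a • o ≠ o →
      (∀ x, a • x ∈ S ↔ x ∈ S) → ∃ x ∈ S, c⁻¹ • x ∉ S := by
    intro S hS hvS hwS a haN hao haS
    rcases hQ _ (cone_of_cut h.cone hm S hS C) with ⟨r, hr, hrQ⟩ | ⟨hcP, hcQ⟩
    · exfalso
      -- the translate of `S`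
      set S' : Set Ω := {x | r⁻¹ • x ∈ S} with hS'
      have hS'l : IsLowerSet S' := by
        intro x y hyx hx
        exact hS (jne_le hm r⁻¹ hyx) hx
      have hF' : ∀ f ∈ F, ∀ x ∈ S', f⁻¹ • x ∈ S' := by
        intro f hf x hx
        by_cases hfC : f ∈ C
        · have h1 := (hrQ f (h.sub hf) hfC).2.1 (r⁻¹ • x) hx
          change r⁻¹ • f⁻¹ • x ∈ S
          have h2 : (r⁻¹ * f * r)⁻¹ • r⁻¹ • x = r⁻¹ • f⁻¹ • x := by
            rw [smul_smul, smul_smul]
            congr 1
            group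
          rwa [h2] at h1
        · have h1 : f⁻¹ • o ∈ S' := hS (hvle r hr f hf hfC) hvS
          have h2 : f • o ∉ S' := fun h3 => hwS (hS (hwle r hr f hf hfC) h3)
          by_cases ho : o ∈ S'
          · have h3 : x < f • o := by
              by_contra h4
              exact h2 (hS'l (not_lt.mp h4) hx)
            have h4 := hm f⁻¹ _ _ h3
            rw [inv_smul_smul] at h4
            exact hS'l h4.le ho
          · have h3 : x < o := by
              by_contra h4
              exact ho (hS'l (not_lt.mp h4) hx)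
            exact hS'l (hm f⁻¹ _ _ h3).le h1
      let H : Subgroup G :=
        { carrier := {g | ∀ x, g • x ∈ S' ↔ x ∈ S'}
          mul_mem' := by
            intro g g' hg hg' x
            rw [mul_smul, hg, hg']
          one_mem' := by
            intro x
            rw [one_smul]
          inv_mem' := by
            intro g hg x
            rw [← hg (g⁻¹ • x), smul_inv_smul] }
      have hH := perturb h hm S' hS'l hF' H (fun g => Iff.rfl)
      have haH : r * a * r⁻¹ ∈ H := by
        intro x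
        change r⁻¹ • ((r * a * r⁻¹) • x) ∈ S ↔ r⁻¹ • x ∈ S
        have h1 : r⁻¹ • ((r * a * r⁻¹) • x) = a • (r⁻¹ • x) := by
          rw [smul_smul, smul_smul]
          congr 1
          group
        rw [h1, haS]
      have haC : r * a * r⁻¹ ∉ C := by
        intro h1
        have h2 := (hd.stab _).mpr h1
        rw [mul_smul, hrinv r hr, mul_smul] at h2
        apply hao
        have h3 : a • o = r⁻¹ • o := by rw [← h2, inv_smul_smul, h2]
        rw [h3, hrinv r hr]
      have hCH : C ≤ H := by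
        rcases Cvx.total h.cone hCv hH with h1 | h1
        · exact h1
        · exact absurd (h1 haH) haC
      rcases hmax H hH hCH with h1 | h1
      · exact haC (h1 ▸ haH)
      · obtain ⟨g₁, hg₁⟩ := hd.trans (r • v)
        obtain ⟨g₂, hg₂⟩ := hd.trans (r • w)
        have h2 : r • v ∈ S' := by
          change r⁻¹ • r • v ∈ S
          rwa [inv_smul_smul]
        have h3 : r • w ∉ S' := by
          change ¬ r⁻¹ • r • w ∈ S
          rwa [inv_smul_smul]
        have h4 : g₂ * g₁⁻¹ ∈ H := by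
          rw [h1]
          exact Subgroup.mem_top _
        have h5 := h4 (r • v)
        have h6 : (g₂ * g₁⁻¹) • (r • v) = r • w := by
          rw [← hg₁, mul_smul, inv_smul_smul, hg₂]
        rw [h6] at h5
        exact h3 (h5.mpr h2)
    · obtain ⟨-, h1, h2⟩ := hcQ
      by_contra hcon
      push Not at hcon
      exact hinvP c hcP (h2 hcon)
  -- (2)
  have step2 : ∀ a ∈ N, a • o ≠ o → v ∈ comp a o ∨ w ∈ comp a o := by
    intro a haN hao
    by_contra hcon
    push Not at hcon
    obtain ⟨hvI, hwI⟩ := hcon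
    have hoI := jne_self a o
    have hvb : ∀ y ∈ comp a o, v < y := by
      intro y hy
      by_contra h1
      exact hvI (jne_cvx hy hoI (not_lt.mp h1) hvo.le)
    have hwb : ∀ y ∈ comp a o, y < w := by
      intro y hy
      by_contra h1
      exact hwI (jne_cvx hoI hy how.le (not_lt.mp h1))
    have hcI : ∀ z, z ∈ comp (c * a * c⁻¹) o ↔ c⁻¹ • z ∈ comp a o := jne_conj hm hco a
    obtain ⟨x₁, hx₁, hx₁c⟩ := step1 {z | ∀ y ∈ comp a o, z < y}
      (fun x y hyx hx z hz => lt_of_le_of_lt hyx (hx z hz)) hvb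
      (fun hw' => lt_asymm (hw' o hoI) how) a haN hao (by
        intro x
        constructor
        · intro hx y hy
          have h1 := hx (a • y) ((jne_inv hm a o y).mpr hy)
          exact (jne_lt_iff hm a).mp h1
        · intro hx y hy
          have h1 := hx (a⁻¹ • y) (by
            rw [← jne_inv hm a o, smul_inv_smul]
            exact hy)
          have h2 := hm a _ _ h1
          rwa [smul_inv_smul] at h2)
    obtain ⟨x₂, hx₂, hx₂c⟩ := step1 {z | ∃ y ∈ comp a o, z ≤ y}
      (fun x y hyx ⟨z, hz, hxz⟩ => ⟨z, hz, hyx.trans hxz⟩) ⟨o, hoI, hvo.le⟩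
      (fun ⟨y, hy, hwy⟩ => absurd (hwb y hy) (not_lt.mpr hwy)) a haN hao (by
        intro x
        constructor
        · rintro ⟨y, hy, hxy⟩
          refine ⟨a⁻¹ • y, ?_, ?_⟩
          · rw [← jne_inv hm a o, smul_inv_smul]
            exact hy
          · rw [← jne_le_iff hm a, smul_inv_smul]
            exact hxy
        · rintro ⟨y, hy, hxy⟩
          exact ⟨a • y, (jne_inv hm a o y).mpr hy, jne_le hm a hxy⟩)
    have hcaN : c * a * c⁻¹ ∈ N := hNn.conj_mem a haN c
    have hnest := cross hm hN hK haN hcaN o o ⟨o, hoI, jne_self _ _⟩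
    -- not `cI ⊆ I`
    have hn1 : ¬ comp (c * a * c⁻¹) o ⊆ comp a o := by
      intro hsub
      have h1 : ¬ ∀ y ∈ comp a o, c⁻¹ • x₁ < y := hx₁c
      push Not at h1
      obtain ⟨y, hy, hyx⟩ := h1
      have h2 : c • y ∈ comp (c * a * c⁻¹) o := by
        rw [hcI, inv_smul_smul]
        exact hy
      have h3 := hx₁ _ (hsub h2)
      have h4 := jne_le hm c hyx
      rw [smul_inv_smul] at h4
      exact absurd h3 (not_lt.mpr h4)
    have hn2 : ¬ comp a o ⊆ comp (c * a * c⁻¹) o := by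
      intro hsub
      obtain ⟨y, hy, hxy⟩ := hx₂
      have h1 := hsub hy
      rw [hcI] at h1
      exact hx₂c ⟨c⁻¹ • y, h1, jne_le hm c⁻¹ hxy⟩
    rcases hnest with h1 | h1
    · exact hn2 h1
    · exact hn1 h1
  -- (3)
  have step3 : v ∈ Jset N o ∨ w ∈ Jset N o := by
    by_contra hcon
    push Not at hcon
    obtain ⟨h1, h2⟩ := hcon
    have h1' : ∃ a ∈ N, a • o ≠ o ∧ v ∉ comp a o := by
      by_contra h3
      push Not at h3
      exact h1 fun a ha hao => h3 a ha hao
    have h2' : ∃ a ∈ N, a • o ≠ o ∧ w ∉ comp a o := by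
      by_contra h3
      push Not at h3
      exact h2 fun a ha hao => h3 a ha hao
    obtain ⟨a, ha, hao, hva⟩ := h1'
    obtain ⟨b, hb, hbo, hwb⟩ := h2'
    have hwa := (step2 a ha hao).resolve_left hva
    have hvb := (step2 b hb hbo).resolve_right hwb
    rcases cross hm hN hK ha hb o o ⟨o, jne_self _ _, jne_self _ _⟩ with h3 | h3
    · exact hwb (h3 hwa)
    · exact hva (h3 hvb)
  intro hJ
  rw [hJ] at step3
  rcases step3 with h1 | h1
  · exact hvo.ne h1
  · exact how.ne' h1

end Act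

end Pool.Agent.IsoOrd
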