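import Pool.Agent.IsoOrd.Cross

/-!
# Short components

`I = comp a x`, `n • I = comp (n a n⁻¹) (n • x)`. By `cross` `I` and `n • I` are disjoint or nested. Disjoint:
then `n • x ∉ I` and convexity give the claim. Nested is impossible: first note that no `comp a z` is
`univ` (else `x₀` is in it). Say `n I ⊆ I` (so `n^k x ∈ I` for all `k ≥ 0` and `I` is unbounded above: an
upper set, as `comp n x = univ`). `n I ≠ I` (else `I = univ`). `a` moves points of `I`; replacing `a` by
its inverse it moves them up. Let `z ∈ I \ n I`, `v ∈ n² I`, choose `m` with `a^(-m) v ≤ z`;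
`X = I \ n² I`, `f = a^(-m)`, `g = n a^(-m)`: `f X ⊆ I \ n I`, `g X ⊆ n I \ n² I`. Contradiction to `ping`.
The case `I ⊆ n I` is symmetric (`n⁻¹ I ⊆ I`, a lower set).
-/

set_option autoImplicit false

universe u

namespace Pool.Agent.IsoOrd

variable {G : Type*} [Group G]

section Act

variable {Ω : Type*} [LinearOrder Ω] [MulAction G Ω]

private theorem Short_le (hm : Mono G Ω) (g : G) {x y : Ω} (h : x ≤ y) : g • x ≤ g • y := by
  rcases h.lt_or_eq with h | h
  · exact (hm g x y h).le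
  · rw [h]

private theorem Short_le_iff (hm : Mono G Ω) (g : G) {x y : Ω} : g • x ≤ y ↔ x ≤ g⁻¹ • y := by
  constructor
  · intro h
    have := Short_le hm g⁻¹ h
    rwa [inv_smul_smul] at this
  · intro h
    have := Short_le hm g h
    rwa [smul_inv_smul] at this

private theorem Short_le_iff' (hm : Mono G Ω) (g : G) {x y : Ω} : x ≤ g • y ↔ g⁻¹ • x ≤ y := by
  rw [Short_le_iff hm, inv_inv]

private theorem Short_mem_self (a : G) (x : Ω) : x ∈ comp a x :=
  ⟨⟨0, by simp⟩, ⟨0, by simp⟩⟩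

private theorem Short_zpow_mem (a : G) (x : Ω) (m : ℤ) : a ^ m • x ∈ comp a x :=
  ⟨⟨m, le_rfl⟩, ⟨m, le_rfl⟩⟩

private theorem Short_inv (hm : Mono G Ω) {a : G} {x z : Ω} (hz : z ∈ comp a x) (m : ℤ) :
    a ^ m • z ∈ comp a x := by
  obtain ⟨⟨p, hp⟩, ⟨q, hq⟩⟩ := hz
  refine ⟨⟨m + p, ?_⟩, ⟨m + q, ?_⟩⟩
  · rw [zpow_add, mul_smul]; exact Short_le hm _ hp
  · rw [zpow_add, mul_smul]; exact Short_le hm _ hq

private theorem Short_convex (a : G) {x y z w : Ω} (hy : y ∈ comp a x) (hz : z ∈ comp a x)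
    (h1 : y ≤ w) (h2 : w ≤ z) : w ∈ comp a x := by
  obtain ⟨p, hp⟩ := hy.1
  obtain ⟨q, hq⟩ := hz.2
  exact ⟨⟨p, hp.trans h1⟩, ⟨q, h2.trans hq⟩⟩

private theorem Short_conj (hm : Mono G Ω) (a n : G) (x z : Ω) :
    z ∈ comp (n * a * n⁻¹) (n • x) ↔ n⁻¹ • z ∈ comp a x := by
  have key : ∀ m : ℤ, (n * a * n⁻¹) ^ m • (n • x) = n • (a ^ m • x) := by
    intro m
    rw [conj_zpow, mul_smul, mul_smul, inv_smul_smul]
  constructor
  · rintro ⟨⟨p, hp⟩, ⟨q, hq⟩⟩
    rw [key] at hp hq
    exact ⟨⟨p, (Short_le_iff hm n).1 hp⟩, ⟨q, (Short_le_iff' hm n).1 hq⟩⟩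
  · rintro ⟨⟨p, hp⟩, ⟨q, hq⟩⟩
    refine ⟨⟨p, ?_⟩, ⟨q, ?_⟩⟩
    · rw [key]; exact (Short_le_iff hm n).2 hp
    · rw [key]; exact (Short_le_iff' hm n).2 hq

/-- the nested case, upwards -/
private theorem Short_up (hm : Mono G Ω) {N K : Subgroup G} (hN : RelNFS N K)
    (hK : ∀ k ∈ K, ∀ x : Ω, k • x = x) {a n : G} (ha : a ∈ N) (hn : n ∈ N)
    (hnp : ∀ x : Ω, x < n • x) (hcof : ∀ x : Ω, comp n x = Set.univ) (x : Ω)
    (hne : comp a x ≠ Set.univ) (hsub : ∀ z ∈ comp a x, n • z ∈ comp a x) : False := by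
  -- `a` moves all the points of the component in the same direction or some power is enough
  have hpow : ∀ (k : ℕ) (z : Ω), z ∈ comp a x → n ^ k • z ∈ comp a x := by
    intro k
    induction k with
    | zero => intro z hz; simpa using hz
    | succ k ih =>
      intro z hz
      rw [pow_succ, mul_smul]
      exact ih _ (hsub z hz)
  have hle : ∀ (k : ℕ) (z : Ω), z ≤ n ^ k • z := by
    intro k
    induction k with
    | zero => intro z; simp
    | succ k ih =>
      intro z
      rw [pow_succ, mul_smul]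
      exact (hnp z).le.trans (ih _)
  -- upper set
  have hup : ∀ z ∈ comp a x, ∀ w, z ≤ w → w ∈ comp a x := by
    intro z hz w hzw
    have h1 : w ∈ comp n x := by rw [hcof]; trivial
    obtain ⟨k, hk⟩ := h1.2
    have h2 : w ≤ n ^ k.toNat • x := by
      rcases le_or_gt 0 k with h | h
      · have : n ^ k.toNat = n ^ k := by
          rw [← zpow_natCast, Int.toNat_of_nonneg h]
        rw [this]; exact hk
      · have h3 : k.toNat = 0 := Int.toNat_of_nonpos h.le
        rw [h3, pow_zero, one_smul]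
        refine hk.trans ?_
        have h4 := hle (-k).toNat (n ^ k • x)
        have h5 : n ^ (-k).toNat • n ^ k • x = x := by
          rw [← zpow_natCast, Int.toNat_of_nonneg (by omega), ← mul_smul, ← zpow_add]
          simp
        rwa [h5] at h4
    exact Short_convex a hz (hpow _ x (Short_mem_self a x)) hzw h2
  -- a point of I outside n I
  obtain ⟨z, hz, hzn⟩ : ∃ z ∈ comp a x, n⁻¹ • z ∉ comp a x := by
    by_contra hcon
    push Not at hcon
    apply hne
    ext w
    simp only [Set.mem_univ, iff_true]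
    have hback : ∀ k : ℕ, (n ^ k)⁻¹ • x ∈ comp a x := by
      intro k
      induction k with
      | zero => simpa using Short_mem_self a x
      | succ k ih =>
        rw [pow_succ, mul_inv_rev, mul_smul]
        exact hcon _ ih
    have h1 : w ∈ comp n x := by rw [hcof]; trivial
    obtain ⟨k, hk⟩ := h1.1
    refine hup ((n ^ (-k).toNat)⁻¹ • x) (hback _) w (le_trans ?_ hk)
    rcases le_or_gt k 0 with h | h
    · have : (n ^ (-k).toNat)⁻¹ = n ^ k := by
        rw [← zpow_natCast, Int.toNat_of_nonneg (by omega), zpow_neg, inv_inv]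
      rw [this]
    · have h3 : (-k).toNat = 0 := Int.toNat_of_nonpos (by omega)
      rw [h3, pow_zero, inv_one, one_smul]
      have h4 := hle k.toNat x
      have h5 : n ^ k.toNat = n ^ k := by
        rw [← zpow_natCast, Int.toNat_of_nonneg h.le]
      rwa [h5] at h4
  have hnzx : n • n • z ∈ comp a x := hsub _ (hsub _ hz)
  -- a power of a
  obtain ⟨m, hm'⟩ : ∃ m : ℤ, a ^ m • (n • n • z) ≤ z := by
    have h1 : z ∈ comp a (n • n • z) := by
      rw [comp_eq_of_mem hm hnzx]; exact hz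
    exact h1.1
  set f := a ^ m with hf
  -- memberships
  let X : Set Ω := {y | y ∈ comp a x ∧ n⁻¹ • n⁻¹ • y ∉ comp a x}
  have hX : X.Nonempty := ⟨z, hz, fun h => hzn (by
    have := hsub _ h
    rwa [smul_inv_smul] at this)⟩
  have hfX : ∀ y ∈ X, f • y ∈ comp a x ∧ n⁻¹ • (f • y) ∉ comp a x := by
    rintro y ⟨hy, hy2⟩
    refine ⟨Short_inv hm hy m, fun hcon => hzn ?_⟩
    have h1 : y < n • n • z := by
      by_contra h
      push Not at h
      apply hy2
      refine hup z hz _ ?_
      rw [← Short_le_iff hm, ← Short_le_iff hm]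
      exact h
    have h2 : f • y ≤ z := (hm f _ _ h1).le.trans hm'
    exact hup _ hcon _ (Short_le hm n⁻¹ h2)
  obtain ⟨w₁, w₂, hw, hwK⟩ := hN f (N.zpow_mem ha m) (n * f) (N.mul_mem hn (N.zpow_mem ha m))
  obtain ⟨y, hy⟩ := ping (f := f) (g := n * f) hX (fun y hy => ⟨(hfX y hy).1, fun h => (hfX y hy).2 (by
      have := hsub _ h
      rwa [smul_inv_smul] at this)⟩)
    (fun y hy => by
      rw [mul_smul]
      refine ⟨hsub _ (hfX y hy).1, ?_⟩
      rw [inv_smul_smul]
      exact (hfX y hy).2)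
    (fun y hy y' hy' heq => (hfX y hy).2 (by
      rw [heq, mul_smul, inv_smul_smul]
      exact (hfX y' hy').1)) hw
  apply hy
  have h1 := hK _ hwK y
  rw [mul_smul] at h1
  have h2 := congrArg (fun t => ev f (n * f) w₁ • t) h1
  simp only [smul_inv_smul] at h2
  exact h2.symm

/-- in the presence of a cofinal element, an element which is not cofinal has short components -/
theorem short (hm : Mono G Ω) {N K : Subgroup G} (hN : RelNFS N K)
    (hK : ∀ k ∈ K, ∀ x : Ω, k • x = x) {a n : G} (ha : a ∈ N) (hn : n ∈ N)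
    (hnp : ∀ x : Ω, x < n • x) (hcof : ∀ x : Ω, comp n x = Set.univ) (x₀ : Ω)
    (hx₀ : comp a x₀ ≠ Set.univ) : ∀ x : Ω, ∀ z ∈ comp a x, z < n • x ∧ n⁻¹ • x < z := by
  intro x z hz
  have hx : comp a x ≠ Set.univ := by
    intro h
    apply hx₀
    have h1 : x₀ ∈ comp a x := by rw [h]; trivial
    rw [comp_eq_of_mem hm h1, h]
  -- the key: `n • x` is not in the component
  have hdisj : ∀ w ∈ comp a x, n⁻¹ • w ∉ comp a x := by
    intro w hw hw'
    have hw2 : w ∈ comp (n * a * n⁻¹) (n • x) := (Short_conj hm a n x w).2 hw'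
    rcases cross hm hN hK ha (N.mul_mem (N.mul_mem hn ha) (N.inv_mem hn)) x (n • x)
      ⟨w, hw, hw2⟩ with h | h
    · -- `I ⊆ n I`
      have hsub : ∀ u ∈ comp a x, n⁻¹ • u ∈ comp a x := fun u hu => (Short_conj hm a n x u).1 (h hu)
      have hm' : Mono G Ωᵒᵈ := fun g u v huv => hm g v u huv
      have hcomp : ∀ (b : G) (u : Ω), comp (Ω := Ωᵒᵈ) b u = comp b u := by
        intro b u
        ext v
        exact And.comm
      have hcompinv : ∀ (b : G) (u : Ω), comp b⁻¹ u = comp b u := by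
        intro b u
        ext v
        constructor
        · rintro ⟨⟨p, hp⟩, ⟨q, hq⟩⟩
          exact ⟨⟨-p, by rwa [zpow_neg, ← inv_zpow]⟩, ⟨-q, by rwa [zpow_neg, ← inv_zpow]⟩⟩
        · rintro ⟨⟨p, hp⟩, ⟨q, hq⟩⟩
          exact ⟨⟨-p, by rwa [inv_zpow, zpow_neg, inv_inv]⟩,
            ⟨-q, by rwa [inv_zpow, zpow_neg, inv_inv]⟩⟩
      refine Short_up (Ω := Ωᵒᵈ) hm' hN hK ha (N.inv_mem hn) (fun u => ?_) (fun u => ?_) x ?_ ?_
      · have h1 := hnp (n⁻¹ • OrderDual.ofDual u)
        rw [smul_inv_smul] at h1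
        exact h1
      · rw [hcomp n⁻¹ u, hcompinv n u]
        exact hcof u
      · rw [hcomp a x]; exact hx
      · intro u hu
        rw [hcomp a x] at hu ⊢
        exact hsub u hu
    · -- `n I ⊆ I`
      refine Short_up hm hN hK ha hn hnp hcof x hx fun u hu => ?_
      apply h
      rw [Short_conj hm, inv_smul_smul]
      exact hu
  constructor
  · by_contra h
    push Not at h
    have h1 : n • x ∈ comp a x := Short_convex a (Short_mem_self a x) hz (hnp x).le h
    exact hdisj _ h1 (by rw [inv_smul_smul]; exact Short_mem_self a x)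
  · by_contra h
    push Not at h
    have h2 : n⁻¹ • x ≤ x := by
      have := (hnp (n⁻¹ • x)).le
      rwa [smul_inv_smul] at this
    have h1 : n⁻¹ • x ∈ comp a x := Short_convex a hz (Short_mem_self a x) h h2
    exact hdisj _ (Short_mem_self a x) h1

end Act

end Pool.Agent.IsoOrd
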