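import Pool.Agent.IsoOrd.Defs

/-!
# Tararin's theorem

Induction on `j`, for all cones `Q`. Step: `E = Cs (j+1)`, `H = Cs j`, `ψ` the homomorphism `E → ℚ` with
kernel exactly `H` (an element of `E \ H` or its inverse is in `P`), so `H` is normalised by `E`.
Claim: `H` is convex for `Q`. Suppose not: there are `e ∈ E \ H` and `u₁, u₂ ∈ H` with
`u₁ < e < u₂` (for `Q`). For `x ∈ E` say `x ~ y` if `x ≤ u y` and `y ≤ u' x` for some `u, u' ∈ H`. Since
`H` is normal (`u x = x u''`), `{x ∈ E | u < x < u' for some u, u' ∈ H}` is a subgroup containing `H` and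
`e`; every `x ∈ E` has a non-trivial power in `⟨H, e⟩` (rank one: `q ψ x = p ψ e`), and if `x` were above
all elements of `H` so would be all its positive powers; hence `H` is cofinal in `E` for `Q`.
If `j = 0`, `H = ⊥`: immediate contradiction. If `j = i + 1`: by induction `Q ∩ H` is given by signs, with
`H' = Cs i` convex and `H/H'` of rank one, so a top level element `u ∈ Q ∩ (H \ H')` has powers cofinal in
`H`, hence in `E`. Then for every `y ∈ E`: `y < u y` (otherwise `u^n y ≤ y` for all `n`, but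
`u^(-m) < y` for some `m`, so `u^(n-m) < u^n y ≤ y` for all `n`), that is `y⁻¹ u y ∈ Q`. Take the element
`e` and `h` of the field `neg` (for `m = i`): `h ∈ P`, `(e h e⁻¹)⁻¹ ∈ P`, both in `H \ H'`, have opposite
sign relation to `P`, but the same sign for `Q` (take `u = h` or `u = h⁻¹`, `y = e⁻¹`): contradiction with
the sign rule. So `H` is convex. Signs outside `H`: if `x, y ∈ E \ H`, `ψ x, ψ y > 0`, `x ∈ Q`,
`y⁻¹ ∈ Q` then `x^p y^(-q) ∈ H` for some `p, q > 0` but it is above `x^p`, which is above `H`: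
contradiction.
-/

set_option autoImplicit false

universe u

namespace Pool.Agent.IsoOrd

variable {G : Type*} [Group G]

/-- membership is decided by exactly one of `x`, `x⁻¹` -/
theorem tc_not_both {E : Subgroup G} {Q : Set G} (hQ : Cone E Q) {x : G} (h1 : x ∈ Q)
    (h2 : x⁻¹ ∈ Q) : False := by
  have := hQ.mul x h1 x⁻¹ h2
  rw [mul_inv_cancel] at this
  exact hQ.one this

theorem tc_pow {E : Subgroup G} {Q : Set G} (hQ : Cone E Q) {x : G} (h1 : x ∈ Q) :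
    ∀ n : ℕ, x ^ (n + 1) ∈ Q := by
  intro n
  induction n with
  | zero => rwa [zero_add, pow_one]
  | succ n ih =>
    rw [pow_succ]
    exact hQ.mul _ ih _ h1

/-- the data of one rank one jump -/
structure Jump (P : Set G) (E H : Subgroup G) (ψ : G → ℚ) : Prop where
  le : H ≤ E
  hom : ∀ x ∈ E, ∀ y ∈ E, ψ (x * y) = ψ x + ψ y
  zero : ∀ x ∈ H, ψ x = 0
  pos : ∀ x ∈ E, x ∉ H → x ∈ P → 0 < ψ x

theorem Jump.one {P : Set G} {E H : Subgroup G} {ψ : G → ℚ} (J : Jump P E H ψ) :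
    ψ 1 = 0 := J.zero 1 (one_mem H)

theorem Jump.inv {P : Set G} {E H : Subgroup G} {ψ : G → ℚ} (J : Jump P E H ψ) {x : G}
    (hx : x ∈ E) : ψ x⁻¹ = - ψ x := by
  have := J.hom x hx x⁻¹ (inv_mem hx)
  rw [mul_inv_cancel, J.one] at this
  linarith

theorem Jump.pow {P : Set G} {E H : Subgroup G} {ψ : G → ℚ} (J : Jump P E H ψ) {x : G}
    (hx : x ∈ E) (n : ℕ) : ψ (x ^ n) = n * ψ x := by
  induction n with
  | zero => rw [pow_zero, J.one]; simp
  | succ n ih =>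
    rw [pow_succ, J.hom _ (pow_mem hx n) _ hx, ih]
    push_cast
    ring

theorem Jump.zpow {P : Set G} {E H : Subgroup G} {ψ : G → ℚ} (J : Jump P E H ψ) {x : G}
    (hx : x ∈ E) (n : ℤ) : ψ (x ^ n) = n * ψ x := by
  cases n with
  | ofNat n =>
    rw [Int.ofNat_eq_natCast, zpow_natCast, J.pow hx]
    push_cast
    ring
  | negSucc n =>
    rw [zpow_negSucc, J.inv (pow_mem hx _), J.pow hx]
    push_cast
    ring

theorem Jump.pos_iff {P : Set G} {E H : Subgroup G} {ψ : G → ℚ} (hP : Cone ⊤ P)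
    (J : Jump P E H ψ) {x : G} (hx : x ∈ E) (hxH : x ∉ H) : x ∈ P ↔ 0 < ψ x := by
  constructor
  · exact J.pos x hx hxH
  · intro h0
    by_contra hcon
    have hx1 : x ≠ 1 := by
      rintro rfl
      exact hxH (one_mem H)
    rcases hP.tot x (Subgroup.mem_top x) hx1 with h1 | h1
    · exact hcon h1
    · have := J.pos x⁻¹ (inv_mem hx) (fun h => hxH (by simpa using inv_mem h)) h1
      rw [J.inv hx] at this
      linarith

theorem Jump.mem_iff {P : Set G} {E H : Subgroup G} {ψ : G → ℚ} (hP : Cone ⊤ P)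
    (J : Jump P E H ψ) {x : G} (hx : x ∈ E) : x ∈ H ↔ ψ x = 0 := by
  constructor
  · exact J.zero x
  · intro h0
    by_contra hcon
    have hx1 : x ≠ 1 := by
      rintro rfl
      exact hcon (one_mem H)
    rcases hP.tot x (Subgroup.mem_top x) hx1 with h1 | h1
    · have := J.pos x hx hcon h1
      linarith
    · have := J.pos x⁻¹ (inv_mem hx) (fun h => hcon (by simpa using inv_mem h)) h1
      rw [J.inv hx] at this
      linarith

theorem Jump.conj {P : Set G} {E H : Subgroup G} {ψ : G → ℚ} (hP : Cone ⊤ P)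
    (J : Jump P E H ψ) {x u : G} (hx : x ∈ E) (hu : u ∈ H) : x * u * x⁻¹ ∈ H := by
  have huE := J.le hu
  rw [J.mem_iff hP (mul_mem (mul_mem hx huE) (inv_mem hx)),
    J.hom _ (mul_mem hx huE) _ (inv_mem hx), J.hom _ hx _ huE, J.inv hx, J.zero u hu]
  ring

/-- commensurability in a rank one jump -/
theorem Jump.comm {P : Set G} {E H : Subgroup G} {ψ : G → ℚ} (hP : Cone ⊤ P)
    (J : Jump P E H ψ) {x y : G} (hx : x ∈ E) (hy : y ∈ E) (hyH : y ∉ H) :
    ∃ (p : ℕ) (q : ℤ), 0 < p ∧ x ^ p * y ^ (-q) ∈ H ∧ (p : ℚ) * ψ x = q * ψ y := by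
  have hy0 : ψ y ≠ 0 := fun h0 => hyH ((J.mem_iff hP hy).2 h0)
  refine ⟨(ψ x / ψ y).den, (ψ x / ψ y).num, (ψ x / ψ y).pos, ?_, ?_⟩
  · rw [J.mem_iff hP (mul_mem (pow_mem hx _) (zpow_mem hy _)),
      J.hom _ (pow_mem hx _) _ (zpow_mem hy _), J.pow hx, J.zpow hy]
    have h1 : ((ψ x / ψ y).num : ℚ) = (ψ x / ψ y) * (ψ x / ψ y).den := (Rat.mul_den_eq_num _).symm
    push_cast
    rw [h1]
    field_simp
    ring
  · have h1 : ((ψ x / ψ y).num : ℚ) = (ψ x / ψ y) * (ψ x / ψ y).den := (Rat.mul_den_eq_num _).symm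
    rw [h1]
    field_simp

/-- if `H` is not convex for `Q` then `H` is cofinal above -/
theorem tc_cofinal {P Q : Set G} {E H : Subgroup G} {ψ : G → ℚ} (hP : Cone ⊤ P)
    (J : Jump P E H ψ) (hQ : Cone E Q) {e u₁ u₂ : G} (he : e ∈ E) (heH : e ∉ H) (h₁ : u₁ ∈ H)
    (h₂ : u₂ ∈ H) (l₁ : u₁⁻¹ * e ∈ Q) (l₂ : e⁻¹ * u₂ ∈ Q) :
    ∀ x ∈ E, ∃ u ∈ H, x⁻¹ * u ∈ Q := by
  -- right multiplication by `H`
  have hB1 : ∀ x ∈ E, (∃ u ∈ H, x⁻¹ * u ∈ Q) → ∀ v ∈ H, ∃ u ∈ H, (x * v)⁻¹ * u ∈ Q := by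
    rintro x hx ⟨u, hu, hxu⟩ v hv
    refine ⟨x * v * x⁻¹ * u, mul_mem (J.conj hP hx hv) hu, ?_⟩
    have : (x * v)⁻¹ * (x * v * x⁻¹ * u) = x⁻¹ * u := by group
    rw [this]
    exact hxu
  have hB2 : ∀ x ∈ E, ∀ y ∈ E, (∃ u ∈ H, x⁻¹ * u ∈ Q) → (∃ u ∈ H, y⁻¹ * u ∈ Q) →
      ∃ u ∈ H, (x * y)⁻¹ * u ∈ Q := by
    rintro x hx y hy hxB ⟨w, hw, hyw⟩
    obtain ⟨u, hu, hxu⟩ := hB1 x hx hxB w hw
    refine ⟨u, hu, ?_⟩
    have : (x * y)⁻¹ * u = (y⁻¹ * w) * ((x * w)⁻¹ * u) := by group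
    rw [this]
    exact hQ.mul _ hyw _ hxu
  have hH : ∀ x ∈ H, ∃ u ∈ H, x⁻¹ * u ∈ Q := by
    intro x hx
    refine ⟨x * (u₁⁻¹ * u₂), mul_mem hx (mul_mem (inv_mem h₁) h₂), ?_⟩
    have : x⁻¹ * (x * (u₁⁻¹ * u₂)) = (u₁⁻¹ * e) * (e⁻¹ * u₂) := by group
    rw [this]
    exact hQ.mul _ l₁ _ l₂
  have heB : ∃ u ∈ H, e⁻¹ * u ∈ Q := ⟨u₂, h₂, l₂⟩
  have heB' : ∃ u ∈ H, (e⁻¹)⁻¹ * u ∈ Q := by
    have h3 : ∃ u ∈ H, (e⁻¹ * u₁)⁻¹ * u ∈ Q := by
      refine ⟨1, one_mem H, ?_⟩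
      have : (e⁻¹ * u₁)⁻¹ * 1 = u₁⁻¹ * e := by group
      rw [this]
      exact l₁
    obtain ⟨u, hu, h4⟩ := hB1 _ (mul_mem (inv_mem he) (J.le h₁)) h3 u₁⁻¹ (inv_mem h₁)
    refine ⟨u, hu, ?_⟩
    have : e⁻¹ * u₁ * u₁⁻¹ = e⁻¹ := by group
    rwa [this] at h4
  have hpow : ∀ x ∈ E, (∃ u ∈ H, x⁻¹ * u ∈ Q) → ∀ n : ℕ, ∃ u ∈ H, (x ^ n)⁻¹ * u ∈ Q := by
    intro x hx hxB n
    induction n with
    | zero =>
      rw [pow_zero]
      exact hH 1 (one_mem H)
    | succ n ih =>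
      rw [pow_succ]
      exact hB2 _ (pow_mem hx n) _ hx ih hxB
  have hzpow : ∀ n : ℤ, ∃ u ∈ H, (e ^ n)⁻¹ * u ∈ Q := by
    intro n
    cases n with
    | ofNat n =>
      rw [Int.ofNat_eq_natCast, zpow_natCast]
      exact hpow e he heB n
    | negSucc n =>
      rw [zpow_negSucc, ← inv_pow]
      exact hpow e⁻¹ (inv_mem he) heB' (n + 1)
  intro x hx
  by_contra hcon
  have hA : ∀ u ∈ H, u⁻¹ * x ∈ Q := by
    intro u hu
    have hne : x⁻¹ * u ≠ 1 := by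
      intro h0
      have hxu : x = u := by
        have := eq_of_inv_mul_eq_one h0
        exact this
      apply hcon
      rw [hxu]
      exact hH u hu
    rcases hQ.tot _ (mul_mem (inv_mem hx) (J.le hu)) hne with h1 | h1
    · exact absurd ⟨u, hu, h1⟩ hcon
    · have : (x⁻¹ * u)⁻¹ = u⁻¹ * x := by group
      rwa [this] at h1
  have hxQ : x ∈ Q := by
    have := hA 1 (one_mem H)
    simpa using this
  have hAp : ∀ n : ℕ, ∀ u ∈ H, u⁻¹ * x ^ (n + 1) ∈ Q := by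
    intro n
    induction n with
    | zero =>
      intro u hu
      rw [zero_add, pow_one]
      exact hA u hu
    | succ n ih =>
      intro u hu
      rw [pow_succ, ← mul_assoc]
      exact hQ.mul _ (ih u hu) _ hxQ
  obtain ⟨p, q, hp, hpq, _⟩ := J.comm hP hx he heH
  have h5 : ∃ u ∈ H, (x ^ p)⁻¹ * u ∈ Q := by
    have h6 := hB2 _ (J.le hpq) _ (zpow_mem he q) (hH _ hpq) (hzpow q)
    have : x ^ p * e ^ (-q) * e ^ q = x ^ p := by group
    rwa [this] at h6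
  obtain ⟨u, hu, h6⟩ := h5
  obtain ⟨p', rfl⟩ : ∃ p', p = p' + 1 := ⟨p - 1, by omega⟩
  have h7 := hAp p' u hu
  apply tc_not_both hQ h6
  have : ((x ^ (p' + 1))⁻¹ * u)⁻¹ = u⁻¹ * x ^ (p' + 1) := by group
  rw [this]
  exact h7

/-- if `H` is not convex then conjugation by `E` preserves the sign of top level elements of `H` -/
theorem tc_sign {P Q : Set G} {E H H' : Subgroup G} {ψ φ : G → ℚ} (hP : Cone ⊤ P)
    (J : Jump P E H ψ) (J' : Jump P H H' φ) (hQ : Cone E Q)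
    (hsign : ∀ x ∈ H, x ∉ H' → ∀ y ∈ H, y ∉ H' → x ∈ Q → (y ∈ Q ↔ (0 < φ y ↔ 0 < φ x)))
    (hcof : ∀ x ∈ E, ∃ u ∈ H, x⁻¹ * u ∈ Q) {u : G} (hu : u ∈ H) (huH : u ∉ H') (huQ : u ∈ Q)
    {y : G} (hy : y ∈ E) : y⁻¹ * u * y ∈ Q := by
  have hφu : φ u ≠ 0 := fun h0 => huH ((J'.mem_iff hP hu).2 h0)
  -- powers of `u` are cofinal in `H`
  have harch : ∀ v ∈ H, ∃ n : ℕ, v⁻¹ * u ^ n ∈ Q ∧ u ^ n * v⁻¹ ∈ Q := by
    intro v hv
    obtain ⟨n, hn⟩ := exists_nat_gt (|φ v| / |φ u|)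
    have hn' : |φ v| < n * |φ u| := by
      rwa [div_lt_iff₀ (abs_pos.2 hφu)] at hn
    refine ⟨n, ?_⟩
    have hmem : v⁻¹ * u ^ n ∈ H := mul_mem (inv_mem hv) (pow_mem hu n)
    have hmem' : u ^ n * v⁻¹ ∈ H := mul_mem (pow_mem hu n) (inv_mem hv)
    have hval : φ (v⁻¹ * u ^ n) = n * φ u - φ v := by
      rw [J'.hom _ (inv_mem hv) _ (pow_mem hu n), J'.inv hv, J'.pow hu]
      ring
    have hval' : φ (u ^ n * v⁻¹) = n * φ u - φ v := by
      rw [J'.hom _ (pow_mem hu n) _ (inv_mem hv), J'.inv hv, J'.pow hu]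
      ring
    have hs : (0 < n * φ u - φ v ↔ 0 < φ u) ∧ n * φ u - φ v ≠ 0 := by
      rcases lt_or_gt_of_ne hφu with h1 | h1
      · rw [abs_of_neg h1] at hn'
        have h2 := neg_abs_le (φ v)
        constructor
        · constructor
          · intro h3
            exfalso
            linarith
          · intro h3
            exfalso
            linarith
        · intro h3
          linarith
      · rw [abs_of_pos h1] at hn'
        have h2 := le_abs_self (φ v)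
        constructor
        · constructor
          · intro _
            exact h1
          · intro _
            linarith
        · intro h3
          linarith
    have hnm : v⁻¹ * u ^ n ∉ H' := fun h0 => hs.2 (by rw [← hval]; exact (J'.mem_iff hP hmem).1 h0)
    have hnm' : u ^ n * v⁻¹ ∉ H' :=
      fun h0 => hs.2 (by rw [← hval']; exact (J'.mem_iff hP hmem').1 h0)
    exact ⟨(hsign u hu huH _ hmem hnm huQ).2 (by rw [hval]; exact hs.1),
      (hsign u hu huH _ hmem' hnm' huQ).2 (by rw [hval']; exact hs.1)⟩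
  by_contra hcon
  have hne : y⁻¹ * u * y ≠ 1 := by
    intro h0
    have : u = 1 := by
      have h1 : u = y * (y⁻¹ * u * y) * y⁻¹ := by group
      rw [h1, h0]
      group
    rw [this] at huH
    exact huH (one_mem H')
  have hmem : y⁻¹ * u * y ∈ E := mul_mem (mul_mem (inv_mem hy) (J.le hu)) hy
  have hz : (y⁻¹ * u * y)⁻¹ ∈ Q := by
    rcases hQ.tot _ hmem hne with h1 | h1
    · exact absurd h1 hcon
    · exact h1
  obtain ⟨v, hv, hyv⟩ := hcof y hy
  obtain ⟨k, hk, _⟩ := harch v hv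
  -- y < v < u ^ k
  have hyk : y⁻¹ * u ^ k ∈ Q := by
    have : y⁻¹ * u ^ k = (y⁻¹ * v) * (v⁻¹ * u ^ k) := by group
    rw [this]
    exact hQ.mul _ hyv _ hk
  -- some u ^ (-m) < y
  obtain ⟨w, hw, hyw⟩ := hcof y⁻¹ (inv_mem hy)
  rw [inv_inv] at hyw
  have hw' : y * w * y⁻¹ ∈ H := J.conj hP hy hw
  obtain ⟨m, _, hm⟩ := harch (y * w * y⁻¹) hw'
  have h1 : u ^ m * y ∈ Q := by
    have : u ^ m * y = (u ^ m * (y * w * y⁻¹)⁻¹) * (y * w) := by group
    rw [this]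
    exact hQ.mul _ hm _ hyw
  have h2 : (y⁻¹ * u * y)⁻¹ ^ (m + k) * (y⁻¹ * u ^ k) = (u ^ m * y)⁻¹ := by
    have h3 : (y⁻¹ * u * y)⁻¹ ^ (m + k) = y⁻¹ * (u ^ (m + k))⁻¹ * y := by
      have h4 : (y⁻¹ * u * y)⁻¹ = y⁻¹ * u⁻¹ * y := by group
      rw [h4]
      have h5 : ∀ n : ℕ, (y⁻¹ * u⁻¹ * y) ^ n = y⁻¹ * (u ^ n)⁻¹ * y := by
        intro n
        induction n with
        | zero => simp
        | succ n ih =>
          rw [pow_succ, ih, pow_succ', mul_inv_rev]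
          group
      exact h5 _
    rw [h3, pow_add]
    group
  have h6 : (y⁻¹ * u * y)⁻¹ ^ (m + k) * (y⁻¹ * u ^ k) ∈ Q := by
    rcases Nat.eq_zero_or_pos (m + k) with h0 | h0
    · rw [h0, pow_zero, one_mul]
      exact hyk
    · obtain ⟨r, hr⟩ : ∃ r, m + k = r + 1 := ⟨m + k - 1, by omega⟩
      rw [hr]
      exact hQ.mul _ (tc_pow hQ hz r) _ hyk
  rw [h2] at h6
  exact tc_not_both hQ h1 h6

/-- signs outside a convex subgroup -/
theorem tc_outside {P Q : Set G} {E H : Subgroup G} {ψ : G → ℚ} (hP : Cone ⊤ P)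
    (J : Jump P E H ψ) (hQ : Cone E Q)
    (hconv : ∀ e ∈ E, e ∉ H → ∀ u₁ ∈ H, ∀ u₂ ∈ H, u₁⁻¹ * e ∈ Q → e⁻¹ * u₂ ∈ Q → False)
    {x y : G} (hx : x ∈ E) (hxH : x ∉ H) (hy : y ∈ E) (hyH : y ∉ H) (hψx : 0 < ψ x)
    (hψy : 0 < ψ y) (hxQ : x ∈ Q) : y ∈ Q := by
  by_contra hcon
  have hy1 : y ≠ 1 := by
    rintro rfl
    exact hyH (one_mem H)
  have hyi : y⁻¹ ∈ Q := by
    rcases hQ.tot y hy hy1 with h1 | h1
    · exact absurd h1 hcon
    · exact h1
  have hA : ∀ u ∈ H, u⁻¹ * x ∈ Q := by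
    intro u hu
    by_contra h0
    have hne : u⁻¹ * x ≠ 1 := by
      intro h1
      have : x = u := by
        have h2 : x = u * (u⁻¹ * x) := by group
        rw [h2, h1, mul_one]
      exact hxH (this ▸ hu)
    have h1 : (u⁻¹ * x)⁻¹ ∈ Q := by
      rcases hQ.tot _ (mul_mem (inv_mem (J.le hu)) hx) hne with h2 | h2
      · exact absurd h2 h0
      · exact h2
    have h2 : x⁻¹ * u ∈ Q := by
      have : (u⁻¹ * x)⁻¹ = x⁻¹ * u := by group
      rwa [this] at h1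
    exact hconv x hx hxH 1 (one_mem H) u hu (by simpa using hxQ) h2
  have hAp : ∀ n : ℕ, ∀ u ∈ H, u⁻¹ * x ^ (n + 1) ∈ Q := by
    intro n
    induction n with
    | zero =>
      intro u hu
      rw [zero_add, pow_one]
      exact hA u hu
    | succ n ih =>
      intro u hu
      rw [pow_succ, ← mul_assoc]
      exact hQ.mul _ (ih u hu) _ hxQ
  obtain ⟨p, q, hp, hpq, hval⟩ := J.comm hP hx hy hyH
  have hq : 0 < q := by
    have h1 : (0 : ℚ) < q * ψ y := by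
      rw [← hval]
      exact mul_pos (by exact_mod_cast hp) hψx
    have h2 : (0 : ℚ) < q := by
      by_contra h3
      push Not at h3
      have := mul_nonpos_of_nonpos_of_nonneg h3 hψy.le
      linarith
    exact_mod_cast h2
  obtain ⟨p', rfl⟩ : ∃ p', p = p' + 1 := ⟨p - 1, by omega⟩
  have h1 := hAp p' _ hpq
  obtain ⟨r, rfl⟩ : ∃ r : ℕ, q = r + 1 := ⟨(q - 1).toNat, by omega⟩
  have h2 : (x ^ (p' + 1) * y ^ (-((r : ℤ) + 1)))⁻¹ * x ^ (p' + 1) = ((y⁻¹) ^ (r + 1))⁻¹ := by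
    have h3 : y ^ (-((r : ℤ) + 1)) = (y⁻¹) ^ (r + 1) := by
      rw [zpow_neg, ← Nat.cast_succ, zpow_natCast, inv_pow]
    rw [h3]
    group
  rw [h2] at h1
  exact tc_not_both hQ (tc_pow hQ hyi r) h1

theorem tc_jump {P : Set G} {j : ℕ} {Cs : ℕ → Subgroup G} (h : TarSer P j Cs) {m : ℕ}
    (hm : m < j) : ∃ ψ, Jump P (Cs (m + 1)) (Cs m) ψ := by
  obtain ⟨ψ, h1, h2, h3⟩ := h.hom m hm
  exact ⟨ψ, (h.lt m hm).le, h1, h2, h3⟩

theorem tc_restrict {P : Set G} {j : ℕ} {Cs : ℕ → Subgroup G} (h : TarSer P (j + 1) Cs) :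
    TarSer P j Cs :=
  ⟨h.zero, fun m hm => h.lt m (by omega), fun m hm => h.hom m (by omega),
    fun m hm => h.neg m (by omega)⟩

/-- the convexity of the last but one term -/
theorem tc_convex {P : Set G} (hP : Cone ⊤ P) {j : ℕ} {Cs : ℕ → Subgroup G}
    (h : TarSer P (j + 1) Cs)
    (ih : ∀ {Q : Set G}, Cone (Cs j) Q →
      ∃ ε : ℕ → Prop, ∀ m < j, ∀ x ∈ Cs (m + 1), x ∉ Cs m → (x ∈ Q ↔ (ε m ↔ x ∈ P)))
    {Q : Set G} (hQ : Cone (Cs (j + 1)) Q) :
    ∀ e ∈ Cs (j + 1), e ∉ Cs j → ∀ u₁ ∈ Cs j, ∀ u₂ ∈ Cs j, u₁⁻¹ * e ∈ Q → e⁻¹ * u₂ ∈ Q →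
      False := by
  intro e he heH u₁ h₁ u₂ h₂ l₁ l₂
  obtain ⟨ψ, J⟩ := tc_jump h (Nat.lt_succ_self j)
  have hcof := tc_cofinal hP J hQ he heH h₁ h₂ l₁ l₂
  cases j with
  | zero =>
    rw [h.zero, Subgroup.mem_bot] at h₁ h₂
    subst h₁
    subst h₂
    rw [inv_one, one_mul] at l₁
    rw [mul_one] at l₂
    exact tc_not_both hQ l₁ l₂
  | succ i =>
    obtain ⟨φ, J'⟩ := tc_jump h (show i < i + 1 + 1 by omega)
    have hQH : Cone (Cs (i + 1)) (Q ∩ (Cs (i + 1) : Set G)) := by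
      refine ⟨fun x hx => hx.2, fun x hx y hy => ⟨hQ.mul x hx.1 y hy.1, mul_mem hx.2 hy.2⟩,
        fun h1 => hQ.one h1.1, ?_⟩
      intro x hx hx1
      rcases hQ.tot x (J.le hx) hx1 with h1 | h1
      · exact Or.inl ⟨h1, hx⟩
      · exact Or.inr ⟨h1, inv_mem hx⟩
    obtain ⟨ε, hε⟩ := ih hQH
    have hε' : ∀ x ∈ Cs (i + 1), x ∉ Cs i → (x ∈ Q ↔ (ε i ↔ 0 < φ x)) := by
      intro x hx hxi
      have h1 := hε i (Nat.lt_succ_self i) x hx hxi
      rw [J'.pos_iff hP hx hxi] at h1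
      rw [← h1]
      exact ⟨fun h2 => ⟨h2, hx⟩, fun h2 => h2.1⟩
    have hsign : ∀ x ∈ Cs (i + 1), x ∉ Cs i → ∀ y ∈ Cs (i + 1), y ∉ Cs i → x ∈ Q →
        (y ∈ Q ↔ (0 < φ y ↔ 0 < φ x)) := by
      intro x hx hxi y hy hyi hxQ
      have h1 := (hε' x hx hxi).1 hxQ
      rw [hε' y hy hyi]
      tauto
    obtain ⟨e', he', v, hv, hvi, hvP, hci, hcP⟩ := h.neg i (by omega)
    have hφv : 0 < φ v := J'.pos v hv hvi hvP
    have hconj : e' * v * e'⁻¹ ∈ Cs (i + 1) := J.conj hP he' hv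
    have hφc : φ (e' * v * e'⁻¹) < 0 := by
      have h1 := J'.pos _ (inv_mem hconj) (fun h2 => hci (by simpa using inv_mem h2)) hcP
      rw [J'.inv hconj] at h1
      linarith
    have hv1 : v ≠ 1 := by
      rintro rfl
      exact hvi (one_mem _)
    rcases hQ.tot v (J.le hv) hv1 with hvQ | hvQ
    · have h1 := tc_sign hP J J' hQ hsign hcof hv hvi hvQ (inv_mem he')
      rw [inv_inv] at h1
      have h2 := (hsign v hv hvi _ hconj hci hvQ).1 h1
      have h3 := h2.2 hφv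
      linarith
    · have hvi' : v⁻¹ ∉ Cs i := fun h2 => hvi (by simpa using inv_mem h2)
      have h1 := tc_sign hP J J' hQ hsign hcof (inv_mem hv) hvi' hvQ (inv_mem he')
      have h4 : e'⁻¹⁻¹ * v⁻¹ * e'⁻¹ = (e' * v * e'⁻¹)⁻¹ := by group
      rw [h4] at h1
      have hci' : (e' * v * e'⁻¹)⁻¹ ∉ Cs i := fun h2 => hci (by simpa using inv_mem h2)
      have h2 := (hsign v⁻¹ (inv_mem hv) hvi' _ (inv_mem hconj) hci' hvQ).1 h1
      rw [J'.inv hconj, J'.inv hv] at h2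
      have h3 := h2.1 (by linarith)
      linarith

/-- Tararin's theorem: every left order on `Cs j` is obtained from `P` by changing signs on the
levels -/
theorem tar_class {P : Set G} {j : ℕ} {Cs : ℕ → Subgroup G} (hP : Cone ⊤ P)
    (h : TarSer P j Cs) {Q : Set G} (hQ : Cone (Cs j) Q) :
    ∃ ε : ℕ → Prop, ∀ m < j, ∀ x ∈ Cs (m + 1), x ∉ Cs m → (x ∈ Q ↔ (ε m ↔ x ∈ P)) := by
  induction j generalizing Q with
  | zero => exact ⟨fun _ => True, fun m hm => absurd hm (Nat.not_lt_zero m)⟩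
  | succ j ih =>
    have hconv := tc_convex hP h (fun hQ' => ih (tc_restrict h) hQ') hQ
    obtain ⟨ψ, J⟩ := tc_jump h (Nat.lt_succ_self j)
    have hQH : Cone (Cs j) (Q ∩ (Cs j : Set G)) := by
      refine ⟨fun x hx => hx.2, fun x hx y hy => ⟨hQ.mul x hx.1 y hy.1, mul_mem hx.2 hy.2⟩,
        fun h1 => hQ.one h1.1, ?_⟩
      intro x hx hx1
      rcases hQ.tot x (J.le hx) hx1 with h1 | h1
      · exact Or.inl ⟨h1, hx⟩
      · exact Or.inr ⟨h1, inv_mem hx⟩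
    obtain ⟨ε, hε⟩ := ih (tc_restrict h) hQH
    refine ⟨fun m => if m < j then ε m else ∃ x ∈ Cs (j + 1), x ∉ Cs j ∧ x ∈ P ∧ x ∈ Q, ?_⟩
    intro m hm x hx hxm
    rcases Nat.lt_or_ge m j with hmj | hmj
    · simp only [hmj, if_true]
      rw [← hε m hmj x hx hxm]
      have hxj : x ∈ Cs j := by
        have hmono : ∀ k, m + 1 + k ≤ j → Cs (m + 1) ≤ Cs (m + 1 + k) := by
          intro k
          induction k with
          | zero => intro _; exact le_rfl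
          | succ k ihk =>
            intro hk
            exact (ihk (by omega)).trans (h.lt (m + 1 + k) (by omega)).le
        have := hmono (j - (m + 1)) (by omega)
        rw [show m + 1 + (j - (m + 1)) = j by omega] at this
        exact this hx
      exact ⟨fun h1 => ⟨h1, hxj⟩, fun h1 => h1.1⟩
    · have hmj' : m = j := by omega
      subst hmj'
      simp only [lt_irrefl, if_false]
      have hx1 : x ≠ 1 := by
        rintro rfl
        exact hxm (one_mem _)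
      have hxi : x⁻¹ ∉ Cs m := fun h2 => hxm (by simpa using inv_mem h2)
      constructor
      · intro hxQ
        constructor
        · rintro ⟨y, hy, hym, hyP, hyQ⟩
          by_contra hxP
          have hxiP : x⁻¹ ∈ P := by
            rcases hP.tot x (Subgroup.mem_top x) hx1 with h1 | h1
            · exact absurd h1 hxP
            · exact h1
          have := tc_outside hP J hQ hconv hy hym (inv_mem hx) hxi (J.pos y hy hym hyP)
            (J.pos _ (inv_mem hx) hxi hxiP) hyQ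
          exact tc_not_both hQ hxQ this
        · intro hxP
          exact ⟨x, hx, hxm, hxP, hxQ⟩
      · intro hiff
        by_cases hxP : x ∈ P
        · obtain ⟨y, hy, hym, hyP, hyQ⟩ := hiff.2 hxP
          exact tc_outside hP J hQ hconv hy hym hx hxm (J.pos y hy hym hyP)
            (J.pos x hx hxm hxP) hyQ
        · have hxiP : x⁻¹ ∈ P := by
            rcases hP.tot x (Subgroup.mem_top x) hx1 with h1 | h1
            · exact absurd h1 hxP
            · exact h1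
          rcases hQ.tot x hx hx1 with h1 | h1
          · exact h1
          · exfalso
            exact hxP (hiff.1 ⟨x⁻¹, inv_mem hx, hxi, hxiP, h1⟩)

end Pool.Agent.IsoOrd
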